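import Pool.Agent.Helper3.Chord.Defs

set_option autoImplicit false

/-! # Chord maps: basic properties for strictly convex and smooth bodies -/

namespace ChordMaps

variable {K : Set Plane} {u v x y z : Plane}

lemma exists_smul_of_cross_eq_zero (hv : v ≠ 0) {w : Plane} (h : cross v w = 0) :
    ∃ t : ℝ, w = t • v := by
  have hv' : v 0 ≠ 0 ∨ v 1 ≠ 0 := by
    by_contra hcon
    push Not at hcon
    apply hv
    ext i
    fin_cases i
    · simpa using hcon.1
    · simpa using hcon.2
  unfold cross at h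
  rcases hv' with h0 | h1
  · refine ⟨w 0 / v 0, ?_⟩
    ext i
    fin_cases i
    · simp [div_mul_cancel₀ _ h0]
    · simp only [Fin.mk_one, PiLp.smul_apply, smul_eq_mul]
      field_simp
      linarith
  · refine ⟨w 1 / v 1, ?_⟩
    ext i
    fin_cases i
    · simp only [Fin.zero_eta, PiLp.smul_apply, smul_eq_mul]
      field_simp
      linarith
    · simp [div_mul_cancel₀ _ h1]

lemma frontier_notMem_interior (hx : x ∈ frontier K) : x ∉ interior K := by
  rw [frontier_eq_closure_inter_closure] at hx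
  intro h
  have := hx.2
  rw [closure_compl] at this
  exact this h

lemma mem_frontier_of (hcl : IsClosed K) (hx : x ∈ K) (h : x ∉ interior K) : x ∈ frontier K := by
  rw [hcl.frontier_eq]
  exact ⟨hx, h⟩

lemma not_between (hs : StrictConvex ℝ K) (hx : x ∈ frontier K) (hy : y ∈ K) (hz : z ∈ K)
    (hyz : y ≠ z) : x ∉ openSegment ℝ y z := fun h =>
  frontier_notMem_interior hx (hs.openSegment_subset hy hz hyz h)

lemma not_collinear_three (hs : StrictConvex ℝ K) {p : Plane} {a b c : ℝ}
    (hab : a < b) (hbc : b < c) (hu : u ≠ 0)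
    (ha : p + a • u ∈ K) (hb : p + b • u ∈ frontier K) (hc : p + c • u ∈ K) : False := by
  have hne : p + a • u ≠ p + c • u := by
    intro h
    have h1 : a • u = c • u := add_left_cancel h
    have h2 : (a - c) • u = 0 := by rw [sub_smul, h1, sub_self]
    rcases smul_eq_zero.1 h2 with h3 | h3
    · linarith
    · exact hu h3
  refine not_between hs hb ha hc hne ?_
  have hac : 0 < c - a := by linarith
  refine ⟨(c - b) / (c - a), (b - a) / (c - a), div_pos (by linarith) hac,
    div_pos (by linarith) hac, ?_, ?_⟩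
  · rw [← add_div]
    rw [div_eq_one_iff_eq hac.ne']
    ring
  · ext i
    simp only [PiLp.add_apply, PiLp.smul_apply, smul_eq_mul]
    field_simp
    ring

lemma exists_last (hcp : IsCompact K) (hx : x ∈ K) {d : Plane} (hd : d ≠ 0) :
    ∃ t : ℝ, 0 ≤ t ∧ x + t • d ∈ frontier K ∧ ∀ s : ℝ, x + s • d ∈ K → s ≤ t := by
  set A : Set ℝ := {s | x + s • d ∈ K} with hA
  have hcl : IsClosed A := hcp.isClosed.preimage (by fun_prop)
  have hdn : 0 < ‖d‖ := norm_pos_iff.2 hd
  obtain ⟨D, hD⟩ := hcp.isBounded.subset_closedBall x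
  have hbd : A ⊆ Set.Icc (-(D / ‖d‖)) (D / ‖d‖) := by
    intro s hs
    have h1 := hD hs
    rw [Metric.mem_closedBall, dist_eq_norm] at h1
    have h2 : x + s • d - x = s • d := by abel
    rw [h2, norm_smul, Real.norm_eq_abs] at h1
    have h3 : |s| ≤ D / ‖d‖ := by
      rw [le_div_iff₀ hdn]; exact h1
    exact abs_le.1 h3
  have hAc : IsCompact A := isCompact_Icc.of_isClosed_subset hcl hbd
  have h0 : (0 : ℝ) ∈ A := by simpa [hA] using hx
  obtain ⟨t, ht⟩ := hAc.exists_isGreatest ⟨0, h0⟩
  refine ⟨t, ht.2 h0, ?_, fun s hs => ht.2 hs⟩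
  refine mem_frontier_of hcp.isClosed ht.1 fun hint => ?_
  have hopen : IsOpen {s : ℝ | x + s • d ∈ interior K} :=
    isOpen_interior.preimage (by fun_prop)
  obtain ⟨ε, hε, hball⟩ := Metric.isOpen_iff.1 hopen t hint
  have h4 : t + ε / 2 ∈ Metric.ball t ε := by
    rw [Metric.mem_ball, Real.dist_eq]
    rw [abs_of_pos] <;> linarith
  have h6 : x + (t + ε / 2) • d ∈ interior K := hball h4
  have h7 : x + (t + ε / 2) • d ∈ K := interior_subset h6
  have h5 : t + ε / 2 ∈ A := h7
  have := ht.2 h5
  linarith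

lemma chord_spec (h : ∃ y, y ∈ frontier K ∧ y ≠ x ∧ ∃ t : ℝ, y = x + t • u) :
    chord K u x ∈ frontier K ∧ chord K u x ≠ x ∧ ∃ t : ℝ, chord K u x = x + t • u := by
  have : chord K u x = h.choose := by
    unfold chord
    rw [dif_pos h]
  rw [this]
  exact h.choose_spec

lemma chord_of_not (h : ¬ ∃ y, y ∈ frontier K ∧ y ≠ x ∧ ∃ t : ℝ, y = x + t • u) :
    chord K u x = x := by
  unfold chord
  rw [dif_neg h]

lemma chord_mem (hx : x ∈ frontier K) : chord K u x ∈ frontier K := by
  by_cases h : ∃ y, y ∈ frontier K ∧ y ≠ x ∧ ∃ t : ℝ, y = x + t • u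
  · exact (chord_spec h).1
  · rwa [chord_of_not h]

lemma chord_line (K : Set Plane) (u x : Plane) : ∃ t : ℝ, chord K u x = x + t • u := by
  by_cases h : ∃ y, y ∈ frontier K ∧ y ≠ x ∧ ∃ t : ℝ, y = x + t • u
  · exact (chord_spec h).2.2
  · exact ⟨0, by rw [chord_of_not h]; simp⟩

lemma cross_chord (K : Set Plane) (u x : Plane) : cross u (chord K u x) = cross u x := by
  obtain ⟨t, ht⟩ := chord_line K u x
  rw [ht, cross_add_right, cross_smul_right, cross_self]
  ring

lemma chord_eq (hcl : IsClosed K) (hs : StrictConvex ℝ K) (hx : x ∈ frontier K)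
    (hy : y ∈ frontier K) (hne : y ≠ x) (ht : ∃ t : ℝ, y = x + t • u) : chord K u x = y := by
  obtain ⟨hz, hzx, s, hs'⟩ := chord_spec ⟨y, hy, hne, ht⟩
  obtain ⟨t, ht⟩ := ht
  have hu : u ≠ 0 := by
    rintro rfl
    apply hne
    rw [ht]; simp
  have hsub := hcl.frontier_subset
  have hx0 : x + (0 : ℝ) • u = x := by simp
  have ht0 : t ≠ 0 := by
    rintro rfl
    exact hne (by rw [ht]; simp)
  have hs0 : s ≠ 0 := by
    rintro rfl
    exact hzx (by rw [hs']; simp)
  by_contra hcon
  have hst : s ≠ t := by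
    rintro rfl
    exact hcon (by rw [hs', ht])
  have key : ∀ a b c : ℝ, x + a • u ∈ frontier K → x + b • u ∈ frontier K →
      x + c • u ∈ frontier K → a < b → b < c → False := fun a b c ha hb hc hab hbc =>
    not_collinear_three hs hab hbc hu (hsub ha) hb (hsub hc)
  have h0f : x + (0 : ℝ) • u ∈ frontier K := by rwa [hx0]
  have htf : x + t • u ∈ frontier K := by rwa [← ht]
  have hsf : x + s • u ∈ frontier K := by rwa [← hs']
  rcases lt_trichotomy s t with h1 | h1 | h1
  · rcases lt_or_gt_of_ne ht0 with h2 | h2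
    · exact key s t 0 hsf htf h0f h1 h2
    · rcases lt_or_gt_of_ne hs0 with h3 | h3
      · exact key s 0 t hsf h0f htf h3 h2
      · exact key 0 s t h0f hsf htf h3 h1
  · exact hst h1
  · rcases lt_or_gt_of_ne hs0 with h2 | h2
    · exact key t s 0 htf hsf h0f h1 h2
    · rcases lt_or_gt_of_ne ht0 with h3 | h3
      · exact key t 0 s htf h0f hsf h3 h2
      · exact key 0 t s h0f htf hsf h3 h1

lemma chord_chord (hcl : IsClosed K) (hs : StrictConvex ℝ K) (hx : x ∈ frontier K) :
    chord K u (chord K u x) = x := by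
  by_cases h : chord K u x = x
  · rw [h, h]
  · obtain ⟨t, ht⟩ := chord_line K u x
    refine chord_eq hcl hs (chord_mem hx) hx (Ne.symm h) ⟨-t, ?_⟩
    rw [ht]
    simp

lemma mem_segment_chord (hcp : IsCompact K) (hs : StrictConvex ℝ K) (hu : u ≠ 0)
    (hx : x ∈ frontier K) (hz : z ∈ K) (hzx : cross u z = cross u x) :
    z ∈ segment ℝ x (chord K u x) := by
  obtain ⟨s, hs'⟩ := exists_smul_of_cross_eq_zero hu
    (show cross u (z - x) = 0 by rw [cross_sub_right, hzx, sub_self])
  have hz' : z = x + s • u := by rw [← hs']; abel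
  by_cases hs0 : s = 0
  · rw [hz', hs0, zero_smul, add_zero]
    exact left_mem_segment ℝ _ _
  have hd : z - x ≠ 0 := by
    rw [hs']
    exact smul_ne_zero hs0 hu
  obtain ⟨t, ht0, htf, htm⟩ := exists_last hcp (hcp.isClosed.frontier_subset hx) hd
  have ht1 : 1 ≤ t := htm 1 (by rw [one_smul]; simpa using hz)
  have hne : x + t • (z - x) ≠ x := by
    intro h
    have h1 : t • (z - x) = 0 := by
      have := add_left_cancel (a := x) (b := t • (z - x)) (c := 0) (by rw [h, add_zero])
      exact this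
    rcases smul_eq_zero.1 h1 with h2 | h2
    · linarith
    · exact hd h2
  have hch : chord K u x = x + t • (z - x) :=
    chord_eq hcp.isClosed hs hx htf hne ⟨t * s, by rw [hs', smul_smul]⟩
  rw [hch]
  have htpos : 0 < t := by linarith
  refine ⟨1 - 1 / t, 1 / t, ?_, by positivity, by ring, ?_⟩
  · rw [sub_nonneg, div_le_one htpos]; exact ht1
  · ext i
    simp only [PiLp.add_apply, PiLp.smul_apply, PiLp.sub_apply, smul_eq_mul]
    field_simp
    ring

lemma support_of_chord_eq (hcp : IsCompact K) (hs : StrictConvex ℝ K) (hu : u ≠ 0)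
    (hx : x ∈ frontier K) (h : chord K u x = x) :
    (∀ z ∈ K, cross u z ≤ cross u x) ∨ (∀ z ∈ K, cross u x ≤ cross u z) := by
  by_contra hcon
  push Not at hcon
  obtain ⟨⟨z1, hz1, h1⟩, ⟨z2, hz2, h2⟩⟩ := hcon
  have hpos : 0 < cross u z1 - cross u z2 := by linarith
  set a : ℝ := (cross u x - cross u z2) / (cross u z1 - cross u z2) with ha
  set b : ℝ := (cross u z1 - cross u x) / (cross u z1 - cross u z2) with hb
  have ha0 : 0 < a := div_pos (by linarith) hpos
  have hb0 : 0 < b := div_pos (by linarith) hpos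
  have hab : a + b = 1 := by
    rw [ha, hb, ← add_div, div_eq_one_iff_eq hpos.ne']
    ring
  have hne : z1 ≠ z2 := by
    rintro rfl
    linarith
  have hw : a • z1 + b • z2 ∈ interior K := hs hz1 hz2 hne ha0 hb0 hab
  have hcw : cross u (a • z1 + b • z2) = cross u x := by
    rw [cross_add_right, cross_smul_right, cross_smul_right, ha, hb]
    field_simp
    ring
  have hseg := mem_segment_chord hcp hs hu hx (interior_subset hw) hcw
  rw [h, segment_same] at hseg
  rw [Set.mem_singleton_iff] at hseg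
  rw [hseg] at hw
  exact frontier_notMem_interior hx hw

/-- rotation by a right angle -/
noncomputable def rot (u : Plane) : Plane := !₂[-(u 1), u 0]

lemma inner_rot (u z : Plane) : inner ℝ (rot u) z = cross u z := by
  simp [rot, cross, PiLp.inner_apply, Fin.sum_univ_two]
  ring

lemma rot_ne_zero (hu : u ≠ 0) : rot u ≠ 0 := by
  intro h
  apply hu
  have h0 : (rot u) 0 = 0 := by rw [h]; simp
  have h1 : (rot u) 1 = 0 := by rw [h]; simp
  ext i
  fin_cases i
  · simpa [rot] using h1
  · simpa [rot] using h0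

lemma cross_rot_rot (u v : Plane) : cross (rot u) (rot v) = cross u v := by
  simp [rot, cross]
  ring

lemma exists_outer_of_chord_eq (hcp : IsCompact K) (hs : StrictConvex ℝ K) (hu : u ≠ 0)
    (hx : x ∈ frontier K) (h : chord K u x = x) :
    ∃ a : ℝ, a ≠ 0 ∧ ∀ z ∈ K, inner ℝ (a • rot u) z ≤ inner ℝ (a • rot u) x := by
  rcases support_of_chord_eq hcp hs hu hx h with h1 | h1
  · refine ⟨1, one_ne_zero, fun z hz => ?_⟩
    rw [one_smul, inner_rot, inner_rot]
    exact h1 z hz
  · refine ⟨-1, by norm_num, fun z hz => ?_⟩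
    rw [neg_one_smul, inner_neg_left, inner_neg_left, inner_rot, inner_rot]
    exact neg_le_neg (h1 z hz)

lemma chord_ne_chord (hcp : IsCompact K) (hs : StrictConvex ℝ K) (hsm : Smooth K)
    (huv : cross u v ≠ 0) (hx : x ∈ frontier K) : chord K u x ≠ chord K v x := by
  have hu : u ≠ 0 := by
    rintro rfl
    exact huv (by simp [cross])
  have hv : v ≠ 0 := by
    rintro rfl
    exact huv (by simp [cross])
  intro heq
  obtain ⟨t, ht⟩ := chord_line K u x
  obtain ⟨s, hs'⟩ := chord_line K v x
  by_cases hxx : chord K u x = x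
  · obtain ⟨a, ha, hA⟩ := exists_outer_of_chord_eq hcp hs hu hx hxx
    obtain ⟨b, hb, hB⟩ := exists_outer_of_chord_eq hcp hs hv hx (heq ▸ hxx)
    obtain ⟨c, hc, hcc⟩ := hsm x hx _ _ (smul_ne_zero ha (rot_ne_zero hu))
      (smul_ne_zero hb (rot_ne_zero hv)) hA hB
    have h1 : cross (a • rot u) (b • rot v) = 0 := by
      rw [hcc, cross_smul_right, cross_self, mul_zero]
    rw [cross_smul_left, cross_smul_right, cross_rot_rot] at h1
    rcases mul_eq_zero.1 h1 with h2 | h2
    · exact ha h2
    · rcases mul_eq_zero.1 h2 with h3 | h3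
      · exact hb h3
      · exact huv h3
  · have htu : t • u = s • v := by
      have : x + t • u = x + s • v := by rw [← ht, ← hs', heq]
      exact add_left_cancel this
    have ht0 : t ≠ 0 := by
      rintro rfl
      exact hxx (by rw [ht]; simp)
    have h1 : cross (t • u) (s • v) = 0 := by rw [htu, cross_self]
    rw [cross_smul_left, cross_smul_right] at h1
    rcases mul_eq_zero.1 h1 with h2 | h2
    · exact ht0 h2
    · rcases mul_eq_zero.1 h2 with h3 | h3
      · apply ht0
        rw [h3, zero_smul] at htu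
        rcases smul_eq_zero.1 htu with h4 | h4
        · exact h4
        · exact absurd h4 hu
      · exact huv h3

end ChordMaps
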