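import Pool.Agent.Helper3.Chord.Defs

set_option autoImplicit false

/-!
# CM-1: the abstract graph lemma

Three involutions `f 0, f 1, f 2` of a set with pairwise different values at each point and a
summable flow `F` that is odd under each involution, conserved at each point and has at most
one zero component at each point.  Then there is a finite set `T` in which the number of pairs
`(x, i)` with `x, f i x ∈ T` is at least `2 |T| + 1`.
-/

namespace ChordMaps

open Finset

section
variable {X : Type*} (f : Fin 3 → X → X) (F : Fin 3 → X → ℝ)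

/-- the graph of all pairs `x, f i x` with `F i x ≠ 0` -/
def cm1_graph (hf : ∀ i x, f i (f i x) = x) (hF : ∀ i x, F i (f i x) = - F i x) :
    SimpleGraph X where
  Adj x y := ∃ i, f i x = y ∧ F i x ≠ 0
  symm := ⟨by
    rintro x y ⟨i, rfl, h⟩
    exact ⟨i, hf i x, by rw [hF]; simpa using h⟩⟩
  loopless := ⟨by
    rintro x ⟨i, hi, h⟩
    have := hF i x
    rw [hi] at this
    exact h (by linarith)⟩

/-- a summable function that is odd under an involution has sum zero -/
lemma cm1_tsum_eq_zero {g : X → X} (hg : ∀ x, g (g x) = x) {G : X → ℝ}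
    (hG : ∀ x, G (g x) = - G x) : ∑' x, G x = 0 := by
  have h1 : ∑' x, G (g x) = ∑' x, G x := (Equiv.mk g g hg hg).tsum_eq G
  have h2 : ∑' x, G (g x) = - ∑' x, G x := by
    rw [← tsum_neg]
    exact tsum_congr hG
  linarith

variable (hf : ∀ i x, f i (f i x) = x) (hF : ∀ i x, F i (f i x) = - F i x)

/-- no edge of the graph is a bridge -/
lemma cm1_not_bridge (hne : ∀ i j x, i ≠ j → f i x ≠ f j x)
    (hsum : ∀ x, ∑ i, F i x = 0) (hsm : ∀ i, Summable (F i)) (i : Fin 3) (x : X)
    (hx : F i x ≠ 0) :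
    ((cm1_graph f F hf hF).deleteEdges {s(x, f i x)}).Reachable x (f i x) := by
  classical
  set G := cm1_graph f F hf hF with hG
  by_contra hb
  set y := f i x with hy
  have hfy : f i y = x := hf i x
  -- the component of `y`
  set B : Set X := {z | (G.deleteEdges {s(x, y)}).Reachable z y} with hB
  have hyB : y ∈ B := SimpleGraph.Reachable.refl y
  have hxB : x ∉ B := hb
  -- the modified functions
  set g : Fin 3 → X → ℝ := fun j z =>
    if z ∈ B ∧ ¬ (j = i ∧ z = y) then F j z else 0 with hg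
  have hstep : ∀ j z, z ∈ B → ¬ (j = i ∧ z = y) → F j z ≠ 0 →
      f j z ∈ B ∧ ¬ (j = i ∧ f j z = y) := by
    intro j z hz hjz hFz
    have hnot : ¬ (j = i ∧ f j z = y) := by
      rintro ⟨rfl, h⟩
      apply hxB
      have : z = x := by rw [← hf j z, h, hfy]
      rwa [← this]
    refine ⟨?_, hnot⟩
    have hadj : (G.deleteEdges {s(x, y)}).Adj (f j z) z := by
      rw [SimpleGraph.deleteEdges_adj]
      refine ⟨(show G.Adj z (f j z) from ⟨j, rfl, hFz⟩).symm, ?_⟩
      rw [Set.mem_singleton_iff, Sym2.eq_iff]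
      rintro (⟨h1, h2⟩ | ⟨h1, h2⟩)
      · apply hjz
        refine ⟨?_, h2⟩
        by_contra hji
        apply hne j i z hji
        rw [h1, h2, hfy]
      · exact hxB (h2 ▸ hz)
    exact hadj.reachable.trans hz
  have hodd : ∀ j z, g j (f j z) = - g j z := by
    intro j z
    by_cases h0 : F j z = 0
    · have h1 : F j (f j z) = 0 := by rw [hF, h0, neg_zero]
      simp only [hg, h0, h1, ite_self, neg_zero]
    · have h1 : F j (f j z) ≠ 0 := by rw [hF]; simpa using h0
      by_cases hz : z ∈ B ∧ ¬ (j = i ∧ z = y)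
      · have h2 := hstep j z hz.1 hz.2 h0
        simp only [hg, if_pos hz, if_pos h2, hF]
      · have h2 : ¬ (f j z ∈ B ∧ ¬ (j = i ∧ f j z = y)) := by
          intro h2
          have h3 := hstep j (f j z) h2.1 h2.2 h1
          rw [hf] at h3
          exact hz h3
        simp only [hg, if_neg hz, if_neg h2, neg_zero]
  have hgsum : ∀ j, ∑' z, g j z = 0 := fun j => cm1_tsum_eq_zero (hf j) (hodd j)
  -- compare with the indicator of `B`
  have hgs : ∀ j, Summable (g j) := by
    intro j
    refine Summable.of_norm_bounded (hsm j).norm fun z => ?_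
    simp only [hg]
    split_ifs
    · exact le_rfl
    · simp
  have hdec : ∀ z, ∑ j, g j z = if z = y then - F i y else 0 := by
    intro z
    by_cases hz : z ∈ B
    · by_cases hzy : z = y
      · rw [hzy, if_pos rfl]
        have h1 : ∀ j, g j y = F j y - (if j = i then F i y else 0) := by
          intro j
          by_cases hj : j = i
          · subst hj
            simp [hg]
          · simp [hg, hj, hyB]
        simp only [h1, Finset.sum_sub_distrib, hsum y]
        simp
      · rw [if_neg hzy, ← hsum z]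
        exact Finset.sum_congr rfl fun j _ => by simp [hg, hz, hzy]
    · have hzy : z ≠ y := fun h => hz (h ▸ hyB)
      rw [if_neg hzy]
      exact Finset.sum_eq_zero fun j _ => by simp [hg, hz]
  have htot : ∑' z, ∑ j, g j z = 0 := by
    rw [Summable.tsum_finsetSum fun j _ => hgs j]
    exact Finset.sum_eq_zero fun j _ => hgsum j
  simp only [hdec, tsum_ite_eq] at htot
  apply hx
  have := hF i x
  rw [← hy] at this
  linarith

include hf hF in
/-- every point is contained in a finite set `Z` all of whose points have two labels leading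
into `Z` -/
lemma cm1_exists_cycle (hne : ∀ i j x, i ≠ j → f i x ≠ f j x)
    (hsum : ∀ x, ∑ i, F i x = 0) (hsm : ∀ i, Summable (F i))
    (h0 : ∀ x i j, F i x = 0 → F j x = 0 → i = j) (x : X) :
    ∃ Z : Set X, Z.Finite ∧ x ∈ Z ∧ ∀ z ∈ Z, ∃ i j, i ≠ j ∧ f i z ∈ Z ∧ f j z ∈ Z := by
  classical
  obtain ⟨i, hi⟩ : ∃ i, F i x ≠ 0 := by
    by_contra! h
    exact absurd (h0 x 0 1 (h 0) (h 1)) (by decide)
  set G := cm1_graph f F hf hF with hG
  have hadj : G.Adj x (f i x) := ⟨i, rfl, hi⟩
  obtain ⟨u, p, hp, he⟩ := SimpleGraph.adj_and_reachable_delete_edges_iff_exists_cycle.1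
    ⟨hadj, cm1_not_bridge f F hf hF hne hsum hsm i x hi⟩
  refine ⟨{z | z ∈ p.support}, p.support.finite_toSet, p.fst_mem_support_of_mem_edges he, ?_⟩
  intro z hz
  have h2 := hp.ncard_neighborSet_toSubgraph_eq_two hz
  obtain ⟨a, b, hab, hN⟩ := Set.ncard_eq_two.1 h2
  have ha : a ∈ p.toSubgraph.neighborSet z := by rw [hN]; simp
  have hb : b ∈ p.toSubgraph.neighborSet z := by rw [hN]; simp
  obtain ⟨i', hi', -⟩ : G.Adj z a := p.toSubgraph.adj_sub ha
  obtain ⟨j', hj', -⟩ : G.Adj z b := p.toSubgraph.adj_sub hb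
  refine ⟨i', j', ?_, ?_, ?_⟩
  · rintro rfl
    exact hab (hi'.symm.trans hj')
  · rw [hi']
    exact p.mem_verts_toSubgraph.1 (p.toSubgraph.edge_vert (p.toSubgraph.adj_symm ha))
  · rw [hj']
    exact p.mem_verts_toSubgraph.1 (p.toSubgraph.edge_vert (p.toSubgraph.adj_symm hb))

lemma cm1_card_eq [DecidableEq X] (T : Finset X) :
    ((T ×ˢ (Finset.univ : Finset (Fin 3))).filter (fun p => f p.2 p.1 ∈ T)).card =
      ∑ x ∈ T, ((Finset.univ : Finset (Fin 3)).filter (fun i => f i x ∈ T)).card := by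
  simp only [Finset.card_filter, Finset.sum_product]

end

theorem exists_dense_finset {X : Type*} [Nonempty X] [DecidableEq X] (f : Fin 3 → X → X)
    (hf : ∀ i x, f i (f i x) = x) (hne : ∀ i j x, i ≠ j → f i x ≠ f j x)
    (F : Fin 3 → X → ℝ) (hF : ∀ i x, F i (f i x) = - F i x) (hsum : ∀ x, ∑ i, F i x = 0)
    (hsm : ∀ i, Summable (F i)) (h0 : ∀ x i j, F i x = 0 → F j x = 0 → i = j) :
    ∃ T : Finset X,
      2 * T.card + 1 ≤ ((T ×ˢ (Finset.univ : Finset (Fin 3))).filter
        (fun p => f p.2 p.1 ∈ T)).card := by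
  have key : ∀ x : X, ∃ Z : Finset X, x ∈ Z ∧ ∀ z ∈ Z, ∃ i j, i ≠ j ∧ f i z ∈ Z ∧ f j z ∈ Z := by
    intro x
    obtain ⟨Z, hZ, hx, h⟩ := cm1_exists_cycle f F hf hF hne hsum hsm h0 x
    refine ⟨hZ.toFinset, by simpa using hx, ?_⟩
    intro z hz
    simpa using h z (by simpa using hz)
  obtain ⟨x0⟩ := ‹Nonempty X›
  obtain ⟨T, hx0, hT⟩ := key x0
  by_cases hcl : ∀ x ∈ T, ∀ i, f i x ∈ T
  · refine ⟨T, ?_⟩
    rw [cm1_card_eq]
    have h3 : ∀ x ∈ T, ((Finset.univ : Finset (Fin 3)).filter (fun i => f i x ∈ T)).card = 3 := by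
      intro x hx
      rw [Finset.filter_true_of_mem fun i _ => hcl x hx i]
      rfl
    rw [Finset.sum_congr rfl h3, Finset.sum_const, smul_eq_mul]
    have : 0 < T.card := Finset.card_pos.2 ⟨x0, hx0⟩
    omega
  · push Not at hcl
    obtain ⟨p, hpT, i, hi⟩ := hcl
    obtain ⟨Z, hqZ, hZ⟩ := key (f i p)
    refine ⟨T ∪ Z, ?_⟩
    rw [cm1_card_eq]
    have h2 : ∀ x ∈ T ∪ Z,
        2 ≤ ((Finset.univ : Finset (Fin 3)).filter (fun i => f i x ∈ T ∪ Z)).card := by
      intro x hx
      obtain ⟨a, b, hab, ha, hb⟩ : ∃ a b, a ≠ b ∧ f a x ∈ T ∪ Z ∧ f b x ∈ T ∪ Z := by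
        rcases Finset.mem_union.1 hx with hx | hx
        · obtain ⟨a, b, hab, ha, hb⟩ := hT x hx
          exact ⟨a, b, hab, Finset.mem_union_left _ ha, Finset.mem_union_left _ hb⟩
        · obtain ⟨a, b, hab, ha, hb⟩ := hZ x hx
          exact ⟨a, b, hab, Finset.mem_union_right _ ha, Finset.mem_union_right _ hb⟩
      rw [← Finset.card_pair hab]
      refine Finset.card_le_card ?_
      intro c hc
      rcases Finset.mem_insert.1 hc with rfl | hc
      · simpa using ha
      · rw [Finset.mem_singleton.1 hc]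
        simpa using hb
    have h3 : 3 ≤ ((Finset.univ : Finset (Fin 3)).filter (fun j => f j p ∈ T ∪ Z)).card := by
      obtain ⟨a, b, hab, ha, hb⟩ := hT p hpT
      have hai : a ≠ i := by rintro rfl; exact hi ha
      have hbi : b ≠ i := by rintro rfl; exact hi hb
      have : ({a, b, i} : Finset (Fin 3)).card = 3 := Finset.card_eq_three.2
        ⟨a, b, i, hab, hai, hbi, rfl⟩
      refine this.symm.le.trans (Finset.card_le_card ?_)
      intro c hc
      simp only [Finset.mem_insert, Finset.mem_singleton] at hc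
      simp only [Finset.mem_filter, Finset.mem_univ, true_and, Finset.mem_union]
      rcases hc with rfl | rfl | rfl
      · exact Or.inl ha
      · exact Or.inl hb
      · exact Or.inr hqZ
    have hp : p ∈ T ∪ Z := Finset.mem_union_left _ hpT
    rw [← Finset.add_sum_erase _ _ hp]
    have h4 : ((T ∪ Z).erase p).card * 2 ≤ ∑ x ∈ (T ∪ Z).erase p,
        ((Finset.univ : Finset (Fin 3)).filter (fun i => f i x ∈ T ∪ Z)).card := by
      rw [← smul_eq_mul]
      exact Finset.card_nsmul_le_sum _ _ _ fun x hx => h2 x (Finset.mem_of_mem_erase hx)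
    rw [Finset.card_erase_of_mem hp] at h4
    have : 0 < (T ∪ Z).card := Finset.card_pos.2 ⟨p, hp⟩
    omega

end ChordMaps
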