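import Pool.Agent.Helper3.Chord.Basic

set_option autoImplicit false

namespace ChordMaps

lemma cm2_indep (u : Fin 3 → Plane) (hu : ∀ i j, i ≠ j → cross (u i) (u j) ≠ 0) (c : Fin 3 → ℝ)
    (h : ∀ w : Plane, ∑ i, c i * cross (u i) w = 0) (i j : Fin 3) (hi : c i ≠ 0) : c j ≠ 0 := by
  intro hj
  have h0 := h (u 0)
  have h1 := h (u 1)
  have h2 := h (u 2)
  rw [Fin.sum_univ_three] at h0 h1 h2
  rw [cross_self] at h0 h1 h2
  fin_cases i <;> fin_cases j <;> simp only [Fin.zero_eta, Fin.mk_one, Fin.reduceFinMk] at hi hj <;>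
    first
    | exact hi hj
    | (rw [hj] at h0; simp [hi, hu] at h0; done)
    | (rw [hj] at h1; simp [hi, hu] at h1; done)
    | (rw [hj] at h2; simp [hi, hu] at h2; done)

open Classical in
theorem cm2_aux (f : Fin 3 → Plane → Plane) (u : Fin 3 → Plane)
    (hu : ∀ i j, i ≠ j → cross (u i) (u j) ≠ 0) (T : Finset Plane)
    (hinv : ∀ i, ∀ x ∈ T, f i (f i x) = x) (hne : ∀ i j, i ≠ j → ∀ x ∈ T, f i x ≠ f j x)
    (hcard : 2 * T.card + 1 ≤ ((T ×ˢ (Finset.univ : Finset (Fin 3))).filter
        (fun p => f p.2 p.1 ∈ T)).card) :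
    ∃ (N : ℕ) (y : Fin N → Plane) (e : Finset (Fin N × Fin N × Fin 3)) (l : Finset (Fin N × Fin 3)),
      (∀ a, y a ∈ T) ∧ Function.Injective y ∧ Good u e l ∧
      (∀ p ∈ e, f p.2.2 (y p.1) = y p.2.1) ∧ ∀ p ∈ l, f p.2 (y p.1) = y p.1 := by
  induction T using Finset.strongInduction with
  | H T ih =>
  by_cases hmin : ∃ S, S ⊂ T ∧ 2 * S.card + 1 ≤ ((S ×ˢ (Finset.univ : Finset (Fin 3))).filter
        (fun p => f p.2 p.1 ∈ S)).card
  · obtain ⟨S, hST, hS⟩ := hmin
    obtain ⟨N, y, e, l, h1, h2⟩ := ih S hST (fun i x hx => hinv i x (hST.1 hx))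
      (fun i j hij x hx => hne i j hij x (hST.1 hx)) hS
    exact ⟨N, y, e, l, fun a => hST.1 (h1 a), h2⟩
  push Not at hmin
  -- enumeration
  set N := T.card with hN
  let y : Fin N → Plane := fun a => (T.equivFin.symm a : Plane)
  have hyT : ∀ a, y a ∈ T := fun a => (T.equivFin.symm a).2
  have hyi : Function.Injective y := fun a b h => T.equivFin.symm.injective (Subtype.ext h)
  have hys : ∀ x ∈ T, ∃ a, y a = x := fun x hx => ⟨T.equivFin ⟨x, hx⟩, by simp [y]⟩
  let E : Finset (Fin N × Fin N × Fin 3) :=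
    Finset.univ.filter (fun p => p.1 < p.2.1 ∧ f p.2.2 (y p.1) = y p.2.1)
  let l : Finset (Fin N × Fin 3) := Finset.univ.filter (fun p => f p.2 (y p.1) = y p.1)
  -- loops: at most one per vertex
  have hl1 : ∀ i κ κ', (i, κ) ∈ l → (i, κ') ∈ l → κ = κ' := by
    intro i κ κ' h h'
    simp only [l, Finset.mem_filter, Finset.mem_univ, true_and] at h h'
    by_contra hne'
    exact hne κ κ' hne' (y i) (hyT i) (h.trans h'.symm)
  have hlN : l.card ≤ N := by
    have : l.card ≤ (Finset.univ : Finset (Fin N)).card := by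
      apply Finset.card_le_card_of_injOn (fun p => p.1) (by intro x _; simp)
      rintro ⟨i, κ⟩ h ⟨i', κ'⟩ h' hii
      simp only at hii
      subst hii
      rw [hl1 i κ κ' h h']
    simpa using this
  -- the count
  have hcount : ((T ×ˢ (Finset.univ : Finset (Fin 3))).filter
        (fun p => f p.2 p.1 ∈ T)).card ≤ 2 * E.card + l.card := by
    have hsub : ((T ×ˢ (Finset.univ : Finset (Fin 3))).filter
        (fun p => f p.2 p.1 ∈ T)) ⊆ (E.image (fun p => (y p.1, p.2.2)) ∪
          E.image (fun p => (y p.2.1, p.2.2))) ∪ l.image (fun p => (y p.1, p.2)) := by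
      rintro ⟨x, κ⟩ hx
      simp only [Finset.mem_filter, Finset.mem_product, Finset.mem_univ, and_true] at hx
      obtain ⟨a, ha⟩ := hys x hx.1
      obtain ⟨b, hb⟩ := hys _ hx.2
      rcases lt_trichotomy a b with hab | hab | hab
      · refine Finset.mem_union_left _ (Finset.mem_union_left _ ?_)
        refine Finset.mem_image.2 ⟨(a, b, κ), ?_, ?_⟩
        · simp only [E, Finset.mem_filter, Finset.mem_univ, true_and]
          exact ⟨hab, by rw [ha, hb]⟩
        · simp [ha]
      · refine Finset.mem_union_right _ ?_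
        refine Finset.mem_image.2 ⟨(a, κ), ?_, ?_⟩
        · simp only [l, Finset.mem_filter, Finset.mem_univ, true_and]
          rw [ha, ← hb, ← hab, ha]
        · simp [ha]
      · refine Finset.mem_union_left _ (Finset.mem_union_right _ ?_)
        refine Finset.mem_image.2 ⟨(b, a, κ), ?_, ?_⟩
        · simp only [E, Finset.mem_filter, Finset.mem_univ, true_and]
          refine ⟨hab, ?_⟩
          rw [hb, hinv κ x hx.1, ha]
        · simp [ha]
    calc _ ≤ _ := Finset.card_le_card hsub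
      _ ≤ (E.image (fun p => (y p.1, p.2.2)) ∪
          E.image (fun p => (y p.2.1, p.2.2))).card + (l.image (fun p => (y p.1, p.2))).card :=
          Finset.card_union_le _ _
      _ ≤ ((E.image (fun p => (y p.1, p.2.2))).card +
          (E.image (fun p => (y p.2.1, p.2.2))).card) + l.card := by
          gcongr
          · exact Finset.card_union_le _ _
          · exact Finset.card_image_le
      _ ≤ (E.card + E.card) + l.card := by
          gcongr <;> exact Finset.card_image_le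
      _ = _ := by ring
  have hEl : N + 1 ≤ E.card + l.card := by omega
  obtain ⟨e, heE, hecard⟩ := Finset.exists_subset_card_eq (s := E) (n := N + 1 - l.card) (by omega)
  have he : ∀ p ∈ e, p.1 < p.2.1 ∧ f p.2.2 (y p.1) = y p.2.1 := by
    intro p hp
    have := heE hp
    simpa only [E, Finset.mem_filter, Finset.mem_univ, true_and] using this
  refine ⟨N, y, e, l, hyT, hyi, ⟨by omega, hl1, ?_⟩, fun p hp => (he p hp).2, ?_⟩
  swap
  · intro p hp
    simpa only [l, Finset.mem_filter, Finset.mem_univ, true_and] using hp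
  -- independence
  intro φ hφ
  by_contra hcon
  push Not at hcon
  obtain ⟨p₀, hp₀, hφ₀⟩ := hcon
  -- an edge with a given label at a vertex is unique
  have huniq : ∀ v : Fin N, ∀ p ∈ e, ∀ q ∈ e, p.2.2 = q.2.2 → (p.1 = v ∨ p.2.1 = v) →
      (q.1 = v ∨ q.2.1 = v) → p = q := by
    rintro v ⟨a, b, κ⟩ hp ⟨a', b', κ'⟩ hq hκ hpv hqv
    simp only at hκ hpv hqv
    subst hκ
    obtain ⟨hp1, hp2⟩ := he _ hp
    obtain ⟨hq1, hq2⟩ := he _ hq
    simp only at hp1 hp2 hq1 hq2
    rcases hpv with rfl | rfl <;> rcases hqv with rfl | rfl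
    · rw [hp2] at hq2
      rw [hyi hq2]
    · have : y a' = y b := by rw [← hp2, ← hq2, hinv κ _ (hyT _)]
      have := hyi this
      subst this
      exact absurd (hp1.trans hq1) (lt_irrefl _)
    · have : y a = y b' := by rw [← hq2, ← hp2, hinv κ _ (hyT _)]
      have := hyi this
      subst this
      exact absurd (hp1.trans hq1) (lt_irrefl _)
    · have : y a = y a' := by rw [← hinv κ _ (hyT a), hp2, ← hq2, hinv κ _ (hyT _)]
      rw [hyi this]
  -- the key: at a vertex of the support all three labels occur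
  have key : ∀ v : Fin N, (∃ p ∈ e, φ p ≠ 0 ∧ (p.1 = v ∨ p.2.1 = v)) → ∀ κ : Fin 3,
      ∃ q ∈ e, φ q ≠ 0 ∧ q.2.2 = κ ∧ (q.1 = v ∨ q.2.1 = v) := by
    rintro v ⟨p, hp, hφp, hpv⟩
    let s : Fin N × Fin N × Fin 3 → ℝ := fun q =>
      (if q.1 = v then 1 else 0) - (if q.2.1 = v then 1 else 0)
    let c : Fin 3 → ℝ := fun κ => ∑ q ∈ e.filter (fun q => q.2.2 = κ), φ q * s q
    have hc : ∀ w : Plane, ∑ κ, c κ * cross (u κ) w = 0 := by
      intro w
      have h1 := hφ (fun i => if i = v then w else 0)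
      rw [← h1, ← Finset.sum_fiberwise e (fun q => q.2.2)]
      refine Finset.sum_congr rfl fun κ _ => ?_
      rw [Finset.sum_mul]
      refine Finset.sum_congr rfl fun q hq => ?_
      rw [Finset.mem_filter] at hq
      rw [hq.2, cross_sub_right]
      simp only [s]
      have h0 : cross (u κ) 0 = 0 := by simp [cross]
      split_ifs <;> simp [h0]
    have hs0 : ∀ q, ¬ (q.1 = v ∨ q.2.1 = v) → s q = 0 := by
      intro q hq
      push Not at hq
      simp [s, hq.1, hq.2]
    have hs1 : ∀ q ∈ e, (q.1 = v ∨ q.2.1 = v) → s q ≠ 0 := by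
      intro q hq hqv
      have hlt := (he q hq).1
      rcases hqv with h | h
      · have : q.2.1 ≠ v := by rw [← h]; exact hlt.ne'
        simp [s, h, this]
      · have : q.1 ≠ v := by rw [← h]; exact hlt.ne
        simp [s, h, this]
    have hcp : c p.2.2 ≠ 0 := by
      have : c p.2.2 = φ p * s p := by
        refine Finset.sum_eq_single_of_mem p (by simp [hp]) ?_
        intro q hq hqp
        rw [Finset.mem_filter] at hq
        rw [hs0 q ?_, mul_zero]
        intro hqv
        exact hqp (huniq v q hq.1 p hp hq.2 hqv hpv)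
      rw [this]
      exact mul_ne_zero hφp (hs1 p hp hpv)
    intro κ
    have hcκ := cm2_indep u hu c hc p.2.2 κ hcp
    obtain ⟨q, hq, hq0⟩ := Finset.exists_ne_zero_of_sum_ne_zero hcκ
    rw [Finset.mem_filter] at hq
    refine ⟨q, hq.1, left_ne_zero_of_mul hq0, hq.2, ?_⟩
    by_contra hcon
    exact right_ne_zero_of_mul hq0 (hs0 q hcon)
  -- the support
  let V : Finset (Fin N) := Finset.univ.filter (fun v => ∃ p ∈ e, φ p ≠ 0 ∧ (p.1 = v ∨ p.2.1 = v))
  have hV : ∀ v, v ∈ V ↔ ∃ p ∈ e, φ p ≠ 0 ∧ (p.1 = v ∨ p.2.1 = v) := by simp [V]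
  have hnb : ∀ v ∈ V, ∀ κ, ∃ b ∈ V, b ≠ v ∧ y b = f κ (y v) := by
    intro v hv κ
    obtain ⟨q, hq, hφq, hqκ, hqv⟩ := key v ((hV v).1 hv) κ
    obtain ⟨hlt, hfq⟩ := he q hq
    rw [hqκ] at hfq
    rcases hqv with rfl | rfl
    · exact ⟨q.2.1, (hV _).2 ⟨q, hq, hφq, Or.inr rfl⟩, hlt.ne', hfq.symm⟩
    · refine ⟨q.1, (hV _).2 ⟨q, hq, hφq, Or.inl rfl⟩, hlt.ne, ?_⟩
      rw [← hfq, hinv κ _ (hyT _)]
  have hp₀V : p₀.1 ∈ V := (hV _).2 ⟨p₀, hp₀, hφ₀, Or.inl rfl⟩
  have hVT : V.image y = T := by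
    by_contra hne'
    have hss : V.image y ⊂ T := by
      refine Finset.ssubset_iff_subset_ne.2 ⟨?_, hne'⟩
      intro x hx
      obtain ⟨a, _, rfl⟩ := Finset.mem_image.1 hx
      exact hyT a
    have h1 := hmin _ hss
    have h2 : (((V.image y) ×ˢ (Finset.univ : Finset (Fin 3))).filter
        (fun p => f p.2 p.1 ∈ V.image y)) = (V.image y) ×ˢ (Finset.univ : Finset (Fin 3)) := by
      refine Finset.filter_true_of_mem ?_
      rintro ⟨x, κ⟩ hx
      rw [Finset.mem_product] at hx
      obtain ⟨a, ha, hax⟩ := Finset.mem_image.1 hx.1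
      simp only at hax
      obtain ⟨b, hb, _, hyb⟩ := hnb a ha κ
      rw [← hax]
      exact Finset.mem_image.2 ⟨b, hb, hyb⟩
    rw [h2, Finset.card_product] at h1
    have h3 : 0 < (V.image y).card := Finset.card_pos.2 ⟨_, Finset.mem_image_of_mem y hp₀V⟩
    simp at h1
    omega
  have hVu : ∀ v, v ∈ V := by
    intro v
    have : y v ∈ V.image y := by rw [hVT]; exact hyT v
    obtain ⟨a, ha, hav⟩ := Finset.mem_image.1 this
    rwa [← hyi hav]
  have h3N : N * 3 ≤ e.card + e.card := by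
    have h1 : (Finset.univ : Finset (Fin N × Fin 3)) ⊆
        e.image (fun p => (p.1, p.2.2)) ∪ e.image (fun p => (p.2.1, p.2.2)) := by
      rintro ⟨v, κ⟩ _
      obtain ⟨q, hq, -, hqκ, hqv⟩ := key v ((hV v).1 (hVu v)) κ
      rcases hqv with rfl | rfl
      · exact Finset.mem_union_left _ (Finset.mem_image.2 ⟨q, hq, by rw [hqκ]⟩)
      · exact Finset.mem_union_right _ (Finset.mem_image.2 ⟨q, hq, by rw [hqκ]⟩)
    have h2 := (Finset.card_le_card h1).trans (Finset.card_union_le _ _)
    have h4 : (e.image (fun p => (p.1, p.2.2))).card ≤ e.card := Finset.card_image_le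
    have h5 : (e.image (fun p => (p.2.1, p.2.2))).card ≤ e.card := Finset.card_image_le
    rw [Finset.card_univ, Fintype.card_prod, Fintype.card_fin, Fintype.card_fin] at h2
    omega
  have hN4 : 4 ≤ N := by
    choose b hbV hbv hyb using hnb p₀.1 hp₀V
    have hbi : Function.Injective b := by
      intro κ κ' h
      by_contra hκ
      apply hne κ κ' hκ (y p₀.1) (hyT _)
      rw [← hyb, ← hyb, h]
    have h1 : Finset.univ.image b ⊆ (Finset.univ : Finset (Fin N)).erase p₀.1 := by
      intro x hx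
      obtain ⟨κ, -, rfl⟩ := Finset.mem_image.1 hx
      exact Finset.mem_erase.2 ⟨hbv κ, Finset.mem_univ _⟩
    have h2 := Finset.card_le_card h1
    rw [Finset.card_image_of_injective _ hbi, Finset.card_erase_of_mem (Finset.mem_univ _)] at h2
    simp at h2
    omega
  omega

/-- distinct points of a finite family have mutual distances at least `1 / (n + 1)` -/
lemma cm2_minDist {N : ℕ} (y : Fin N → Plane) (hy : Function.Injective y) :
    ∃ n : ℕ, ∀ i j, i ≠ j → 1 / ((n : ℝ) + 1) ≤ dist (y i) (y j) := by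
  have h : ∀ i j, ∃ n : ℕ, i ≠ j → 1 / ((n : ℝ) + 1) ≤ dist (y i) (y j) := by
    intro i j
    by_cases hij : i = j
    · exact ⟨0, fun h => absurd hij h⟩
    · obtain ⟨n, hn⟩ := exists_nat_one_div_lt (dist_pos.2 (fun h => hij (hy h)) :
        0 < dist (y i) (y j))
      exact ⟨n, fun _ => hn.le⟩
  choose n hn using h
  refine ⟨∑ i, ∑ j, n i j, fun i j hij => le_trans ?_ (hn i j hij)⟩
  have h1 : n i j ≤ ∑ i, ∑ j, n i j :=
    (Finset.single_le_sum (f := fun j => n i j) (fun _ _ => Nat.zero_le _)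
      (Finset.mem_univ j)).trans
      (Finset.single_le_sum (f := fun i => ∑ j, n i j) (fun _ _ => Nat.zero_le _)
        (Finset.mem_univ i))
  have h2 : (n i j : ℝ) ≤ ((∑ i, ∑ j, n i j : ℕ) : ℝ) := by exact_mod_cast h1
  apply one_div_le_one_div_of_le (by positivity)
  linarith

/-- CM-2: extraction of a good configuration from a finite set of boundary points -/
theorem exists_good_config {K : Set Plane} (hcp : IsCompact K) (hs : StrictConvex ℝ K)
    (hsm : Smooth K) (u : Fin 3 → Plane) (hu : ∀ i j, i ≠ j → cross (u i) (u j) ≠ 0)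
    (T : Finset Plane) (hT : (T : Set Plane) ⊆ frontier K)
    (hcard : 2 * T.card + 1 ≤ ((T ×ˢ (Finset.univ : Finset (Fin 3))).filter
        (fun p => chord K (u p.2) p.1 ∈ T)).card) :
    ∃ (N : ℕ) (e : Finset (Fin N × Fin N × Fin 3)) (l : Finset (Fin N × Fin 3)) (n : ℕ),
      Good u e l ∧ Config u K e l n := by
  have hu0 : ∀ i, u i ≠ 0 := by
    intro i h
    obtain ⟨j, hj⟩ : ∃ j : Fin 3, i ≠ j := by
      fin_cases i
      · exact ⟨1, by decide⟩
      · exact ⟨0, by decide⟩
      · exact ⟨0, by decide⟩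
    apply hu i j hj
    rw [h]
    simp [cross]
  obtain ⟨N, y, e, l, hyT, hyi, hg, he, hl⟩ := cm2_aux (fun i => chord K (u i)) u hu T
    (fun i x hx => chord_chord hcp.isClosed hs (hT hx))
    (fun i j hij x hx => chord_ne_chord hcp hs hsm (hu i j hij) (hT hx)) (by convert hcard)
  obtain ⟨n, hn⟩ := cm2_minDist y hyi
  refine ⟨N, e, l, n, hg, y, fun i => hT (hyT i), hn, ?_, ?_⟩
  · intro p hp
    have h1 : chord K (u p.2.2) (y p.1) = y p.2.1 := he p hp
    rw [cross_sub_right, ← h1, cross_chord, sub_self]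
  · intro p hp
    exact support_of_chord_eq hcp hs (hu0 p.2) (hT (hyT p.1)) (hl p hp)

end ChordMaps
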