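import Pool.Agent.Helper3.Chord.Limits

set_option autoImplicit false

/-!
# CM-3: bodies admitting a configuration form a closed set
-/

namespace ChordMaps

open Topology Metric Filter

theorem isClosed_config (u : Fin 3 → Plane) {N : ℕ} (e : Finset (Fin N × Fin N × Fin 3))
    (l : Finset (Fin N × Fin 3)) (n : ℕ) :
    IsClosed {K : Body | Config u K.carrier e l n} := by
  apply IsSeqClosed.isClosed
  intro K K0 hK hlim
  have hlim1 : ∀ᶠ m in atTop, dist (K m) K0 < 1 := (Metric.tendsto_nhds.1 hlim) _ one_pos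
  obtain ⟨m0, hm0⟩ := eventually_atTop.1 hlim1
  choose y hyf hyd hye hyl using hK
  set C : Set Plane := cthickening 1 K0.carrier with hC
  have hCc : IsCompact C := (cm3_isCompact K0).cthickening
  have hCpi : IsCompact (Set.univ.pi (fun _ : Fin N => C)) := isCompact_univ_pi (fun _ => hCc)
  obtain ⟨y0, -, φ, hφ, hyφ⟩ := hCpi.tendsto_subseq (x := fun m => y (m + m0)) (by
    intro m i _
    exact cm3_mem_cthickening (hm0 _ (by omega))
      ((cm3_isCompact _).isClosed.frontier_subset (hyf (m + m0) i)))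
  set ψ : ℕ → ℕ := fun m => φ m + m0 with hψ
  have hψt : Tendsto ψ atTop atTop :=
    (tendsto_add_atTop_nat m0).comp hφ.tendsto_atTop
  have hKψ : Tendsto (fun m => K (ψ m)) atTop (𝓝 K0) := hlim.comp hψt
  have hyψ : Tendsto (fun m => y (ψ m)) atTop (𝓝 y0) := hyφ
  have hyi : ∀ i, Tendsto (fun m => y (ψ m) i) atTop (𝓝 (y0 i)) := fun i =>
    (tendsto_pi_nhds.1 hyψ) i
  refine ⟨y0, fun i => ?_, fun i j hij => ?_, fun p hp => ?_, fun p hp => ?_⟩
  · exact cm3_frontier_of_tendsto hKψ (hyi i) (fun m => hyf (ψ m) i)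
  · exact ge_of_tendsto ((hyi i).dist (hyi j))
      (Eventually.of_forall fun m => hyd (ψ m) i j hij)
  · have h1 : Tendsto (fun m => cross (u p.2.2) (y (ψ m) p.1 - y (ψ m) p.2.1)) atTop
        (𝓝 (cross (u p.2.2) (y0 p.1 - y0 p.2.1))) := by
      have h2 := continuous_cross.tendsto (u p.2.2, y0 p.1 - y0 p.2.1)
      exact h2.comp (tendsto_const_nhds.prodMk_nhds ((hyi p.1).sub (hyi p.2.1)))
    refine tendsto_nhds_unique h1 ?_
    simp only [hye (ψ _) p hp]
    exact tendsto_const_nhds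
  · by_contra hcon
    push Not at hcon
    obtain ⟨⟨z1, hz1, h1⟩, z2, hz2, h2⟩ := hcon
    have hc : Continuous (fun z : Plane => cross (u p.2) z) := by
      unfold cross; fun_prop
    obtain ⟨c1, hc1, hc1'⟩ := exists_between h1
    obtain ⟨c2, hc2, hc2'⟩ := exists_between h2
    have hyc : Tendsto (fun m => cross (u p.2) (y (ψ m) p.1)) atTop
        (𝓝 (cross (u p.2) (y0 p.1))) := (hc.tendsto _).comp (hyi p.1)
    have e1 : ∀ᶠ m in atTop, cross (u p.2) (y (ψ m) p.1) < c1 := hyc.eventually_lt_const hc1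
    have e2 : ∀ᶠ m in atTop, c2 < cross (u p.2) (y (ψ m) p.1) :=
      hyc.eventually_const_lt hc2'
    have e3 : ∀ᶠ m in atTop, ∃ w ∈ (K (ψ m)).carrier, w ∈ {w | c1 < cross (u p.2) w} :=
      cm3_eventually_exists hKψ hz1 ((hc.tendsto z1).eventually_const_lt hc1')
    have e4 : ∀ᶠ m in atTop, ∃ w ∈ (K (ψ m)).carrier, w ∈ {w | cross (u p.2) w < c2} :=
      cm3_eventually_exists hKψ hz2 ((hc.tendsto z2).eventually_lt_const hc2)
    obtain ⟨m, ⟨⟨h3, h4⟩, ⟨w1, hw1, hw1'⟩⟩, w2, hw2, hw2'⟩ := (((e1.and e2).and e3).and e4).exists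
    change c1 < cross (u p.2) w1 at hw1'
    change cross (u p.2) w2 < c2 at hw2'
    rcases hyl (ψ m) p hp with h5 | h5
    · have := h5 w1 hw1
      linarith
    · have := h5 w2 hw2
      linarith

end ChordMaps
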