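import Pool.Agent.Helper3.Chord.Defs

set_option autoImplicit false

/-!
# CM-4: the ball hull

Every planar convex body is, up to `ε`, contained in and close to a convex body `L` with an
explicit modulus of strict convexity: the intersection of all closed balls of a large radius
`R` containing it.
-/

namespace ChordMaps

/-- the nearest point of a compact convex set -/
lemma cm4_nearest {K : Set Plane} (hcp : IsCompact K) (hne : K.Nonempty) (hK : Convex ℝ K)
    (x : Plane) :
    ∃ p ∈ K, Metric.infDist x K = dist x p ∧ ∀ z ∈ K, inner ℝ (x - p) (z - p) ≤ 0 := by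
  obtain ⟨p, hp, h⟩ := exists_norm_eq_iInf_of_complete_convex hne hcp.isComplete hK x
  refine ⟨p, hp, ?_, (norm_eq_iInf_iff_real_inner_le_zero hK hp).1 h⟩
  rw [Metric.infDist_eq_iInf, dist_eq_norm, h]
  simp only [dist_eq_norm]

lemma cm4_modulus {R : ℝ} (hR : 0 < R) {c x y : Plane} (hx : dist x c ≤ R) (hy : dist y c ≤ R) :
    Metric.closedBall (midpoint ℝ x y) (dist x y ^ 2 / (8 * R)) ⊆ Metric.closedBall c R := by
  set ρ := dist x y ^ 2 / (8 * R) with hρ
  have hxy : dist x y ≤ 2 * R := by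
    have := dist_triangle_right x y c
    linarith
  have h8 : 8 * R * ρ = dist x y ^ 2 := by
    rw [hρ]; field_simp
  have hρ0 : 0 ≤ ρ := by positivity
  have hρR : ρ ≤ R := by
    have h1 : dist x y ^ 2 ≤ (2 * R) ^ 2 := pow_le_pow_left₀ dist_nonneg hxy 2
    rw [hρ, div_le_iff₀ (by positivity)]
    nlinarith
  have hm : dist (midpoint ℝ x y) c ≤ R - ρ := by
    have h1 : midpoint ℝ x y - c = (1 / 2 : ℝ) • ((x - c) + (y - c)) := by
      rw [midpoint_eq_smul_add, invOf_eq_inv]
      module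
    have h2 : ‖(x - c) + (y - c)‖ ^ 2 + ‖(x - c) - (y - c)‖ ^ 2 =
        2 * (‖x - c‖ ^ 2 + ‖y - c‖ ^ 2) := by
      have := parallelogram_law_with_norm ℝ (x - c) (y - c)
      simp only [sq]
      linarith
    have h3 : (x - c) - (y - c) = x - y := by abel
    rw [h3] at h2
    have h4 : dist (midpoint ℝ x y) c ^ 2 = (1 / 4) * ‖(x - c) + (y - c)‖ ^ 2 := by
      rw [dist_eq_norm, h1, norm_smul, mul_pow]
      norm_num
    have h5 : dist (midpoint ℝ x y) c ^ 2 ≤ (R - ρ) ^ 2 := by
      rw [h4]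
      rw [dist_eq_norm] at hx hy h8
      have hx2 : ‖x - c‖ ^ 2 ≤ R ^ 2 := pow_le_pow_left₀ (norm_nonneg _) hx 2
      have hy2 : ‖y - c‖ ^ 2 ≤ R ^ 2 := pow_le_pow_left₀ (norm_nonneg _) hy 2
      nlinarith [sq_nonneg ρ]
    exact abs_le_of_sq_le_sq' h5 (by linarith) |>.2
  exact Metric.closedBall_subset_closedBall' (by linarith)

theorem exists_ballHull {K : Set Plane} (hcp : IsCompact K) (hne : K.Nonempty)
    (hK : Convex ℝ K) {ε : ℝ} (hε : 0 < ε) :
    ∃ (R : ℝ) (L : Set Plane), 0 < R ∧ IsCompact L ∧ Convex ℝ L ∧ K ⊆ L ∧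
      L ⊆ Metric.cthickening ε K ∧
      ∀ x ∈ L, ∀ y ∈ L, Metric.closedBall (midpoint ℝ x y) (dist x y ^ 2 / (8 * R)) ⊆ L := by
  obtain ⟨D, hD⟩ : ∃ D : ℝ, ∀ x ∈ K, ∀ y ∈ K, dist x y ≤ D :=
    ⟨Metric.diam K, fun x hx y hy => Metric.dist_le_diam_of_mem hcp.isBounded hx hy⟩
  have hD0 : 0 ≤ D := by
    obtain ⟨x, hx⟩ := hne
    exact dist_nonneg.trans (hD x hx x hx)
  set R : ℝ := (D ^ 2 + ε ^ 2) / ε with hRdef
  have hRε : R * ε = D ^ 2 + ε ^ 2 := by rw [hRdef]; field_simp
  have hR : 0 < R := by rw [hRdef]; positivity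
  have hRge : ε ≤ R := by
    rw [hRdef, le_div_iff₀ hε]
    nlinarith [sq_nonneg D]
  set L : Set Plane := ⋂ c ∈ {c : Plane | K ⊆ Metric.closedBall c R}, Metric.closedBall c R
    with hL
  have hmem : ∀ x, x ∈ L ↔ ∀ c, K ⊆ Metric.closedBall c R → dist x c ≤ R := by
    intro x
    simp [hL]
  have hLc : IsClosed L := isClosed_biInter fun c _ => Metric.isClosed_closedBall
  have hLK : L ⊆ Metric.cthickening ε K := by
    intro x hx
    by_contra hx'
    have hxd : ε < Metric.infDist x K := by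
      by_contra h
      push Not at h
      apply hx'
      rw [hcp.cthickening_eq_biUnion_closedBall hε.le]
      obtain ⟨p, hp, h1⟩ := hcp.exists_infDist_eq_dist hne x
      simp only [Set.mem_iUnion, Metric.mem_closedBall]
      exact ⟨p, hp, h1 ▸ h⟩
    obtain ⟨p, hp, hpd, hin⟩ := cm4_nearest hcp hne hK x
    set d := dist x p with hd
    rw [hpd] at hxd
    have hd0 : 0 < d := hε.trans hxd
    have hnorm : ‖x - p‖ = d := by rw [hd, dist_eq_norm]
    set c : Plane := p - ((R - ε) / d) • (x - p) with hc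
    have hKc : K ⊆ Metric.closedBall c R := by
      intro z hz
      rw [Metric.mem_closedBall, dist_eq_norm]
      have h1 : z - c = (z - p) + ((R - ε) / d) • (x - p) := by rw [hc]; abel
      have h2 : ‖z - c‖ ^ 2 = ‖z - p‖ ^ 2 + 2 * (((R - ε) / d) * inner ℝ (z - p) (x - p)) +
          (R - ε) ^ 2 := by
        rw [h1, norm_add_sq_real, inner_smul_right, norm_smul, mul_pow, hnorm, Real.norm_eq_abs,
          sq_abs, div_pow, div_mul_cancel₀ _ (by positivity)]
      have h3 : inner ℝ (z - p) (x - p) ≤ 0 := by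
        rw [real_inner_comm]
        exact hin z hz
      have h4 : (R - ε) / d * inner ℝ (z - p) (x - p) ≤ 0 :=
        mul_nonpos_of_nonneg_of_nonpos (div_nonneg (by linarith) hd0.le) h3
      have h5 : ‖z - p‖ ^ 2 ≤ D ^ 2 := by
        rw [← dist_eq_norm]
        exact pow_le_pow_left₀ dist_nonneg (hD z hz p hp) 2
      have h6 : ‖z - c‖ ^ 2 ≤ R ^ 2 := by
        rw [h2]
        nlinarith [sq_nonneg D]
      exact (abs_le_of_sq_le_sq' h6 hR.le).2
    have h7 := (hmem x).1 hx c hKc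
    have h8 : x - c = (1 + (R - ε) / d) • (x - p) := by rw [hc]; module
    rw [dist_eq_norm, h8, norm_smul, hnorm, Real.norm_eq_abs,
      abs_of_nonneg (by have := div_nonneg (sub_nonneg.2 hRge) hd0.le; linarith), add_mul, one_mul,
      div_mul_cancel₀ _ hd0.ne'] at h7
    linarith
  refine ⟨R, L, hR, ?_, ?_, ?_, hLK, ?_⟩
  · exact (hcp.cthickening).of_isClosed_subset hLc hLK
  · exact convex_iInter₂ fun c _ => convex_closedBall c R
  · intro x hx
    exact (hmem x).2 fun c hc => hc hx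
  · intro x hx y hy z hz
    rw [hmem] at hx hy ⊢
    exact fun c hc => cm4_modulus hR (hx c hc) (hy c hc) hz

end ChordMaps
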