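import Pool.Agent.Helper3.Chord.CM4

set_option autoImplicit false

/-!
# CM-5: finitely many half-planes

A compact convex set `L` is the intersection, up to `ε`, of finitely many half-planes
`⟪ν k, x⟫ ≤ c k`, for all `c k` in an interval `(α k, β k)`, whose normals are not orthogonal to
the given directions.
-/

namespace ChordMaps

open Topology

lemma cm5_dense {u : Plane} (hu : u ≠ 0) :
    Dense {ν : Plane | (inner ℝ ν u : ℝ) ≠ 0} := by
  have hne : (innerSL ℝ u : Plane →L[ℝ] ℝ) ≠ 0 := by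
    intro h
    have h1 : (innerSL ℝ u : Plane →L[ℝ] ℝ) u = 0 := by rw [h]; rfl
    rw [innerSL_apply_apply, real_inner_self_eq_norm_sq] at h1
    exact hu (by simpa using h1)
  have h2 := (dense_compl_singleton (0 : ℝ)).preimage
    (ContinuousLinearMap.isOpenMap_of_ne_zero (innerSL ℝ u : Plane →L[ℝ] ℝ) hne)
  refine h2.mono ?_
  intro ν hν
  simp only [Set.mem_preimage, innerSL_apply_apply, Set.mem_compl_iff,
    Set.mem_singleton_iff] at hν
  simpa only [Set.mem_ofPred_eq, real_inner_comm] using hν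

/-- separation of a point from a compact convex set by a functional in general position -/
lemma cm5_separate {L : Set Plane} (hcp : IsCompact L) (hne : L.Nonempty)
    (hL : Convex ℝ L) (u : Fin 3 → Plane) (hu : ∀ i, u i ≠ 0) {z : Plane} (hz : z ∉ L) :
    ∃ (ν : Plane) (α β : ℝ), (∀ i, (inner ℝ ν (u i) : ℝ) ≠ 0) ∧ α < β ∧
      (∀ x ∈ L, (inner ℝ ν x : ℝ) ≤ α) ∧ β < inner ℝ ν z := by
  obtain ⟨p, hp, -, hin⟩ := cm4_nearest hcp hne hL z
  have hzp : z - p ≠ 0 := by
    intro h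
    exact hz (by rwa [sub_eq_zero.1 h])
  have h0 : ∀ x ∈ L, (inner ℝ (z - p) (x - z) : ℝ) < 0 := by
    intro x hx
    have h1 : x - z = (x - p) - (z - p) := by abel
    rw [h1, inner_sub_right, real_inner_self_eq_norm_sq]
    have h2 := hin x hx
    have h3 : 0 < ‖z - p‖ ^ 2 := by positivity
    linarith
  have hev : ∀ᶠ ν : Plane in 𝓝 (z - p), ∀ x ∈ L, (inner ℝ ν (x - z) : ℝ) < 0 := by
    refine hcp.eventually_forall_of_forall_eventually fun x hx => ?_
    have hc : Continuous fun q : Plane × Plane => (inner ℝ q.1 (q.2 - z) : ℝ) := by fun_prop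
    exact hc.continuousAt.eventually_lt_const (h0 x hx)
  have hd : Dense (⋂ i, {ν : Plane | (inner ℝ ν (u i) : ℝ) ≠ 0}) :=
    dense_iInter_of_isOpen (fun i => isOpen_ne_fun (by fun_prop) (by fun_prop))
      fun i => cm5_dense (hu i)
  obtain ⟨ν, hν2, hν1⟩ := mem_closure_iff_nhds.1 (hd (z - p)) _ hev
  obtain ⟨x1, hx1, hmax⟩ := hcp.exists_isMaxOn hne
    (f := fun x => (inner ℝ ν x : ℝ)) (by fun_prop)
  have h1 := hν1
  simp only [Set.mem_iInter, Set.mem_ofPred_eq] at h1
  have h2 : (inner ℝ ν x1 : ℝ) < inner ℝ ν z := by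
    have := hν2 x1 hx1
    rw [inner_sub_right] at this
    linarith
  refine ⟨ν, inner ℝ ν x1, (inner ℝ ν x1 + inner ℝ ν z) / 2, h1, by linarith,
    fun x hx => hmax hx, by linarith⟩

theorem exists_halfplanes {L : Set Plane} (hcp : IsCompact L) (hne : L.Nonempty)
    (hL : Convex ℝ L) (u : Fin 3 → Plane) (hu : ∀ i, u i ≠ 0) {ε : ℝ} (hε : 0 < ε) :
    ∃ (M : ℕ) (ν : Fin M → Plane) (α β : Fin M → ℝ),
      (∀ k i, inner ℝ (ν k) (u i) ≠ 0) ∧ (∀ k, α k < β k) ∧
      (∀ k, ∀ x ∈ L, inner ℝ (ν k) x ≤ α k) ∧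
      ∀ z : Plane, (∀ k, inner ℝ (ν k) z ≤ β k) → z ∈ Metric.cthickening ε L := by
  classical
  set S : Set Plane := {z | Metric.infDist z L = ε} with hS
  have hcont : Continuous fun z : Plane => Metric.infDist z L := Metric.continuous_infDist_pt L
  have hmemc : ∀ z : Plane, z ∈ Metric.cthickening ε L ↔ Metric.infDist z L ≤ ε := by
    intro z
    rw [Metric.mem_cthickening_iff, ENNReal.le_ofReal_iff_toReal_le
      (Metric.infEDist_ne_top hne) hε.le]
    rfl
  have hScp : IsCompact S := by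
    refine (hcp.cthickening (r := ε)).of_isClosed_subset
      (isClosed_eq hcont continuous_const) ?_
    intro z hz
    exact (hmemc z).2 (le_of_eq hz)
  have hSL : ∀ z ∈ S, z ∉ L := by
    intro z hz hzL
    have h1 : Metric.infDist z L = ε := hz
    rw [Metric.infDist_zero_of_mem hzL] at h1
    exact hε.ne h1
  have hsep : ∀ z : Plane, ∃ (ν : Plane) (α β : ℝ), z ∈ S →
      (∀ i, (inner ℝ ν (u i) : ℝ) ≠ 0) ∧ α < β ∧
      (∀ x ∈ L, (inner ℝ ν x : ℝ) ≤ α) ∧ β < inner ℝ ν z := by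
    intro z
    by_cases hz : z ∈ S
    · obtain ⟨ν, α, β, h⟩ := cm5_separate hcp hne hL u hu (hSL z hz)
      exact ⟨ν, α, β, fun _ => h⟩
    · exact ⟨0, 0, 0, fun h => absurd h hz⟩
  choose ν α β h using hsep
  obtain ⟨t, htS, ht⟩ := hScp.elim_nhds_subcover (fun z => {w | β z < inner ℝ (ν z) w})
    fun z hz => (isOpen_lt continuous_const (by fun_prop)).mem_nhds (h z hz).2.2.2
  set M := t.card with hM
  set φ := t.equivFin with hφ
  refine ⟨M, fun k => ν (φ.symm k), fun k => α (φ.symm k), fun k => β (φ.symm k),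
    fun k i => (h _ (htS _ (φ.symm k).2)).1 i, fun k => (h _ (htS _ (φ.symm k).2)).2.1,
    fun k x hx => (h _ (htS _ (φ.symm k).2)).2.2.1 x hx, ?_⟩
  intro z hz
  rw [hmemc]
  by_contra hzε
  push Not at hzε
  obtain ⟨x, hx⟩ := hne
  set g : ℝ → ℝ := fun s => Metric.infDist (x + s • (z - x)) L with hg
  have hgc : Continuous g := hcont.comp (by fun_prop)
  have hg0 : g 0 = 0 := by simp [hg, Metric.infDist_zero_of_mem hx]
  have hg1 : g 1 = Metric.infDist z L := by simp [hg]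
  obtain ⟨s, hs, hgs⟩ := intermediate_value_Icc (zero_le_one : (0 : ℝ) ≤ 1) hgc.continuousOn
    (show ε ∈ Set.Icc (g 0) (g 1) from ⟨by rw [hg0]; exact hε.le, by rw [hg1]; exact hzε.le⟩)
  have hwS : x + s • (z - x) ∈ S := hgs
  obtain ⟨a, ha, hw⟩ := Set.mem_iUnion₂.1 (ht hwS)
  have h1 := hz (φ ⟨a, ha⟩)
  simp only [Equiv.symm_apply_apply] at h1
  have h2 := (h a (htS a ha)).2.2.1 x hx
  have h3 := (h a (htS a ha)).2.1
  simp only [Set.mem_ofPred_eq, inner_add_right, inner_smul_right, inner_sub_right] at hw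
  nlinarith [hs.1, hs.2]

end ChordMaps
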