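import Pool.Agent.Helper3.Chord.Defs

set_option autoImplicit false

namespace ChordMaps

/-- the complement of a hyperplane is dense -/
lemma cm6_dense {M : ℕ} (r : Fin M → ℝ) (hr : r ≠ 0) :
    Dense {c : Fin M → ℝ | ∑ k, r k * c k ≠ 0} := by
  have hrr : 0 < ∑ k, r k * r k := by
    obtain ⟨k, hk⟩ := Function.ne_iff.1 hr
    exact Finset.sum_pos' (fun i _ => mul_self_nonneg _) ⟨k, Finset.mem_univ _,
      mul_self_pos.2 hk⟩
  rw [Metric.dense_iff]
  intro c ε hε
  by_cases hc : ∑ k, r k * c k = 0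
  · -- move a little in direction `r`
    have hcont : Filter.Tendsto (fun t : ℝ => c + t • r) (nhds 0) (nhds (c + (0 : ℝ) • r)) :=
      (Continuous.tendsto (by fun_prop) 0)
    rw [zero_smul, add_zero] at hcont
    have h1 := hcont.eventually (Metric.ball_mem_nhds c hε)
    obtain ⟨δ, hδ, hball⟩ := Metric.eventually_nhds_iff_ball.1 h1
    refine ⟨c + (δ / 2) • r, hball (δ / 2) ?_, ?_⟩
    · rw [Metric.mem_ball, Real.dist_eq, sub_zero, abs_of_pos] <;> linarith
    · simp only [Set.mem_ofPred_eq, Pi.add_apply, Pi.smul_apply, smul_eq_mul]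
      have : ∑ k, r k * (c k + δ / 2 * r k) = ∑ k, r k * c k + δ / 2 * ∑ k, r k * r k := by
        rw [Finset.mul_sum, ← Finset.sum_add_distrib]
        exact Finset.sum_congr rfl fun k _ => by ring
      rw [this, hc, zero_add]
      positivity
  · exact ⟨c, Metric.mem_ball_self hε, hc⟩

/-- CM-6: a box contains a point outside of finitely many hyperplanes -/
theorem exists_avoid {ι : Type*} [Finite ι] {M : ℕ} (r : ι → Fin M → ℝ) (hr : ∀ a, r a ≠ 0)
    (α β : Fin M → ℝ) (hαβ : ∀ k, α k < β k) :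
    ∃ c : Fin M → ℝ, (∀ k, α k < c k ∧ c k < β k) ∧ ∀ a, ∑ k, r a k * c k ≠ 0 := by
  have hopen : ∀ a, IsOpen {c : Fin M → ℝ | ∑ k, r a k * c k ≠ 0} := fun a =>
    isOpen_ne_fun (by fun_prop) continuous_const
  have hdense : Dense (⋂ a, {c : Fin M → ℝ | ∑ k, r a k * c k ≠ 0}) := by
    refine dense_iInter_of_isOpen hopen fun a => cm6_dense _ (hr a)
  have hbox : IsOpen (Set.pi Set.univ (fun k => Set.Ioo (α k) (β k))) :=
    isOpen_set_pi Set.finite_univ fun k _ => isOpen_Ioo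
  have hne : (Set.pi Set.univ (fun k => Set.Ioo (α k) (β k))).Nonempty :=
    ⟨fun k => (α k + β k) / 2, fun k _ => ⟨by linarith [hαβ k], by linarith [hαβ k]⟩⟩
  obtain ⟨c, hc, hc'⟩ := hdense.inter_open_nonempty _ hbox hne
  exact ⟨c, fun k => hc k (Set.mem_univ _), fun a => Set.mem_iInter.1 hc' a⟩

end ChordMaps
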