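import Pool.Agent.Helper3.Chord.Defs
import Pool.Agent.Helper3.Chord.CM4
import Pool.Agent.Helper3.Chord.CM5
import Pool.Agent.Helper3.Chord.CM6

set_option autoImplicit false

namespace ChordMaps

open Topology

/-- linear algebra: a generic right-hand side excludes the configuration -/
lemma cm7_relation (u : Fin 3 → Plane) {N : ℕ} (e : Finset (Fin N × Fin N × Fin 3))
    (l : Finset (Fin N × Fin 3)) (hg : Good u e l) {M : ℕ} (ν : Fin M → Plane)
    (k : Fin N → Fin M) (k' : Fin N × Fin 3 → Fin M)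
    (h1 : ∀ i j, k i = k j → i = j) (h2 : ∀ p ∈ l, ∀ i, k' p ≠ k i)
    (h3 : ∀ p ∈ l, ∀ q ∈ l, k' p = k' q → p = q) :
    ∃ r : Fin M → ℝ, r ≠ 0 ∧ ∀ (y : Fin N → Plane) (c : Fin M → ℝ),
      (∀ i, inner ℝ (ν (k i)) (y i) = c (k i)) →
      (∀ p ∈ l, inner ℝ (ν (k' p)) (y p.1) = c (k' p)) →
      (∀ p ∈ e, cross (u p.2.2) (y p.1 - y p.2.1) = 0) → ∑ j, r j * c j = 0 := by
  classical
  -- the functionals
  let crossL : Plane → (Plane →ₗ[ℝ] ℝ) := fun a =>
    { toFun := fun x => cross a x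
      map_add' := fun x y => cross_add_right a x y
      map_smul' := fun t x => by simp [cross_smul_right] }
  let innL : Plane → (Plane →ₗ[ℝ] ℝ) := fun a => (innerSL ℝ a).toLinearMap
  let P : Fin N → ((Fin N → Plane) →ₗ[ℝ] Plane) := fun i => LinearMap.proj i
  let F : (Fin N ⊕ (l ⊕ e)) → ((Fin N → Plane) →ₗ[ℝ] ℝ) := fun s =>
    match s with
    | Sum.inl i => (innL (ν (k i))).comp (P i)
    | Sum.inr (Sum.inl p) => (innL (ν (k' p.1))).comp (P p.1.1)
    | Sum.inr (Sum.inr p) => (crossL (u p.1.2.2)).comp (P p.1.1 - P p.1.2.1)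
  have hcard : Module.finrank ℝ ((Fin N → Plane) →ₗ[ℝ] ℝ) < Fintype.card (Fin N ⊕ (l ⊕ e)) := by
    have h := hg.1
    have e1 : Module.finrank ℝ ((Fin N → Plane) →ₗ[ℝ] ℝ) = 2 * N := by
      rw [Module.finrank_linearMap_self]
      simp [Module.finrank_pi_fintype]
      ring
    rw [e1]
    simp only [Fintype.card_sum, Fintype.card_fin, Fintype.card_coe]
    omega
  have hnl : ¬ LinearIndependent ℝ F := fun hli => by
    have := hli.fintype_card_le_finrank
    omega
  obtain ⟨g, hg0, hgne⟩ := Fintype.not_linearIndependent_iff.mp hnl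
  have hrel : ∀ y : Fin N → Plane,
      (∑ i, g (Sum.inl i) * inner ℝ (ν (k i)) (y i)) +
      ((∑ p : l, g (Sum.inr (Sum.inl p)) * inner ℝ (ν (k' p.1)) (y p.1.1)) +
      (∑ p : e, g (Sum.inr (Sum.inr p)) * cross (u p.1.2.2) (y p.1.1 - y p.1.2.1))) = 0 := by
    intro y
    have := LinearMap.congr_fun hg0 y
    simp only [Fintype.sum_sum_type, LinearMap.smul_apply,
      LinearMap.zero_apply, smul_eq_mul, LinearMap.add_apply, LinearMap.sum_apply] at this
    simpa [F, P, innL, crossL] using this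
  let ρ' : Fin N × Fin 3 → ℝ := fun p => if hp : p ∈ l then g (Sum.inr (Sum.inl ⟨p, hp⟩)) else 0
  let φ : Fin N × Fin N × Fin 3 → ℝ :=
    fun p => if hp : p ∈ e then g (Sum.inr (Sum.inr ⟨p, hp⟩)) else 0
  have hrel' : ∀ y : Fin N → Plane,
      (∑ i, g (Sum.inl i) * inner ℝ (ν (k i)) (y i)) +
      ((∑ p ∈ l, ρ' p * inner ℝ (ν (k' p)) (y p.1)) +
      (∑ p ∈ e, φ p * cross (u p.2.2) (y p.1 - y p.2.1))) = 0 := by
    intro y
    rw [← hrel y]
    congr 1
    congr 1
    · rw [← Finset.sum_coe_sort l]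
      refine Finset.sum_congr rfl fun p _ => ?_
      simp [ρ']
    · rw [← Finset.sum_coe_sort e]
      refine Finset.sum_congr rfl fun p _ => ?_
      simp [φ]
  refine ⟨fun j => (∑ i, if k i = j then g (Sum.inl i) else 0) +
    ∑ p ∈ l, if k' p = j then ρ' p else 0, ?_, ?_⟩
  · intro hr
    have hρ : ∀ i, g (Sum.inl i) = 0 := by
      intro i
      have := congrFun hr (k i)
      simp only [Pi.zero_apply] at this
      rw [Finset.sum_eq_single i, Finset.sum_eq_zero] at this
      · simpa using this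
      · intro p hp
        simp [h2 p hp i]
      · intro j _ hj
        rw [if_neg]
        exact fun h => hj (h1 _ _ h)
      · intro h
        exact absurd (Finset.mem_univ _) h
    have hρ' : ∀ p ∈ l, ρ' p = 0 := by
      intro p hp
      have := congrFun hr (k' p)
      simp only [Pi.zero_apply] at this
      rw [Finset.sum_eq_zero, Finset.sum_eq_single p] at this
      · simpa using this
      · intro q hq hqp
        rw [if_neg]
        exact fun h => hqp (h3 _ hq _ hp h)
      · intro h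
        exact absurd hp h
      · intro i _
        rw [if_neg]
        exact fun h => h2 p hp i h.symm
    have hφ : ∀ p ∈ e, φ p = 0 := by
      apply hg.2.2 φ
      intro y
      have := hrel' y
      rw [Finset.sum_eq_zero (fun i _ => by rw [hρ i]; ring),
        Finset.sum_eq_zero (fun p hp => by rw [hρ' p hp]; ring)] at this
      linarith
    obtain ⟨s, hs⟩ := hgne
    apply hs
    rcases s with i | p | p
    · exact hρ i
    · have := hρ' p.1 p.2
      simpa [ρ'] using this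
    · have := hφ p.1 p.2
      simpa [φ] using this
  · intro y c hy1 hy2 hy3
    have := hrel' y
    have e0 : ∑ p ∈ e, φ p * cross (u p.2.2) (y p.1 - y p.2.1) = 0 :=
      Finset.sum_eq_zero (fun p hp => by rw [hy3 p hp]; ring)
    rw [e0] at this
    have e1 : ∑ j, (∑ i, if k i = j then g (Sum.inl i) else 0) * c j =
        ∑ i, g (Sum.inl i) * inner ℝ (ν (k i)) (y i) := by
      simp only [Finset.sum_mul]
      rw [Finset.sum_comm]
      refine Finset.sum_congr rfl fun i _ => ?_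
      rw [Finset.sum_eq_single (k i)]
      · simp [hy1 i]
      · intro j _ hj
        rw [if_neg (Ne.symm hj)]
        ring
      · intro h
        exact absurd (Finset.mem_univ _) h
    have e2 : ∑ j, (∑ p ∈ l, if k' p = j then ρ' p else 0) * c j =
        ∑ p ∈ l, ρ' p * inner ℝ (ν (k' p)) (y p.1) := by
      simp only [Finset.sum_mul]
      rw [Finset.sum_comm]
      refine Finset.sum_congr rfl fun p hp => ?_
      rw [Finset.sum_eq_single (k' p)]
      · simp [hy2 p hp]
      · intro j _ hj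
        rw [if_neg (Ne.symm hj)]
        ring
      · intro h
        exact absurd (Finset.mem_univ _) h
    simp only [add_mul, Finset.sum_add_distrib]
    rw [e1, e2]
    linarith

/-- the intersection of half-planes -/
def cm7Q {M : ℕ} (ν : Fin M → Plane) (c : Fin M → ℝ) : Set Plane :=
  {z | ∀ k, inner ℝ (ν k) z ≤ c k}

lemma cm7Q_closed {M : ℕ} (ν : Fin M → Plane) (c : Fin M → ℝ) : IsClosed (cm7Q ν c) := by
  have : cm7Q ν c = ⋂ k, {z | inner ℝ (ν k) z ≤ c k} := by
    ext z; simp [cm7Q]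
  rw [this]
  exact isClosed_iInter fun k => isClosed_le (by fun_prop) continuous_const

lemma cm7Q_convex {M : ℕ} (ν : Fin M → Plane) (c : Fin M → ℝ) : Convex ℝ (cm7Q ν c) := by
  have : cm7Q ν c = ⋂ k, {z | inner ℝ (ν k) z ≤ c k} := by
    ext z; simp [cm7Q]
  rw [this]
  exact convex_iInter fun k => convex_halfSpace_le
    ((innerSL ℝ (ν k)).toLinearMap.isLinear) (c k)

/-- a boundary point has an active constraint -/
lemma cm7_active {M : ℕ} (ν : Fin M → Plane) (c : Fin M → ℝ) {y : Plane}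
    (hy : y ∈ frontier (cm7Q ν c)) : y ∈ cm7Q ν c ∧ ∃ k, inner ℝ (ν k) y = c k := by
  have hyQ : y ∈ cm7Q ν c := (cm7Q_closed ν c).frontier_subset hy
  refine ⟨hyQ, ?_⟩
  by_contra hcon
  push Not at hcon
  have hlt : ∀ k, inner ℝ (ν k) y < c k := fun k => lt_of_le_of_ne (hyQ k) (hcon k)
  have hopen : IsOpen {z : Plane | ∀ k, inner ℝ (ν k) z < c k} := by
    have : {z : Plane | ∀ k, inner ℝ (ν k) z < c k} = ⋂ k, {z | inner ℝ (ν k) z < c k} := by
      ext z; simp
    rw [this]
    exact isOpen_iInter_of_finite fun k => isOpen_lt (by fun_prop) continuous_const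
  have hint : y ∈ interior (cm7Q ν c) := by
    rw [mem_interior]
    exact ⟨{z | ∀ k, inner ℝ (ν k) z < c k}, fun z hz k => (hz k).le, hopen, hlt⟩
  exact (disjoint_interior_frontier (s := cm7Q ν c)).le_bot ⟨hint, hy⟩

/-- a boundary point whose line in direction `u` supports has a second active constraint -/
lemma cm7_active2 {M : ℕ} (ν : Fin M → Plane) (c : Fin M → ℝ) {y : Plane}
    (hyQ : y ∈ cm7Q ν c) {k : Fin M} (hk : inner ℝ (ν k) y = c k) (u : Plane)
    (huk : inner ℝ (ν k) u ≠ 0)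
    (hsup : (∀ z ∈ cm7Q ν c, cross u z ≤ cross u y) ∨
      (∀ z ∈ cm7Q ν c, cross u y ≤ cross u z)) :
    ∃ k', k' ≠ k ∧ inner ℝ (ν k') y = c k' := by
  by_contra hcon
  push Not at hcon
  let w : Plane := !₂[-(ν k 1), ν k 0]
  have hw : inner ℝ (ν k) w = 0 := by
    simp [w, PiLp.inner_apply, Fin.sum_univ_two]; ring
  have hcw : cross u w = inner ℝ (ν k) u := by
    simp [w, cross, PiLp.inner_apply, Fin.sum_univ_two]
  have hev : ∀ᶠ t : ℝ in 𝓝 0, y + t • w ∈ cm7Q ν c := by
    have : ∀ j, ∀ᶠ t : ℝ in 𝓝 0, inner ℝ (ν j) (y + t • w) ≤ c j := by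
      intro j
      by_cases hj : j = k
      · subst hj
        refine Filter.Eventually.of_forall fun t => ?_
        rw [inner_add_right, inner_smul_right, hw, hk]; simp
      · have hlt : inner ℝ (ν j) y < c j := lt_of_le_of_ne (hyQ j) (hcon j hj)
        have hc : Continuous fun t : ℝ => (inner ℝ (ν j) (y + t • w) : ℝ) := by fun_prop
        have h0 : (inner ℝ (ν j) (y + (0 : ℝ) • w) : ℝ) < c j := by simpa using hlt
        exact ((hc.tendsto 0).eventually_lt_const h0).mono fun t ht => ht.le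
    exact Filter.eventually_all.mpr this
  obtain ⟨δ, hδ, hball⟩ := Metric.eventually_nhds_iff.mp hev
  have hp := hball (y := δ / 2) (by simp [abs_of_pos hδ]; linarith)
  have hm := hball (y := -(δ / 2)) (by simp [abs_of_pos hδ]; linarith)
  have ep : cross u (y + (δ / 2) • w) = cross u y + δ / 2 * inner ℝ (ν k) u := by
    rw [cross_add_right, cross_smul_right, hcw]
  have em : cross u (y + (-(δ / 2)) • w) = cross u y - δ / 2 * inner ℝ (ν k) u := by
    rw [cross_add_right, cross_smul_right, hcw]; ring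
  rcases hsup with hsup | hsup
  · have h1 := hsup _ hp
    have h2 := hsup _ hm
    rw [ep] at h1
    rw [em] at h2
    apply huk
    have : δ / 2 * inner ℝ (ν k) u = 0 := by linarith
    rcases mul_eq_zero.mp this with h | h
    · linarith
    · exact h
  · have h1 := hsup _ hp
    have h2 := hsup _ hm
    rw [ep] at h1
    rw [em] at h2
    apply huk
    have : δ / 2 * inner ℝ (ν k) u = 0 := by linarith
    rcases mul_eq_zero.mp this with h | h
    · linarith
    · exact h

/-- the faces are short -/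
lemma cm7_short {M : ℕ} (ν : Fin M → Plane) (α c : Fin M → ℝ) {L : Set Plane} {R ε : ℝ}
    (hR : 0 < R) (hε : 0 < ε) (hL : IsCompact L)
    (hmod : ∀ x ∈ L, ∀ y ∈ L,
      Metric.closedBall (midpoint ℝ x y) (dist x y ^ 2 / (8 * R)) ⊆ L)
    (hα : ∀ k, ∀ x ∈ L, inner ℝ (ν k) x ≤ α k) (hαc : ∀ k, α k < c k)
    (hν : ∀ k, ν k ≠ 0)
    (hQ : cm7Q ν c ⊆ Metric.cthickening ε L) {k : Fin M} {x y : Plane} (hx : x ∈ cm7Q ν c)
    (hy : y ∈ cm7Q ν c) (hxk : inner ℝ (ν k) x = c k) (hyk : inner ℝ (ν k) y = c k) :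
    dist x y < Real.sqrt (8 * R * ε) + 2 * ε := by
  have hget : ∀ z ∈ cm7Q ν c, ∃ z' ∈ L, dist z z' ≤ ε := by
    intro z hz
    have h1 := hQ hz
    rw [hL.cthickening_eq_biUnion_closedBall hε.le] at h1
    simp only [Set.mem_iUnion, Metric.mem_closedBall, exists_prop] at h1
    exact h1
  obtain ⟨x', hx', hxx'⟩ := hget x hx
  obtain ⟨y', hy', hyy'⟩ := hget y hy
  have hnorm : 0 < ‖ν k‖ := norm_pos_iff.mpr (hν k)
  set ρ := dist x' y' ^ 2 / (8 * R) with hρ
  have hρ0 : 0 ≤ ρ := by positivity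
  set m' := midpoint ℝ x' y' with hm'
  have h2 : m' + (ρ / ‖ν k‖) • ν k ∈ L := by
    apply hmod x' hx' y' hy'
    rw [Metric.mem_closedBall, dist_eq_norm, ← hm', add_sub_cancel_left, norm_smul,
      Real.norm_eq_abs, abs_div, abs_norm, abs_of_nonneg hρ0, div_mul_cancel₀ _ hnorm.ne']
  have h3 : inner ℝ (ν k) m' + ρ * ‖ν k‖ ≤ α k := by
    have := hα k _ h2
    rw [inner_add_right, inner_smul_right, real_inner_self_eq_norm_sq] at this
    have e : ρ / ‖ν k‖ * ‖ν k‖ ^ 2 = ρ * ‖ν k‖ := by field_simp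
    linarith
  have hm1 : inner ℝ (ν k) (midpoint ℝ x y) = c k := by
    rw [midpoint_eq_smul_add, inner_smul_right, inner_add_right, hxk, hyk,
      invOf_eq_inv]
    ring
  have hmm : dist (midpoint ℝ x y) m' ≤ ε := by
    rw [hm']
    have := dist_midpoint_midpoint_le x y x' y'
    linarith
  have h4 : c k ≤ inner ℝ (ν k) m' + ‖ν k‖ * ε := by
    have : inner ℝ (ν k) (midpoint ℝ x y - m') ≤ ‖ν k‖ * ‖midpoint ℝ x y - m'‖ :=
      real_inner_le_norm _ _
    rw [inner_sub_right, hm1, ← dist_eq_norm] at this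
    have h5 : ‖ν k‖ * dist (midpoint ℝ x y) m' ≤ ‖ν k‖ * ε :=
      mul_le_mul_of_nonneg_left hmm hnorm.le
    linarith
  have h6 : ρ < ε := by
    have := hαc k
    have h7 : ρ * ‖ν k‖ < ‖ν k‖ * ε := by linarith
    rw [mul_comm ‖ν k‖ ε] at h7
    exact lt_of_mul_lt_mul_right h7 hnorm.le
  have h8 : dist x' y' ^ 2 < 8 * R * ε := by
    rw [hρ, div_lt_iff₀ (by positivity)] at h6
    linarith
  have h9 : dist x' y' < Real.sqrt (8 * R * ε) := by
    rw [← Real.sqrt_sq (dist_nonneg (x := x') (y := y'))]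
    exact Real.sqrt_lt_sqrt (by positivity) h8
  have h10 : dist x y ≤ dist x x' + dist x' y' + dist y' y := dist_triangle4 _ _ _ _
  rw [dist_comm y' y] at h10
  linarith

/-- CM-7 -/
theorem dense_compl_config (u : Fin 3 → Plane) (hu : ∀ i, u i ≠ 0) {N : ℕ}
    (e : Finset (Fin N × Fin N × Fin 3)) (l : Finset (Fin N × Fin 3)) (n : ℕ)
    (hg : Good u e l) :
    Dense {K : Body | Config u K.carrier e l n}ᶜ := by
  classical
  rw [Metric.dense_iff]
  intro K₀ δ hδ
  have hK₀c : IsCompact (K₀.1 : Set Plane) := K₀.1.isCompact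
  have hK₀n : (K₀.1 : Set Plane).Nonempty := K₀.1.nonempty
  obtain ⟨R, L, hR, hLc, hLcx, hKL, hLK, hmod⟩ :=
    exists_ballHull hK₀c hK₀n K₀.2.1 (ε := δ / 3) (by positivity)
  have hLne : L.Nonempty := hK₀n.mono hKL
  have hn : (0 : ℝ) < 1 / ((n : ℝ) + 1) := by positivity
  obtain ⟨ε, hε, hεδ, hεn⟩ : ∃ ε : ℝ, 0 < ε ∧ ε ≤ δ / 3 ∧
      Real.sqrt (8 * R * ε) + 2 * ε < 1 / ((n : ℝ) + 1) := by
    have hc : Continuous fun ε : ℝ => Real.sqrt (8 * R * ε) + 2 * ε := by fun_prop
    have h0 : Real.sqrt (8 * R * 0) + 2 * 0 < 1 / ((n : ℝ) + 1) := by simpa using hn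
    have h1 := (hc.tendsto 0).eventually_lt_const h0
    obtain ⟨r, hr, hball⟩ := Metric.eventually_nhds_iff.mp h1
    refine ⟨min (r / 2) (δ / 3), by positivity, min_le_right _ _, hball ?_⟩
    have h2 : 0 < min (r / 2) (δ / 3) := by positivity
    have h3 : min (r / 2) (δ / 3) ≤ r / 2 := min_le_left _ _
    rw [Real.dist_eq, sub_zero, abs_of_pos h2]
    linarith
  obtain ⟨M, ν, α, β, hνu, hαβ, hαL, hβL⟩ := exists_halfplanes hLc hLne hLcx u hu hε
  have hν : ∀ k, ν k ≠ 0 := by
    intro k hk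
    apply hνu k 0
    rw [hk, inner_zero_left]
  -- the relations
  let ι := {a : (Fin N → Fin M) × (Fin N × Fin 3 → Fin M) //
    (∀ i j, a.1 i = a.1 j → i = j) ∧ (∀ p ∈ l, ∀ i, a.2 p ≠ a.1 i) ∧
      (∀ p ∈ l, ∀ q ∈ l, a.2 p = a.2 q → p = q)}
  have hrel : ∀ a : ι, ∃ r : Fin M → ℝ, r ≠ 0 ∧ ∀ (y : Fin N → Plane) (c : Fin M → ℝ),
      (∀ i, inner ℝ (ν (a.1.1 i)) (y i) = c (a.1.1 i)) →
      (∀ p ∈ l, inner ℝ (ν (a.1.2 p)) (y p.1) = c (a.1.2 p)) →
      (∀ p ∈ e, cross (u p.2.2) (y p.1 - y p.2.1) = 0) → ∑ j, r j * c j = 0 :=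
    fun a => cm7_relation u e l hg ν a.1.1 a.1.2 a.2.1 a.2.2.1 a.2.2.2
  choose r hr0 hr using hrel
  obtain ⟨c, hc, hcr⟩ := exists_avoid r hr0 α β hαβ
  have hLQ : L ⊆ cm7Q ν c := fun x hx k => (hαL k x hx).trans (hc k).1.le
  have hQL : cm7Q ν c ⊆ Metric.cthickening ε L :=
    fun z hz => hβL z fun k => (hz k).trans (hc k).2.le
  have hQc : IsCompact (cm7Q ν c) :=
    (hLc.cthickening (r := ε)).of_isClosed_subset (cm7Q_closed ν c) hQL
  have hKQ : (K₀.1 : Set Plane) ⊆ cm7Q ν c := hKL.trans hLQ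
  have hQn : (cm7Q ν c).Nonempty := hK₀n.mono hKQ
  let Q : Body := ⟨⟨⟨cm7Q ν c, hQc⟩, hQn⟩, cm7Q_convex ν c, K₀.2.2.mono (interior_mono hKQ)⟩
  refine ⟨Q, ?_, ?_⟩
  · -- close
    rw [Metric.mem_ball, Subtype.dist_eq, Metric.NonemptyCompacts.dist_eq]
    have hle : Metric.hausdorffDist (cm7Q ν c) (K₀.1 : Set Plane) ≤ ε + δ / 3 := by
      apply Metric.hausdorffDist_le_of_mem_dist (by positivity)
      · intro x hx
        have h1 := hQL hx
        rw [hLc.cthickening_eq_biUnion_closedBall hε.le] at h1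
        simp only [Set.mem_iUnion, Metric.mem_closedBall, exists_prop] at h1
        obtain ⟨x', hx', hxx'⟩ := h1
        have h2 := hLK hx'
        rw [hK₀c.cthickening_eq_biUnion_closedBall (by positivity)] at h2
        simp only [Set.mem_iUnion, Metric.mem_closedBall, exists_prop] at h2
        obtain ⟨x'', hx'', hxx''⟩ := h2
        exact ⟨x'', hx'', (dist_triangle x x' x'').trans (add_le_add hxx' hxx'')⟩
      · intro x hx
        exact ⟨x, hKQ hx, by simp; positivity⟩
    refine lt_of_le_of_lt hle ?_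
    linarith
  · -- no configuration
    rintro ⟨y, hy1, hy2, hy3, hy4⟩
    have hQcar : Q.carrier = cm7Q ν c := rfl
    rw [hQcar] at hy1 hy4
    have hshort : ∀ i j k, inner ℝ (ν k) (y i) = c k → inner ℝ (ν k) (y j) = c k → i = j := by
      intro i j k hi hj
      by_contra hne
      have h1 := hy2 i j hne
      have h2 := cm7_short ν α c hR hε hLc hmod hαL (fun k => (hc k).1) hν hQL
        (cm7_active ν c (hy1 i)).1 (cm7_active ν c (hy1 j)).1 hi hj
      linarith
    have hk := fun i => (cm7_active ν c (hy1 i)).2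
    choose k hk using hk
    have hk' : ∀ p : Fin N × Fin 3, ∃ m, p ∈ l → m ≠ k p.1 ∧ inner ℝ (ν m) (y p.1) = c m := by
      intro p
      by_cases hp : p ∈ l
      · obtain ⟨m, hm1, hm2⟩ := cm7_active2 ν c (cm7_active ν c (hy1 p.1)).1 (hk p.1) (u p.2)
          (hνu _ _) (hy4 p hp)
        exact ⟨m, fun _ => ⟨hm1, hm2⟩⟩
      · exact ⟨k p.1, fun h => absurd h hp⟩
    choose k' hk' using hk'
    have ha1 : ∀ i j, k i = k j → i = j := by
      intro i j hij
      apply hshort i j (k i) (hk i)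
      rw [hij]
      exact hk j
    have ha2 : ∀ p ∈ l, ∀ i, k' p ≠ k i := by
      intro p hp i hpi
      have h1 : p.1 = i := by
        apply hshort p.1 i (k' p) (hk' p hp).2
        rw [hpi]
        exact hk i
      apply (hk' p hp).1
      rw [hpi, h1]
    have ha3 : ∀ p ∈ l, ∀ q ∈ l, k' p = k' q → p = q := by
      intro p hp q hq hpq
      have h1 : p.1 = q.1 := by
        apply hshort p.1 q.1 (k' p) (hk' p hp).2
        rw [hpq]
        exact (hk' q hq).2
      have h2 : p.2 = q.2 := by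
        apply hg.2.1 p.1 p.2 q.2 hp
        rw [h1]
        exact hq
      exact Prod.ext h1 h2
    exact hcr ⟨(k, k'), ha1, ha2, ha3⟩
      (hr ⟨(k, k'), ha1, ha2, ha3⟩ y c hk (fun p hp => (hk' p hp).2) hy3)

end ChordMaps
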