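import Pool.Agent.Helper3.Chord.Limits

set_option autoImplicit false

/-!
# CM-8: most planar convex bodies are smooth
-/

namespace ChordMaps

open Topology Metric Filter

/-- bodies with a boundary point having two unit normals at distance at least `1 / (n + 1)` -/
def cm8Set (n : ℕ) : Set Body :=
  {K | ∃ x a b : Plane, x ∈ frontier K.carrier ∧ ‖a‖ = 1 ∧ ‖b‖ = 1 ∧
    1 / ((n : ℝ) + 1) ≤ dist a b ∧
    (∀ y ∈ K.carrier, inner ℝ a y ≤ inner ℝ a x) ∧ ∀ y ∈ K.carrier, inner ℝ b y ≤ inner ℝ b x}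

lemma cm8_support_limit {K : ℕ → Body} {K0 : Body} (hK : Tendsto K atTop (𝓝 K0))
    {a x : ℕ → Plane} {a0 x0 : Plane} (ha : Tendsto a atTop (𝓝 a0))
    (hx : Tendsto x atTop (𝓝 x0)) (ha1 : ∀ m, ‖a m‖ = 1)
    (h : ∀ m, ∀ y ∈ (K m).carrier, inner ℝ (a m) y ≤ inner ℝ (a m) (x m)) :
    ∀ y ∈ K0.carrier, inner ℝ a0 y ≤ inner ℝ a0 x0 := by
  intro y hy
  by_contra hcon
  push Not at hcon
  set δ : ℝ := (inner ℝ a0 y - inner ℝ a0 x0) / 2 with hδ
  have hδ0 : 0 < δ := by rw [hδ]; linarith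
  have h1 : Tendsto (fun m => inner ℝ (a m) y - inner ℝ (a m) (x m)) atTop
      (𝓝 (inner ℝ a0 y - inner ℝ a0 x0)) :=
    (ha.inner tendsto_const_nhds).sub (ha.inner hx)
  have e1 : ∀ᶠ m in atTop, δ < inner ℝ (a m) y - inner ℝ (a m) (x m) :=
    h1.eventually_const_lt (by rw [hδ]; linarith)
  have e2 : ∀ᶠ m in atTop, ∃ w ∈ (K m).carrier, w ∈ ball y δ :=
    cm3_eventually_exists hK hy (ball_mem_nhds y hδ0)
  obtain ⟨m, h2, w, hw, hwb⟩ := (e1.and e2).exists
  have h3 := h m w hw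
  have h4 : inner ℝ (a m) (y - w) ≤ ‖a m‖ * ‖y - w‖ := real_inner_le_norm _ _
  rw [ha1 m, one_mul, inner_sub_right] at h4
  rw [mem_ball, dist_comm, dist_eq_norm] at hwb
  linarith

lemma cm8_isClosed (n : ℕ) : IsClosed (cm8Set n) := by
  apply IsSeqClosed.isClosed
  intro K K0 hK hlim
  have hlim1 : ∀ᶠ m in atTop, dist (K m) K0 < 1 := (Metric.tendsto_nhds.1 hlim) _ one_pos
  obtain ⟨m0, hm0⟩ := eventually_atTop.1 hlim1
  choose x a b hxf ha hb hab hax hbx using hK
  set C : Set Plane := cthickening 1 K0.carrier with hC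
  have hCc : IsCompact C := (cm3_isCompact K0).cthickening
  have hS : IsCompact (sphere (0 : Plane) 1) := isCompact_sphere 0 1
  obtain ⟨q, -, φ, hφ, hqφ⟩ := (hCc.prod (hS.prod hS)).tendsto_subseq
    (x := fun m => (x (m + m0), a (m + m0), b (m + m0))) (by
      intro m
      refine ⟨cm3_mem_cthickening (hm0 _ (by omega))
        ((cm3_isCompact _).isClosed.frontier_subset (hxf (m + m0))), ?_, ?_⟩
      · simp [ha]
      · simp [hb])
  set ψ : ℕ → ℕ := fun m => φ m + m0 with hψ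
  have hψt : Tendsto ψ atTop atTop := (tendsto_add_atTop_nat m0).comp hφ.tendsto_atTop
  have hKψ : Tendsto (fun m => K (ψ m)) atTop (𝓝 K0) := hlim.comp hψt
  have hx' : Tendsto (fun m => x (ψ m)) atTop (𝓝 q.1) := (continuous_fst.tendsto q).comp hqφ
  have ha' : Tendsto (fun m => a (ψ m)) atTop (𝓝 q.2.1) :=
    ((continuous_fst.comp continuous_snd).tendsto q).comp hqφ
  have hb' : Tendsto (fun m => b (ψ m)) atTop (𝓝 q.2.2) :=
    ((continuous_snd.comp continuous_snd).tendsto q).comp hqφ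
  refine ⟨q.1, q.2.1, q.2.2, ?_, ?_, ?_, ?_, ?_, ?_⟩
  · exact cm3_frontier_of_tendsto hKψ hx' (fun m => hxf (ψ m))
  · refine tendsto_nhds_unique ha'.norm ?_
    simp only [ha]
    exact tendsto_const_nhds
  · refine tendsto_nhds_unique hb'.norm ?_
    simp only [hb]
    exact tendsto_const_nhds
  · exact ge_of_tendsto (ha'.dist hb') (Eventually.of_forall fun m => hab (ψ m))
  · exact cm8_support_limit hKψ ha' hx' (fun m => ha (ψ m)) (fun m => hax (ψ m))
  · exact cm8_support_limit hKψ hb' hx' (fun m => hb (ψ m)) (fun m => hbx (ψ m))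

/-- the outer parallel body -/
noncomputable def cm8Thick (K : Body) (δ : ℝ) : Body :=
  ⟨⟨⟨cthickening δ K.carrier, (cm3_isCompact K).cthickening⟩,
    (cm3_nonempty K).mono (self_subset_cthickening _)⟩,
    (cm3_convex K).cthickening δ,
    K.2.2.mono (interior_mono (self_subset_cthickening _))⟩

lemma cm8Thick_carrier (K : Body) (δ : ℝ) :
    (cm8Thick K δ).carrier = cthickening δ K.carrier := rfl

lemma cm8_dist_thick (K : Body) {δ : ℝ} (hδ : 0 ≤ δ) : dist (cm8Thick K δ) K ≤ δ := by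
  rw [cm3_dist_eq, cm8Thick_carrier]
  refine hausdorffDist_le_of_mem_dist hδ ?_ ?_
  · intro x hx
    rw [(cm3_isCompact K).cthickening_eq_biUnion_closedBall hδ] at hx
    obtain ⟨p, hp, hxp⟩ := Set.mem_iUnion₂.1 hx
    exact ⟨p, hp, hxp⟩
  · intro x hx
    exact ⟨x, self_subset_cthickening _ hx, by simpa using hδ⟩

lemma cm8_normal_unique (K : Body) {δ : ℝ} (hδ : 0 < δ) {x p a : Plane} (hp : p ∈ K.carrier)
    (hxp : dist x p ≤ δ) (ha : ‖a‖ = 1)
    (h : ∀ y ∈ cthickening δ K.carrier, inner ℝ a y ≤ inner ℝ a x) : δ • a = x - p := by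
  have hmem : p + δ • a ∈ cthickening δ K.carrier := by
    refine mem_cthickening_of_dist_le _ p δ _ hp ?_
    rw [dist_eq_norm, add_sub_cancel_left, norm_smul, ha, Real.norm_eq_abs, abs_of_pos hδ,
      mul_one]
  have h1 := h _ hmem
  rw [inner_add_right, inner_smul_right, real_inner_self_eq_norm_sq, ha] at h1
  have h2 : δ ≤ inner ℝ a (x - p) := by
    rw [inner_sub_right]; linarith
  rw [dist_eq_norm] at hxp
  have h3 : ‖δ • a - (x - p)‖ ^ 2 ≤ 0 := by
    rw [norm_sub_sq_real, norm_smul, ha, Real.norm_eq_abs, abs_of_pos hδ, mul_one,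
      real_inner_smul_left]
    have h4 : ‖x - p‖ ^ 2 ≤ δ ^ 2 := by
      apply pow_le_pow_left₀ (norm_nonneg _) hxp
    nlinarith
  have h5 : ‖δ • a - (x - p)‖ = 0 := by
    have := norm_nonneg (δ • a - (x - p))
    nlinarith
  exact sub_eq_zero.1 (norm_eq_zero.1 h5)

lemma cm8_thick_notMem (K : Body) {δ : ℝ} (hδ : 0 < δ) (n : ℕ) : cm8Thick K δ ∉ cm8Set n := by
  rintro ⟨x, a, b, hx, ha, hb, hab, hax, hbx⟩
  rw [cm8Thick_carrier] at hx hax hbx
  have hxm : x ∈ cthickening δ K.carrier :=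
    (isClosed_cthickening).frontier_subset hx
  rw [(cm3_isCompact K).cthickening_eq_biUnion_closedBall hδ.le] at hxm
  obtain ⟨p, hp, hxp⟩ := Set.mem_iUnion₂.1 hxm
  have h1 := cm8_normal_unique K hδ hp hxp ha hax
  have h2 := cm8_normal_unique K hδ hp hxp hb hbx
  have h3 : a = b := by
    have : δ • a = δ • b := h1.trans h2.symm
    exact smul_right_injective Plane hδ.ne' this
  rw [h3, dist_self] at hab
  have : (0 : ℝ) < 1 / ((n : ℝ) + 1) := by positivity
  linarith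

/-- most planar convex bodies are smooth -/
theorem residual_smooth : ∀ᶠ K : Body in residual Body, Smooth K.carrier := by
  have h1 : ∀ᶠ K : Body in residual Body, ∀ n, K ∉ cm8Set n := by
    rw [eventually_countable_forall]
    intro n
    refine residual_of_dense_open (cm8_isClosed n).isOpen_compl ?_
    intro K
    rw [Metric.mem_closure_iff]
    intro ε hε
    refine ⟨cm8Thick K (ε / 2), cm8_thick_notMem K (by positivity) n, ?_⟩
    rw [dist_comm]
    exact (cm8_dist_thick K (by positivity)).trans_lt (by linarith)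
  filter_upwards [h1] with K hK
  intro x hx a b ha hb hax hbx
  have hna : 0 < ‖a‖ := norm_pos_iff.2 ha
  have hnb : 0 < ‖b‖ := norm_pos_iff.2 hb
  have hnorm : ∀ c : Plane, c ≠ 0 → ‖(‖c‖⁻¹) • c‖ = 1 := fun c hc => by
    rw [norm_smul, norm_inv, norm_norm, inv_mul_cancel₀ (norm_ne_zero_iff.2 hc)]
  have hsupp : ∀ c : Plane, c ≠ 0 → (∀ y ∈ K.carrier, inner ℝ c y ≤ inner ℝ c x) →
      ∀ y ∈ K.carrier, inner ℝ ((‖c‖⁻¹) • c) y ≤ inner ℝ ((‖c‖⁻¹) • c) x := by
    intro c hc h y hy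
    rw [real_inner_smul_left, real_inner_smul_left]
    exact mul_le_mul_of_nonneg_left (h y hy) (by positivity)
  have h2 : (‖a‖⁻¹) • a = (‖b‖⁻¹) • b := by
    by_contra hne
    have hd : 0 < dist ((‖a‖⁻¹) • a) ((‖b‖⁻¹) • b) := dist_pos.2 hne
    obtain ⟨n, hn⟩ := exists_nat_one_div_lt hd
    exact hK n ⟨x, _, _, hx, hnorm a ha, hnorm b hb, hn.le, hsupp a ha hax, hsupp b hb hbx⟩
  refine ⟨‖b‖ * ‖a‖⁻¹, by positivity, ?_⟩
  rw [mul_smul, h2, smul_smul, mul_inv_cancel₀ hnb.ne', one_smul]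

end ChordMaps
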