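import Pool.Agent.Helper3.Chord.Limits
import Pool.Agent.Helper3.Chord.CM4

set_option autoImplicit false

/-!
# CM-9: most planar convex bodies are strictly convex
-/

namespace ChordMaps

open Topology Metric Filter

/-- bodies containing a chord of length at least `1 / (n + 1)` whose midpoint is a boundary
point -/
def cm9Set (n : ℕ) : Set Body :=
  {K | ∃ x y : Plane, x ∈ K.carrier ∧ y ∈ K.carrier ∧ 1 / ((n : ℝ) + 1) ≤ dist x y ∧
    midpoint ℝ x y ∈ frontier K.carrier}

lemma cm9_isClosed (n : ℕ) : IsClosed (cm9Set n) := by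
  apply IsSeqClosed.isClosed
  intro K K0 hK hlim
  have hlim1 : ∀ᶠ m in atTop, dist (K m) K0 < 1 := (Metric.tendsto_nhds.1 hlim) _ one_pos
  obtain ⟨m0, hm0⟩ := eventually_atTop.1 hlim1
  choose x y hx hy hxy hmid using hK
  set C : Set Plane := cthickening 1 K0.carrier with hC
  have hCc : IsCompact C := (cm3_isCompact K0).cthickening
  obtain ⟨q, -, φ, hφ, hqφ⟩ := (hCc.prod hCc).tendsto_subseq
    (x := fun m => (x (m + m0), y (m + m0))) (by
      intro m
      exact ⟨cm3_mem_cthickening (hm0 _ (by omega)) (hx (m + m0)),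
        cm3_mem_cthickening (hm0 _ (by omega)) (hy (m + m0))⟩)
  set ψ : ℕ → ℕ := fun m => φ m + m0 with hψ
  have hψt : Tendsto ψ atTop atTop := (tendsto_add_atTop_nat m0).comp hφ.tendsto_atTop
  have hKψ : Tendsto (fun m => K (ψ m)) atTop (𝓝 K0) := hlim.comp hψt
  have hx' : Tendsto (fun m => x (ψ m)) atTop (𝓝 q.1) := (continuous_fst.tendsto q).comp hqφ
  have hy' : Tendsto (fun m => y (ψ m)) atTop (𝓝 q.2) := (continuous_snd.tendsto q).comp hqφ
  refine ⟨q.1, q.2, ?_, ?_, ?_, ?_⟩
  · exact cm3_mem_of_tendsto hKψ hx' (fun m => hx (ψ m))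
  · exact cm3_mem_of_tendsto hKψ hy' (fun m => hy (ψ m))
  · exact ge_of_tendsto (hx'.dist hy') (Eventually.of_forall fun m => hxy (ψ m))
  · refine cm3_frontier_of_tendsto hKψ (y := fun m => midpoint ℝ (x (ψ m)) (y (ψ m))) ?_
      (fun m => hmid (ψ m))
    simp only [midpoint_eq_smul_add]
    exact (hx'.add hy').const_smul _

lemma cm9_dense_compl (n : ℕ) : Dense (cm9Set n)ᶜ := by
  intro K
  rw [Metric.mem_closure_iff]
  intro ε hε
  obtain ⟨R, L, hR, hLc, hLconv, hKL, hLK, hball⟩ := exists_ballHull (cm3_isCompact K)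
    (cm3_nonempty K) (cm3_convex K) (half_pos hε)
  set L' : Body := ⟨⟨⟨L, hLc⟩, (cm3_nonempty K).mono hKL⟩, hLconv,
    K.2.2.mono (interior_mono hKL)⟩ with hL'
  have hcar : L'.carrier = L := rfl
  refine ⟨L', ?_, ?_⟩
  · rintro ⟨x, y, hx, hy, hxy, hmid⟩
    rw [hcar] at hx hy hmid
    have hd : 0 < dist x y := lt_of_lt_of_le (by positivity) hxy
    have h1 := hball x hx y hy
    have h2 : midpoint ℝ x y ∈ interior L := by
      apply interior_mono h1
      apply ball_subset_interior_closedBall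
      exact mem_ball_self (by positivity)
    rw [hLc.isClosed.frontier_eq] at hmid
    exact hmid.2 h2
  · refine lt_of_le_of_lt ?_ (half_lt_self hε)
    rw [cm3_dist_eq, hcar]
    refine hausdorffDist_le_of_mem_dist (half_pos hε).le ?_ ?_
    · intro x hx
      exact ⟨x, hKL hx, by simpa using (half_pos hε).le⟩
    · intro x hx
      have h1 := hLK hx
      rw [(cm3_isCompact K).cthickening_eq_biUnion_closedBall (half_pos hε).le] at h1
      obtain ⟨p, hp, hxp⟩ := Set.mem_iUnion₂.1 h1
      exact ⟨p, hp, hxp⟩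

/-- most planar convex bodies are strictly convex -/
theorem residual_strictConvex : ∀ᶠ K : Body in residual Body, StrictConvex ℝ K.carrier := by
  have h1 : ∀ᶠ K : Body in residual Body, ∀ n, K ∉ cm9Set n := by
    rw [eventually_countable_forall]
    intro n
    exact residual_of_dense_open (cm9_isClosed n).isOpen_compl (cm9_dense_compl n)
  filter_upwards [h1] with K hK
  refine (cm3_convex K).strictConvex' ?_
  intro x hx y hy hxy
  refine ⟨1 / 2, ?_⟩
  by_contra hnot
  obtain ⟨n, hn⟩ := exists_nat_one_div_lt (dist_pos.2 hxy)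
  refine hK n ⟨x, y, hx.1, hy.1, hn.le, ?_⟩
  rw [(cm3_isCompact K).isClosed.frontier_eq]
  have hm : AffineMap.lineMap x y (1 / 2 : ℝ) = midpoint ℝ x y := by
    rw [midpoint, one_div, invOf_eq_inv]
  rw [hm] at hnot
  exact ⟨(cm3_convex K).midpoint_mem hx.1 hy.1, hnot⟩

end ChordMaps
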