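import Mathlib

set_option autoImplicit false

/-!
# Chord maps of planar convex bodies: definitions

Basic definitions for the theorem that for most planar convex bodies (Baire category) the chord
maps in any three given pairwise non-parallel directions have only dense orbits.
-/

namespace ChordMaps

/-- the Euclidean plane -/
abbrev Plane := EuclideanSpace ℝ (Fin 2)

/-- signed area of the parallelogram spanned by `x` and `y` -/
def cross (x y : Plane) : ℝ := x 0 * y 1 - x 1 * y 0

/-- the space of planar convex bodies (compact, convex, nonempty interior) with the Hausdorff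
metric, as a subspace of `NonemptyCompacts` -/
abbrev Body : Type :=
  {K : TopologicalSpace.NonemptyCompacts Plane //
    Convex ℝ (K : Set Plane) ∧ (interior (K : Set Plane)).Nonempty}

/-- the underlying set of a convex body -/
def Body.carrier (K : Body) : Set Plane := (K.1 : Set Plane)

/-- every boundary point has exactly one supporting line -/
def Smooth (K : Set Plane) : Prop :=
  ∀ x ∈ frontier K, ∀ a b : Plane, a ≠ 0 → b ≠ 0 →
    (∀ y ∈ K, inner ℝ a y ≤ inner ℝ a x) → (∀ y ∈ K, inner ℝ b y ≤ inner ℝ b x) →
    ∃ c : ℝ, 0 < c ∧ b = c • a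

open Classical in
/-- the chord map in direction `u`: the other boundary point on the line `x + ℝ u`
(`x` itself if there is none) -/
noncomputable def chord (K : Set Plane) (u x : Plane) : Plane :=
  if h : ∃ y, y ∈ frontier K ∧ y ≠ x ∧ ∃ t : ℝ, y = x + t • u then h.choose else x

/-- the functionals `y ↦ cross (u κ) (y i - y j)`, `(i, j, κ) ∈ e`, are linearly independent,
there are at least `N + 1` edges and loops, and at most one loop at each vertex -/
def Good (u : Fin 3 → Plane) {N : ℕ} (e : Finset (Fin N × Fin N × Fin 3))
    (l : Finset (Fin N × Fin 3)) : Prop :=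
  N + 1 ≤ e.card + l.card ∧
  (∀ i κ κ', (i, κ) ∈ l → (i, κ') ∈ l → κ = κ') ∧
  ∀ φ : Fin N × Fin N × Fin 3 → ℝ,
    (∀ y : Fin N → Plane, ∑ p ∈ e, φ p * cross (u p.2.2) (y p.1 - y p.2.1) = 0) →
    ∀ p ∈ e, φ p = 0

/-- `K` contains boundary points `y i`, `i < N`, with mutual distances at least `1 / (n + 1)`,
such that `y i - y j` is parallel to `u κ` for all `(i, j, κ) ∈ e` and the line through `y i`
parallel to `u κ` supports `K` for all `(i, κ) ∈ l` -/
def Config (u : Fin 3 → Plane) (K : Set Plane) {N : ℕ} (e : Finset (Fin N × Fin N × Fin 3))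
    (l : Finset (Fin N × Fin 3)) (n : ℕ) : Prop :=
  ∃ y : Fin N → Plane, (∀ i, y i ∈ frontier K) ∧
    (∀ i j, i ≠ j → 1 / ((n : ℝ) + 1) ≤ dist (y i) (y j)) ∧
    (∀ p ∈ e, cross (u p.2.2) (y p.1 - y p.2.1) = 0) ∧
    ∀ p ∈ l, (∀ z ∈ K, cross (u p.2) z ≤ cross (u p.2) (y p.1)) ∨
      (∀ z ∈ K, cross (u p.2) (y p.1) ≤ cross (u p.2) z)

lemma cross_add_right (x y z : Plane) : cross x (y + z) = cross x y + cross x z := by
  simp [cross]; ring

lemma cross_sub_right (x y z : Plane) : cross x (y - z) = cross x y - cross x z := by
  simp [cross]; ring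

lemma cross_smul_right (x y : Plane) (t : ℝ) : cross x (t • y) = t * cross x y := by
  simp [cross]; ring

lemma cross_add_left (x y z : Plane) : cross (x + y) z = cross x z + cross y z := by
  simp [cross]; ring

lemma cross_sub_left (x y z : Plane) : cross (x - y) z = cross x z - cross y z := by
  simp [cross]; ring

lemma cross_smul_left (x y : Plane) (t : ℝ) : cross (t • x) y = t * cross x y := by
  simp [cross]; ring

lemma cross_self (x : Plane) : cross x x = 0 := by
  simp [cross]; ring

lemma cross_comm (x y : Plane) : cross x y = - cross y x := by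
  simp [cross]; ring

lemma cross_neg_left (x y : Plane) : cross (-x) y = - cross x y := by
  simp [cross]; ring

lemma cross_neg_right (x y : Plane) : cross x (-y) = - cross x y := by
  simp [cross]; ring

lemma continuous_cross : Continuous (fun p : Plane × Plane => cross p.1 p.2) := by
  unfold cross; fun_prop

end ChordMaps
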