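import Pool.Agent.Helper3.Chord.Basic

set_option autoImplicit false

/-! # Edges of the convex hull of an invariant set and the flow they carry -/

namespace ChordMaps

variable {K C : Set Plane} {u v a b x y z : Plane}

/-- `(a, b)` is a (counterclockwise) edge of the convex hull of `C` -/
def Edge (C : Set Plane) (a b : Plane) : Prop :=
  a ∈ C ∧ b ∈ C ∧ a ≠ b ∧ ∀ x ∈ C, 0 ≤ cross (b - a) (x - a)

lemma chord_neg (hcl : IsClosed K) (hs : StrictConvex ℝ K) (hx : x ∈ frontier K) :
    chord K (-u) x = chord K u x := by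
  by_cases h : chord K u x = x
  · by_contra hcon
    have h1 : chord K (-u) x ≠ x := fun h2 => hcon (by rw [h2, h])
    obtain ⟨t, ht⟩ := chord_line K (-u) x
    apply hcon
    exact (chord_eq hcl hs hx (chord_mem hx) h1 ⟨-t, by rw [ht]; simp⟩).symm
  · obtain ⟨t, ht⟩ := chord_line K u x
    exact chord_eq hcl hs hx (chord_mem hx) h ⟨-t, by rw [ht]; simp⟩

/-- three distinct boundary points of a strictly convex body are not collinear -/
lemma cross_ne_zero_of_distinct (hcl : IsClosed K) (hs : StrictConvex ℝ K)
    (ha : a ∈ frontier K) (hb : b ∈ frontier K) (hx : x ∈ frontier K)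
    (hab : a ≠ b) (hax : x ≠ a) (hbx : x ≠ b) : cross (b - a) (x - a) ≠ 0 := by
  intro h
  obtain ⟨t, ht⟩ := exists_smul_of_cross_eq_zero (sub_ne_zero.2 hab.symm) h
  have h1 : chord K (b - a) a = b :=
    chord_eq hcl hs ha hb hab.symm ⟨1, by rw [one_smul]; abel⟩
  have h2 : chord K (b - a) a = x :=
    chord_eq hcl hs ha hx hax ⟨t, by rw [← ht]; abel⟩
  exact hbx (by rw [← h1, h2])

lemma Edge.pos (hcl : IsClosed K) (hs : StrictConvex ℝ K) (hCK : C ⊆ frontier K)
    (he : Edge C a b) (hx : x ∈ C) (hxa : x ≠ a) (hxb : x ≠ b) :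
    0 < cross (b - a) (x - a) := by
  obtain ⟨ha, hb, hab, h⟩ := he
  exact lt_of_le_of_ne (h x hx)
    (cross_ne_zero_of_distinct hcl hs (hCK ha) (hCK hb) (hCK hx) hab hxa hxb).symm

/-- no point of `C` lies strictly between the two chords through the ends of an edge -/
lemma Edge.not_between (hcp : IsCompact K) (hK : Convex ℝ K) (hs : StrictConvex ℝ K)
    (hCK : C ⊆ frontier K) (hu : u ≠ 0) (hinv : ∀ x ∈ C, chord K u x ∈ C)
    (he : Edge C a b) (hx : x ∈ C) {θ : ℝ} (h0 : 0 < θ) (h1 : θ < 1)
    (hθ : cross u x = cross u a + θ * (cross u b - cross u a))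
    (hab : cross u a ≠ cross u b) : False := by
  have haK : a ∈ K := hcp.isClosed.frontier_subset (hCK he.1)
  have hbK : b ∈ K := hcp.isClosed.frontier_subset (hCK he.2.1)
  have hw : a + θ • (b - a) ∈ K := by
    have : a + θ • (b - a) = (1 - θ) • a + θ • b := by
      rw [smul_sub, sub_smul, one_smul]; abel
    rw [this]
    exact hK haK hbK (by linarith) h0.le (by ring)
  have hcw : cross u (a + θ • (b - a)) = cross u x := by
    rw [cross_add_right, cross_smul_right, cross_sub_right, hθ]
  obtain ⟨p, q, hp, hq, hpq, hseg⟩ := mem_segment_chord hcp hs hu (hCK hx) hw hcw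
  have hδ : cross u b - cross u a ≠ 0 := sub_ne_zero.2 hab.symm
  have hxa : cross u x ≠ cross u a := by
    rw [hθ]; intro h
    have : θ * (cross u b - cross u a) = 0 := by linarith
    rcases mul_eq_zero.1 this with h2 | h2
    · linarith
    · exact hδ h2
  have hxb : cross u x ≠ cross u b := by
    rw [hθ]; intro h
    have : (1 - θ) * (cross u b - cross u a) = 0 := by linarith
    rcases mul_eq_zero.1 this with h2 | h2
    · linarith
    · exact hδ h2
  have hx1 : 0 < cross (b - a) (x - a) :=
    he.pos hcp.isClosed hs hCK hx (fun h => hxa (by rw [h])) (fun h => hxb (by rw [h]))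
  have hx2 : 0 < cross (b - a) (chord K u x - a) := by
    refine he.pos hcp.isClosed hs hCK (hinv x hx) (fun h => hxa ?_) (fun h => hxb ?_)
    · rw [← cross_chord K u x, h]
    · rw [← cross_chord K u x, h]
  have h3 : cross (b - a) (p • x + q • chord K u x - a)
      = p * cross (b - a) (x - a) + q * cross (b - a) (chord K u x - a) := by
    have : p • x + q • chord K u x - a = p • (x - a) + q • (chord K u x - a) := by
      have h4 : a = p • a + q • a := by rw [← add_smul, hpq, one_smul]
      nth_rewrite 1 [h4]
      rw [smul_sub, smul_sub]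
      abel
    rw [this, cross_add_right, cross_smul_right, cross_smul_right]
  have h5 : cross (b - a) (a + θ • (b - a) - a) = 0 := by
    rw [add_sub_cancel_left, cross_smul_right, cross_self, mul_zero]
  rw [← hseg, h3] at h5
  have h6 : 0 < p * cross (b - a) (x - a) + q * cross (b - a) (chord K u x - a) := by
    rcases eq_or_lt_of_le hp with hp0 | hp0
    · rw [← hp0] at hpq ⊢
      have : q = 1 := by linarith
      rw [this]; linarith
    · have : 0 ≤ q * cross (b - a) (chord K u x - a) := mul_nonneg hq hx2.le
      have : 0 < p * cross (b - a) (x - a) := mul_pos hp0 hx1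
      linarith
  linarith

/-- the partner of the initial point of an edge lies in the direction prescribed by the edge -/
lemma Edge.sign_left (he : Edge C a b) (ha : chord K u a ∈ C) {s : ℝ}
    (hs : a = chord K u a + s • u) : 0 ≤ s * (cross u b - cross u a) := by
  have h := he.2.2.2 _ ha
  have h1 : chord K u a - a = (-s) • u := by
    nth_rewrite 2 [hs]
    rw [neg_smul]; abel
  rw [h1, cross_smul_right, cross_comm, cross_sub_right] at h
  linarith

lemma Edge.sign_right (he : Edge C a b) (hb : chord K u b ∈ C) {t : ℝ}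
    (ht : b = chord K u b + t • u) : 0 ≤ t * (cross u b - cross u a) := by
  have h := he.2.2.2 _ hb
  have h1 : chord K u b - a = (b - a) + (-t) • u := by
    nth_rewrite 2 [ht]
    rw [neg_smul]; abel
  rw [h1, cross_add_right, cross_self, cross_smul_right, cross_comm, cross_sub_right] at h
  linarith

lemma eq_of_cross_eq (hcl : IsClosed K) (hs : StrictConvex ℝ K) (hu : u ≠ 0)
    (hx : x ∈ frontier K) (hy : y ∈ frontier K) (h : cross u y = cross u x) :
    y = x ∨ y = chord K u x := by
  by_cases hne : y = x
  · exact Or.inl hne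
  · right
    obtain ⟨t, ht⟩ := exists_smul_of_cross_eq_zero hu
      (show cross u (y - x) = 0 by rw [cross_sub_right, h, sub_self])
    exact (chord_eq hcl hs hx hy hne ⟨t, by rw [← ht]; abel⟩).symm

/-- a chord map takes an edge to an edge, with the opposite orientation -/
theorem edge_chord (hcp : IsCompact K) (hK : Convex ℝ K) (hs : StrictConvex ℝ K)
    (hCK : C ⊆ frontier K) (hu : u ≠ 0) (hinv : ∀ x ∈ C, chord K u x ∈ C)
    (he : Edge C a b) : Edge C (chord K u b) (chord K u a) := by
  have hcl := hcp.isClosed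
  have haC := he.1
  have hbC := he.2.1
  have haf := hCK haC
  have hbf := hCK hbC
  by_cases hab : cross u a = cross u b
  · rcases eq_of_cross_eq hcl hs hu haf hbf hab.symm with h | h
    · exact absurd h.symm he.2.2.1
    · have h2 : chord K u b = a := by rw [h, chord_chord hcl hs haf]
      rw [h2, ← h]
      exact he
  · refine ⟨hinv b hbC, hinv a haC, ?_, ?_⟩
    · intro h
      apply he.2.2.1
      rw [← chord_chord hcl hs haf (u := u), ← h, chord_chord hcl hs hbf]
    · intro x hx
      obtain ⟨s, hs'⟩ := chord_line K u a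
      obtain ⟨t, ht'⟩ := chord_line K u b
      set a' := chord K u a with ha'
      set b' := chord K u b with hb'
      have has : a = a' + (-s) • u := by rw [hs', neg_smul]; abel
      have hbt : b = b' + (-t) • u := by rw [ht', neg_smul]; abel
      have hsδ := he.sign_left (hinv a haC) has
      have htδ := he.sign_right (hinv b hbC) hbt
      have hca : cross u a' = cross u a := cross_chord K u a
      have hcb : cross u b' = cross u b := cross_chord K u b
      set δ := cross u b - cross u a with hδ
      have hδ0 : δ ≠ 0 := sub_ne_zero.2 (Ne.symm hab)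
      have hcu : cross (a' - b') u = δ := by
        rw [cross_comm, cross_sub_right, hca, hcb]; ring
      by_contra hcon
      push Not at hcon
      -- normalised coordinate of x
      obtain ⟨τ, hτ⟩ : ∃ τ : ℝ, cross u x = cross u a + τ * δ := by
        refine ⟨(cross u x - cross u a) / δ, ?_⟩
        field_simp
        ring
      have haK : a' ∈ K := hcl.frontier_subset (hCK (hinv a haC))
      have hbK : b' ∈ K := hcl.frontier_subset (hCK (hinv b hbC))
      have hxK : x ∈ K := hcl.frontier_subset (hCK hx)
      have hxf := hCK hx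
      rcases lt_trichotomy τ 0 with h0 | h0 | h0
      · -- x beyond a
        have h1 : 0 < 1 - τ := by linarith
        set θ : ℝ := 1 / (1 - τ) with hθ
        have hθ0 : 0 < θ := by positivity
        have hθ1 : θ < 1 := by rw [hθ, div_lt_one h1]; linarith
        have hw : b' + θ • (x - b') ∈ K := by
          have : b' + θ • (x - b') = (1 - θ) • b' + θ • x := by
            rw [smul_sub, sub_smul, one_smul]; abel
          rw [this]
          exact hK hbK hxK (by linarith) hθ0.le (by ring)
        have hcw : cross u (b' + θ • (x - b')) = cross u a := by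
          rw [cross_add_right, cross_smul_right, cross_sub_right, hτ, hcb]
          have h2 : cross u b = cross u a + δ := by rw [hδ]; ring
          rw [h2, hθ]
          field_simp
          ring
        obtain ⟨p, q, hp, hq, hpq, hseg⟩ := mem_segment_chord hcp hs hu haf hw hcw
        have h3 : cross (a' - b') (b' + θ • (x - b') - b') = p * (-s * δ) + cross (a' - b') (a' - b') := by
          rw [← hseg, ← ha']
          have h4 : p • a + q • a' - b' = p • ((-s) • u) + (a' - b') := by
            nth_rewrite 1 [has]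
            have h5 : a' = p • a' + q • a' := by rw [← add_smul, hpq, one_smul]
            nth_rewrite 3 [h5]
            rw [smul_add]
            abel
          rw [h4, cross_add_right, cross_smul_right, cross_smul_right, hcu]
        rw [cross_self, add_sub_cancel_left, cross_smul_right] at h3
        have h6 : θ * cross (a' - b') (x - b') < 0 := mul_neg_of_pos_of_neg hθ0 hcon
        have h7 : 0 ≤ p * (-s * δ) := mul_nonneg hp hsδ
        linarith
      · -- same line as a
        rw [h0] at hτ
        rcases eq_of_cross_eq hcl hs hu haf hxf (by rw [hτ]; ring) with h | h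
        · rw [h] at hcon
          have h4 : a - b' = (-s) • u + (a' - b') := by nth_rewrite 1 [has]; abel
          rw [h4, cross_add_right, cross_smul_right, cross_self, hcu] at hcon
          linarith
        · rw [h, ← ha', cross_self] at hcon
          exact lt_irrefl _ hcon
      · rcases lt_trichotomy τ 1 with h1 | h1 | h1
        · exact he.not_between hcp hK hs hCK hu hinv hx h0 h1 hτ hab
        · rw [h1] at hτ
          have h2 : cross u b = cross u a + δ := by rw [hδ]; ring
          rcases eq_of_cross_eq hcl hs hu hbf hxf (by rw [hτ, h2]; ring) with h | h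
          · rw [h] at hcon
            have h4 : b - b' = (-t) • u := by nth_rewrite 1 [hbt]; abel
            rw [h4, cross_smul_right, hcu] at hcon
            linarith
          · rw [h, ← hb', sub_self] at hcon
            have : cross (a' - b') 0 = 0 := by simp [cross]
            linarith
        · -- x beyond b
          set θ : ℝ := 1 / τ with hθ
          have hθ0 : 0 < θ := by positivity
          have hθ1 : θ < 1 := by rw [hθ, div_lt_one h0]; linarith
          have hw : a' + θ • (x - a') ∈ K := by
            have : a' + θ • (x - a') = (1 - θ) • a' + θ • x := by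
              rw [smul_sub, sub_smul, one_smul]; abel
            rw [this]
            exact hK haK hxK (by linarith) hθ0.le (by ring)
          have hcw : cross u (a' + θ • (x - a')) = cross u b := by
            rw [cross_add_right, cross_smul_right, cross_sub_right, hτ, hca]
            have h2 : cross u b = cross u a + δ := by rw [hδ]; ring
            rw [h2, hθ]
            field_simp
            ring
          obtain ⟨p, q, hp, hq, hpq, hseg⟩ := mem_segment_chord hcp hs hu hbf hw hcw
          have h3 : cross (a' - b') (a' + θ • (x - a') - b') = p * (-t * δ) := by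
            rw [← hseg, ← hb']
            have h4 : p • b + q • b' - b' = p • ((-t) • u) := by
              nth_rewrite 1 [hbt]
              have h5 : b' = p • b' + q • b' := by rw [← add_smul, hpq, one_smul]
              nth_rewrite 3 [h5]
              rw [smul_add]
              abel
            rw [h4, cross_smul_right, cross_smul_right, hcu]
          have h8 : a' + θ • (x - a') - b' = (1 - θ) • (a' - b') + θ • (x - b') := by
            rw [smul_sub, smul_sub, smul_sub, sub_smul, sub_smul, one_smul, one_smul]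
            abel
          rw [h8, cross_add_right, cross_smul_right, cross_smul_right, cross_self] at h3
          have h6 : θ * cross (a' - b') (x - b') < 0 := mul_neg_of_pos_of_neg hθ0 hcon
          have h7 : 0 ≤ p * (-t * δ) := mul_nonneg hp htδ
          linarith

lemma Edge.out_unique (hcl : IsClosed K) (hs : StrictConvex ℝ K) (hCK : C ⊆ frontier K)
    (h1 : Edge C a b) (h2 : Edge C a v) : b = v := by
  by_contra hne
  have h3 := h1.2.2.2 v h2.2.1
  have h4 := h2.2.2.2 b h1.2.1
  rw [cross_comm] at h4
  exact cross_ne_zero_of_distinct hcl hs (hCK h1.1) (hCK h1.2.1) (hCK h2.2.1) h1.2.2.1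
    h2.2.2.1.symm (Ne.symm hne) (by linarith)

lemma Edge.in_unique (hcl : IsClosed K) (hs : StrictConvex ℝ K) (hCK : C ⊆ frontier K)
    (h1 : Edge C a b) (h2 : Edge C v b) : a = v := by
  by_contra hne
  have h3 := h1.2.2.2 v h2.1
  have h4 := h2.2.2.2 a h1.1
  have h5 : cross (b - v) (a - v) = - cross (b - a) (v - a) := by
    simp only [cross, PiLp.sub_apply]; ring
  rw [h5] at h4
  exact cross_ne_zero_of_distinct hcl hs (hCK h1.1) (hCK h1.2.1) (hCK h2.1) h1.2.2.1
    (Ne.symm hne) h2.2.2.1 (by linarith)

lemma inner_eq (a b : Plane) : inner ℝ a b = a 0 * b 0 + a 1 * b 1 := by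
  simp [PiLp.inner_apply, Fin.sum_univ_two]
  ring

/-- strict support at a boundary point of a strictly convex body -/
lemma exists_strict_support (hcl : IsClosed K) (hs : StrictConvex ℝ K) {p : Plane}
    (hp : p ∈ frontier K) : ∃ ν : Plane, ∀ x ∈ K, x ≠ p → inner ℝ ν x < inner ℝ ν p := by
  have hpK := hcl.frontier_subset hp
  obtain ⟨f, hf⟩ := geometric_hahn_banach_open_point (hs.convex.interior) isOpen_interior
    (frontier_notMem_interior hp)
  refine ⟨(InnerProductSpace.toDual ℝ Plane).symm f, fun x hx hne => ?_⟩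
  rw [InnerProductSpace.toDual_symm_apply, InnerProductSpace.toDual_symm_apply]
  have h1 : (1 / 2 : ℝ) • x + (1 / 2 : ℝ) • p ∈ interior K :=
    hs hx hpK hne (by norm_num) (by norm_num) (by norm_num)
  have h2 := hf _ h1
  rw [map_add, map_smul, map_smul, smul_eq_mul, smul_eq_mul] at h2
  linarith

/-- a closed invariant proper subset has an edge -/
theorem exists_edge (hcl : IsClosed K) (hs : StrictConvex ℝ K)
    (hCK : C ⊆ frontier K) (hCc : IsCompact C) {a₀ b₀ : Plane} (ha₀ : a₀ ∈ C) (hb₀ : b₀ ∈ C)
    (hab₀ : a₀ ≠ b₀) {p : Plane} (hp : p ∈ frontier K) (hpC : p ∉ C) :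
    ∃ a b, Edge C a b := by
  obtain ⟨ν, hν⟩ := exists_strict_support hcl hs hp
  have hden : ∀ x ∈ C, 0 < -(inner ℝ ν (x - p)) := by
    intro x hx
    have := hν x (hcl.frontier_subset (hCK hx)) (fun h => hpC (h ▸ hx))
    rw [inner_sub_right]
    linarith
  have hν0 : 0 < ν 0 ^ 2 + ν 1 ^ 2 := by
    by_contra hcon
    push Not at hcon
    have h0 : ν 0 = 0 := by nlinarith [sq_nonneg (ν 0), sq_nonneg (ν 1)]
    have h1 : ν 1 = 0 := by nlinarith [sq_nonneg (ν 0), sq_nonneg (ν 1)]
    have := hden a₀ ha₀
    rw [inner_eq, h0, h1] at this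
    linarith
  have hcont : ContinuousOn (fun x : Plane => -(cross ν (x - p)) / -(inner ℝ ν (x - p))) C := by
    apply ContinuousOn.div
    · unfold cross
      fun_prop
    · fun_prop
    · intro x hx
      exact (hden x hx).ne'
  obtain ⟨a, haC, hamin⟩ := hCc.exists_isMinOn ⟨a₀, ha₀⟩ hcont
  obtain ⟨b, hbC, hbmax⟩ := hCc.exists_isMaxOn ⟨a₀, ha₀⟩ hcont
  have key : ∀ x ∈ C, ∀ y ∈ C,
      -(cross ν (x - p)) / -(inner ℝ ν (x - p)) ≤ -(cross ν (y - p)) / -(inner ℝ ν (y - p)) →
      0 ≤ cross (x - p) (y - p) := by
    intro x hx y hy h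
    rw [div_le_div_iff₀ (hden x hx) (hden y hy)] at h
    rw [inner_eq, inner_eq] at h
    have h2 : (ν 0 ^ 2 + ν 1 ^ 2) * cross (x - p) (y - p) =
        -(cross ν (y - p)) * -(ν 0 * (x - p) 0 + ν 1 * (x - p) 1) -
        -(cross ν (x - p)) * -(ν 0 * (y - p) 0 + ν 1 * (y - p) 1) := by
      unfold cross; ring
    by_contra hcon
    push Not at hcon
    have := mul_neg_of_pos_of_neg hν0 hcon
    linarith
  have hA : ∀ x ∈ C, 0 ≤ cross (a - p) (x - p) := fun x hx => key a haC x hx (hamin hx)
  have hB : ∀ x ∈ C, 0 ≤ cross (x - p) (b - p) := fun x hx => key x hx b hbC (hbmax hx)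
  have hpf : ∀ x ∈ C, p ≠ x := fun x hx h => hpC (h ▸ hx)
  have hD : 0 < cross (a - p) (b - p) := by
    refine lt_of_le_of_ne (hA b hbC) fun h => ?_
    by_cases hab : a = b
    · -- all points of C are collinear with p and a
      have hall : ∀ x ∈ C, x = a := by
        intro x hx
        by_contra hne
        have h1 := hA x hx
        have h2 := hB x hx
        rw [← hab, cross_comm] at h2
        refine cross_ne_zero_of_distinct hcl hs hp (hCK haC) (hCK hx) (hpf a haC)
          (hpf x hx).symm hne (by linarith)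
      exact hab₀ (by rw [hall a₀ ha₀, hall b₀ hb₀])
    · exact cross_ne_zero_of_distinct hcl hs hp (hCK haC) (hCK hbC) (hpf a haC)
        (hpf b hbC).symm (Ne.symm hab) h.symm
  refine ⟨b, a, hbC, haC, ?_, ?_⟩
  · rintro rfl
    rw [cross_self] at hD
    exact lt_irrefl _ hD
  · intro x hx
    have h0 : cross (a - b) (x - b) =
        cross (a - p) (x - p) + cross (x - p) (b - p) - cross (a - p) (b - p) := by
      simp only [cross, PiLp.sub_apply]; ring
    rw [h0]
    by_contra hcon
    push Not at hcon
    set α : ℝ := cross (x - p) (b - p) / cross (a - p) (b - p) with hα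
    set β : ℝ := cross (a - p) (x - p) / cross (a - p) (b - p) with hβ
    have hα0 : 0 ≤ α := div_nonneg (hB x hx) hD.le
    have hβ0 : 0 ≤ β := div_nonneg (hA x hx) hD.le
    have hαβ : α + β < 1 := by
      rw [hα, hβ, ← add_div, div_lt_one hD]
      linarith
    have hxe : x = p + (α • (a - p) + β • (b - p)) := by
      ext i
      fin_cases i
      · simp only [Fin.zero_eta, PiLp.add_apply, PiLp.smul_apply, PiLp.sub_apply, smul_eq_mul]
        rw [hα, hβ]
        field_simp
        simp only [cross, PiLp.sub_apply]; ring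
      · simp only [Fin.mk_one, PiLp.add_apply, PiLp.smul_apply, PiLp.sub_apply, smul_eq_mul]
        rw [hα, hβ]
        field_simp
        simp only [cross, PiLp.sub_apply]; ring
    have hpos : 0 < α + β := by
      rcases lt_or_eq_of_le hα0 with h1 | h1
      · linarith
      · rcases lt_or_eq_of_le hβ0 with h2 | h2
        · linarith
        · exfalso
          rw [← h1, ← h2, zero_smul, zero_smul, add_zero, add_zero] at hxe
          exact hpf x hx hxe.symm
    set y : Plane := (α / (α + β)) • a + (β / (α + β)) • b with hy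
    have hyK : y ∈ K := hs.convex (hcl.frontier_subset (hCK haC)) (hcl.frontier_subset (hCK hbC))
      (by positivity) (by positivity) (by field_simp)
    have hyp : y ≠ p := by
      intro h
      have h1 := hden a haC
      have h2 := hden b hbC
      have h3 : inner ℝ ν (y - p) = (α / (α + β)) * inner ℝ ν (a - p)
          + (β / (α + β)) * inner ℝ ν (b - p) := by
        rw [hy, inner_sub_right, inner_sub_right, inner_sub_right, inner_add_right,
          real_inner_smul_right, real_inner_smul_right]
        field_simp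
        ring
      rw [h, sub_self, inner_zero_right] at h3
      have h4 : 0 < (α / (α + β)) * -(inner ℝ ν (a - p))
          + (β / (α + β)) * -(inner ℝ ν (b - p)) := by
        rcases lt_or_eq_of_le hα0 with h5 | h5
        · have : 0 < (α / (α + β)) * -(inner ℝ ν (a - p)) := mul_pos (by positivity) h1
          have : 0 ≤ (β / (α + β)) * -(inner ℝ ν (b - p)) := mul_nonneg (by positivity) h2.le
          linarith
        · have h6 : 0 < β := by linarith
          have : 0 ≤ (α / (α + β)) * -(inner ℝ ν (a - p)) := mul_nonneg (by positivity) h1.le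
          have : 0 < (β / (α + β)) * -(inner ℝ ν (b - p)) := mul_pos (by positivity) h2
          linarith
      linarith
    refine not_between hs (hCK hx) (hcl.frontier_subset hp) hyK (Ne.symm hyp)
      ⟨1 - (α + β), α + β, by linarith, hpos, by ring, ?_⟩
    rw [hy]
    refine Eq.trans ?_ hxe.symm
    rw [smul_add, smul_smul, smul_smul, mul_div_cancel₀ _ hpos.ne', mul_div_cancel₀ _ hpos.ne']
    rw [smul_sub, smul_sub, sub_smul, one_smul, add_smul]
    abel

lemma Edge.not_between' (hcp : IsCompact K) (hK : Convex ℝ K) (hs : StrictConvex ℝ K)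
    (hCK : C ⊆ frontier K) (hu : u ≠ 0) (hinv : ∀ x ∈ C, chord K u x ∈ C)
    (he : Edge C a b) (hx : x ∈ C) (h0 : cross u a < cross u x)
    (h1 : cross u x < cross u b) : False := by
  have hpos : 0 < cross u b - cross u a := by linarith
  refine he.not_between hcp hK hs hCK hu hinv hx
    (θ := (cross u x - cross u a) / (cross u b - cross u a)) (div_pos (by linarith) hpos)
    ((div_lt_one hpos).2 (by linarith)) ?_ (by linarith)
  field_simp
  ring

lemma edge_left_unique (hcp : IsCompact K) (hK : Convex ℝ K) (hs : StrictConvex ℝ K)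
    (hCK : C ⊆ frontier K) (hu : u ≠ 0) (hinv : ∀ x ∈ C, chord K u x ∈ C)
    {c d : Plane} (h1 : Edge C a b) (h2 : Edge C c d) {t : ℝ}
    (ht1 : cross u a < t) (ht2 : t < cross u b) (ht3 : cross u c < t) (ht4 : t < cross u d) :
    a = c := by
  have hcl := hcp.isClosed
  have h3 : cross u c = cross u a := by
    rcases lt_trichotomy (cross u a) (cross u c) with h | h | h
    · exact (h1.not_between' hcp hK hs hCK hu hinv h2.1 h (by linarith)).elim
    · exact h.symm
    · exact (h2.not_between' hcp hK hs hCK hu hinv h1.1 h (by linarith)).elim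
  rcases eq_of_cross_eq hcl hs hu (hCK h1.1) (hCK h2.1) h3 with h | h
  · exact h.symm
  · obtain ⟨s, hs'⟩ := chord_line K u a
    have h4 : chord K u c = a := by rw [h, chord_chord hcl hs (hCK h1.1)]
    have h5 := h1.sign_left (hinv a h1.1) (s := -s) (by rw [hs']; rw [neg_smul]; abel)
    have h6 := h2.sign_left (hinv c h2.1) (s := s) (by rw [h4, h, hs'])
    have hδ1 : 0 < cross u b - cross u a := by linarith
    have hδ2 : 0 < cross u d - cross u c := by linarith
    have h7 : s ≤ 0 := by
      by_contra hcon
      push Not at hcon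
      have := mul_pos hcon hδ1
      linarith
    have h8 : 0 ≤ s := by
      by_contra hcon
      push Not at hcon
      have := mul_neg_of_neg_of_pos hcon hδ2
      linarith
    have h9 : s = 0 := le_antisymm h7 h8
    rw [h, hs', h9, zero_smul, add_zero]

open MeasureTheory in
lemma summable_edge {ι : Type*} (hcp : IsCompact K) (hK : Convex ℝ K) (hs : StrictConvex ℝ K)
    (hCK : C ⊆ frontier K) (hu : u ≠ 0) (hinv : ∀ x ∈ C, chord K u x ∈ C)
    (a b : ι → Plane) (hE : ∀ i, cross u (a i) < cross u (b i) → Edge C (a i) (b i))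
    (hinj : ∀ i j, Edge C (a i) (b i) → Edge C (a j) (b j) → a i = a j → i = j) :
    Summable (fun i => max (cross u (b i) - cross u (a i)) 0) := by
  have hcont : ContinuousOn (fun x : Plane => cross u x) K := by
    unfold cross; fun_prop
  obtain ⟨m, hm⟩ := hcp.bddBelow_image hcont
  obtain ⟨M, hM⟩ := hcp.bddAbove_image hcont
  have hm' : ∀ x ∈ C, m ≤ cross u x := fun x hx =>
    hm ⟨x, hcp.isClosed.frontier_subset (hCK hx), rfl⟩
  have hM' : ∀ x ∈ C, cross u x ≤ M := fun x hx =>
    hM ⟨x, hcp.isClosed.frontier_subset (hCK hx), rfl⟩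
  refine summable_of_sum_le (c := max (M - m) 0) (fun i => le_max_right _ _) fun s => ?_
  have hdisj : (s : Set ι).PairwiseDisjoint
      (fun i => Set.Ioo (cross u (a i)) (cross u (b i))) := by
    intro i _ j _ hij
    refine Set.disjoint_left.2 fun t ht1 ht2 => hij ?_
    have e1 := hE i (by linarith [ht1.1, ht1.2])
    have e2 := hE j (by linarith [ht2.1, ht2.2])
    exact hinj i j e1 e2 (edge_left_unique hcp hK hs hCK hu hinv e1 e2 ht1.1 ht1.2 ht2.1 ht2.2)
  have h1 := measure_biUnion_finset (μ := volume) hdisj (fun i _ => measurableSet_Ioo)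
  have h2 : volume (⋃ i ∈ s, Set.Ioo (cross u (a i)) (cross u (b i))) ≤
      volume (Set.Ioo m M) := by
    refine measure_mono ?_
    intro t ht
    simp only [Set.mem_iUnion] at ht
    obtain ⟨i, _, hi⟩ := ht
    have e1 := hE i (by linarith [hi.1, hi.2])
    exact ⟨lt_of_le_of_lt (hm' _ e1.1) hi.1, lt_of_lt_of_le hi.2 (hM' _ e1.2.1)⟩
  rw [h1, Real.volume_Ioo] at h2
  simp only [Real.volume_Ioo] at h2
  have h3 : ENNReal.ofReal (∑ i ∈ s, max (cross u (b i) - cross u (a i)) 0) =
      ∑ i ∈ s, ENNReal.ofReal (cross u (b i) - cross u (a i)) := by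
    rw [ENNReal.ofReal_sum_of_nonneg (fun i _ => le_max_right _ _)]
    refine Finset.sum_congr rfl fun i _ => ?_
    rcases le_total (cross u (b i) - cross u (a i)) 0 with h | h
    · rw [max_eq_right h, ENNReal.ofReal_of_nonpos h, ENNReal.ofReal_zero]
    · rw [max_eq_left h]
  rw [← h3] at h2
  have h4 : ENNReal.ofReal (∑ i ∈ s, max (cross u (b i) - cross u (a i)) 0) ≤
      ENNReal.ofReal (max (M - m) 0) :=
    h2.trans (ENNReal.ofReal_le_ofReal (le_max_left _ _))
  exact (ENNReal.ofReal_le_ofReal_iff (le_max_right _ _)).1 h4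

open Classical in
/-- the successor of `p` -/
noncomputable def outP (C : Set Plane) (p : Plane) : Plane :=
  if h : ∃ b, Edge C p b then h.choose else p

open Classical in
/-- the predecessor of `p` -/
noncomputable def innP (C : Set Plane) (p : Plane) : Plane :=
  if h : ∃ a, Edge C a p then h.choose else p

lemma outP_edge (hcl : IsClosed K) (hs : StrictConvex ℝ K) (hCK : C ⊆ frontier K)
    (h : Edge C a b) : outP C a = b := by
  have hex : ∃ b, Edge C a b := ⟨b, h⟩
  unfold outP
  rw [dif_pos hex]
  exact hex.choose_spec.out_unique hcl hs hCK h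

lemma innP_edge (hcl : IsClosed K) (hs : StrictConvex ℝ K) (hCK : C ⊆ frontier K)
    (h : Edge C a b) : innP C b = a := by
  have hex : ∃ a, Edge C a b := ⟨a, h⟩
  unfold innP
  rw [dif_pos hex]
  exact hex.choose_spec.in_unique hcl hs hCK h

lemma outP_of_not (h : ¬ ∃ b, Edge C a b) : outP C a = a := by
  unfold outP; rw [dif_neg h]

lemma innP_of_not (h : ¬ ∃ b, Edge C b a) : innP C a = a := by
  unfold innP; rw [dif_neg h]

lemma edge_of_outP_ne (h : outP C a ≠ a) : Edge C a (outP C a) := by
  by_cases hex : ∃ b, Edge C a b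
  · unfold outP
    rw [dif_pos hex]
    exact hex.choose_spec
  · exact absurd (outP_of_not hex) h

lemma edge_of_innP_ne (h : innP C a ≠ a) : Edge C (innP C a) a := by
  by_cases hex : ∃ b, Edge C b a
  · unfold innP
    rw [dif_pos hex]
    exact hex.choose_spec
  · exact absurd (innP_of_not hex) h

lemma outP_chord (hcp : IsCompact K) (hK : Convex ℝ K) (hs : StrictConvex ℝ K)
    (hCK : C ⊆ frontier K) (hu : u ≠ 0) (hinv : ∀ x ∈ C, chord K u x ∈ C) (hx : x ∈ C) :
    outP C (chord K u x) = chord K u (innP C x) := by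
  have hcl := hcp.isClosed
  by_cases h : ∃ a, Edge C a x
  · obtain ⟨a, ha⟩ := h
    rw [innP_edge hcl hs hCK ha]
    exact outP_edge hcl hs hCK (edge_chord hcp hK hs hCK hu hinv ha)
  · rw [innP_of_not h]
    refine outP_of_not fun ⟨b, hb⟩ => h ⟨chord K u b, ?_⟩
    have := edge_chord hcp hK hs hCK hu hinv hb
    rwa [chord_chord hcl hs (hCK hx)] at this

lemma innP_chord (hcp : IsCompact K) (hK : Convex ℝ K) (hs : StrictConvex ℝ K)
    (hCK : C ⊆ frontier K) (hu : u ≠ 0) (hinv : ∀ x ∈ C, chord K u x ∈ C) (hx : x ∈ C) :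
    innP C (chord K u x) = chord K u (outP C x) := by
  have hcl := hcp.isClosed
  by_cases h : ∃ a, Edge C x a
  · obtain ⟨a, ha⟩ := h
    rw [outP_edge hcl hs hCK ha]
    exact innP_edge hcl hs hCK (edge_chord hcp hK hs hCK hu hinv ha)
  · rw [outP_of_not h]
    refine innP_of_not fun ⟨b, hb⟩ => h ⟨chord K u b, ?_⟩
    have := edge_chord hcp hK hs hCK hu hinv hb
    rwa [chord_chord hcl hs (hCK hx)] at this

lemma summable_out (hcp : IsCompact K) (hK : Convex ℝ K) (hs : StrictConvex ℝ K)
    (hCK : C ⊆ frontier K) (hu : u ≠ 0) (hinv : ∀ x ∈ C, chord K u x ∈ C) (D : Set Plane) :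
    Summable (fun x : D => cross u (outP C x) - cross u x) := by
  have hinv' : ∀ x ∈ C, chord K (-u) x ∈ C := fun x hx => by
    rw [chord_neg hcp.isClosed hs (hCK hx)]; exact hinv x hx
  have h1 := summable_edge hcp hK hs hCK hu hinv (fun x : D => (x : Plane))
    (fun x : D => outP C x) (fun i hi => edge_of_outP_ne (fun h => by
      simp only [h, lt_self_iff_false] at hi)) (fun i j _ _ h => Subtype.ext h)
  have h2 := summable_edge hcp hK hs hCK (neg_ne_zero.2 hu) hinv' (fun x : D => (x : Plane))
    (fun x : D => outP C x) (fun i hi => edge_of_outP_ne (fun h => by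
      simp only [h, lt_self_iff_false] at hi)) (fun i j _ _ h => Subtype.ext h)
  refine (h1.sub h2).congr fun x => ?_
  rw [cross_neg_left, cross_neg_left,
    show -cross u (outP C x) - -cross u (x : Plane) = -(cross u (outP C x) - cross u (x : Plane))
      by ring]
  rcases le_total (cross u (outP C x) - cross u (x : Plane)) 0 with h | h
  · rw [max_eq_right h, max_eq_left (by linarith)]; ring
  · rw [max_eq_left h, max_eq_right (by linarith)]; ring

lemma summable_inn (hcp : IsCompact K) (hK : Convex ℝ K) (hs : StrictConvex ℝ K)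
    (hCK : C ⊆ frontier K) (hu : u ≠ 0) (hinv : ∀ x ∈ C, chord K u x ∈ C) (D : Set Plane) :
    Summable (fun x : D => cross u x - cross u (innP C x)) := by
  have hcl := hcp.isClosed
  have hinv' : ∀ x ∈ C, chord K (-u) x ∈ C := fun x hx => by
    rw [chord_neg hcp.isClosed hs (hCK hx)]; exact hinv x hx
  have hinj : ∀ i j : D, Edge C (innP C i) i → Edge C (innP C j) j → innP C i = innP C j →
      i = j := by
    intro i j hi hj h
    rw [h] at hi
    exact Subtype.ext (hi.out_unique hcl hs hCK hj)
  have h1 := summable_edge hcp hK hs hCK hu hinv (fun x : D => innP C x)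
    (fun x : D => (x : Plane)) (fun i hi => edge_of_innP_ne (fun h => by
      simp only [h, lt_self_iff_false] at hi)) hinj
  have h2 := summable_edge hcp hK hs hCK (neg_ne_zero.2 hu) hinv' (fun x : D => innP C x)
    (fun x : D => (x : Plane)) (fun i hi => edge_of_innP_ne (fun h => by
      simp only [h, lt_self_iff_false] at hi)) hinj
  refine (h1.sub h2).congr fun x => ?_
  rw [cross_neg_left, cross_neg_left,
    show -cross u (x : Plane) - -cross u (innP C x) = -(cross u (x : Plane) - cross u (innP C x))
      by ring]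
  rcases le_total (cross u (x : Plane) - cross u (innP C x)) 0 with h | h
  · rw [max_eq_right h, max_eq_left (by linarith)]; ring
  · rw [max_eq_left h, max_eq_right (by linarith)]; ring

/-- CM-10: a closed invariant proper subset of the boundary carries a summable flow -/
theorem flow_exists {K : Set Plane} (hcp : IsCompact K) (hs : StrictConvex ℝ K)
    (hsm : Smooth K) (u : Fin 3 → Plane)
    (hu : ∀ i j, i ≠ j → cross (u i) (u j) ≠ 0) (C : Set Plane) (hCK : C ⊆ frontier K)
    (hCc : IsClosed C) (hCne : C.Nonempty) (hinv : ∀ i, ∀ x ∈ C, chord K (u i) x ∈ C)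
    (hneq : C ≠ frontier K) :
    ∃ (D : Set Plane) (F : Fin 3 → Plane → ℝ), D ⊆ C ∧ D.Nonempty ∧
      (∀ i, ∀ x ∈ D, chord K (u i) x ∈ D) ∧
      (∀ i, ∀ x ∈ D, F i (chord K (u i) x) = - F i x) ∧
      (∀ x ∈ D, ∑ i, F i x = 0) ∧
      (∀ i, Summable (fun x : D => F i x)) ∧
      (∀ x ∈ D, ∀ i j, F i x = 0 → F j x = 0 → i = j) := by
  have hcl := hcp.isClosed
  have hK := hs.convex
  have hu0 : ∀ i, u i ≠ 0 := by
    intro i h
    have h1 : cross (u i) (u (i + 1)) ≠ 0 := hu i (i + 1) (by fin_cases i <;> decide)
    apply h1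
    rw [h]; simp [cross]
  set β : Fin 3 → ℝ := ![cross (u 1) (u 2), cross (u 2) (u 0), cross (u 0) (u 1)] with hβ
  have hβ0 : ∀ i, β i ≠ 0 := by
    intro i
    fin_cases i
    · exact hu 1 2 (by decide)
    · exact hu 2 0 (by decide)
    · exact hu 0 1 (by decide)
  obtain ⟨x₀, hx₀⟩ := hCne
  obtain ⟨p, hp, hpC⟩ : ∃ p ∈ frontier K, p ∉ C := by
    by_contra hcon
    push Not at hcon
    exact hneq (Set.Subset.antisymm hCK hcon)
  have hdist : ∀ x ∈ C, ∀ i j, i ≠ j → chord K (u i) x ≠ chord K (u j) x :=
    fun x hx i j hij => chord_ne_chord hcp hs hsm (hu i j hij) (hCK hx)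
  obtain ⟨a, b, hab⟩ := exists_edge hcl hs hCK
    (hcp.of_isClosed_subset hCc (hCK.trans hcl.frontier_subset))
    (hinv 0 x₀ hx₀) (hinv 1 x₀ hx₀) (hdist x₀ hx₀ 0 1 (by decide)) hp hpC
  refine ⟨{x | x ∈ C ∧ ((∃ b, Edge C x b) ∨ ∃ a, Edge C a x)},
    fun i x => β i * cross (u i) (outP C x - innP C x), fun x hx => hx.1,
    ⟨a, hab.1, Or.inl ⟨b, hab⟩⟩, ?_, ?_, ?_, ?_, ?_⟩
  · rintro i x ⟨hxC, hx⟩
    refine ⟨hinv i x hxC, ?_⟩
    rcases hx with ⟨b, hb⟩ | ⟨b, hb⟩
    · exact Or.inr ⟨_, edge_chord hcp hK hs hCK (hu0 i) (hinv i) hb⟩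
    · exact Or.inl ⟨_, edge_chord hcp hK hs hCK (hu0 i) (hinv i) hb⟩
  · rintro i x ⟨hxC, -⟩
    simp only
    rw [outP_chord hcp hK hs hCK (hu0 i) (hinv i) hxC,
      innP_chord hcp hK hs hCK (hu0 i) (hinv i) hxC, cross_sub_right, cross_sub_right,
      cross_chord, cross_chord]
    ring
  · intro x _
    simp only [Fin.sum_univ_three, hβ]
    simp [cross]
    ring
  · intro i
    have h1 := summable_out hcp hK hs hCK (hu0 i) (hinv i)
      {x | x ∈ C ∧ ((∃ b, Edge C x b) ∨ ∃ a, Edge C a x)}
    have h2 := summable_inn hcp hK hs hCK (hu0 i) (hinv i)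
      {x | x ∈ C ∧ ((∃ b, Edge C x b) ∨ ∃ a, Edge C a x)}
    refine ((h1.add h2).mul_left (β i)).congr fun x => ?_
    change _ = β i * cross (u i) (outP C x - innP C x)
    rw [cross_sub_right]
    ring
  · rintro x ⟨hxC, hx⟩ i j hi hj
    by_contra hij
    have hi' := (mul_eq_zero.1 hi).resolve_left (hβ0 i)
    have hj' := (mul_eq_zero.1 hj).resolve_left (hβ0 j)
    obtain ⟨t, ht⟩ := exists_smul_of_cross_eq_zero (hu0 i) hi'
    rw [ht, cross_smul_right] at hj'
    have ht0 := (mul_eq_zero.1 hj').resolve_right (hu j i (Ne.symm hij))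
    rw [ht0, zero_smul, sub_eq_zero] at ht
    -- outP = innP
    have hout : outP C x ≠ x := by
      intro h
      rcases hx with ⟨b, hb⟩ | ⟨b, hb⟩
      · exact hb.2.2.1 (by rw [← h, outP_edge hcl hs hCK hb])
      · rw [h, innP_edge hcl hs hCK hb] at ht
        exact hb.2.2.1 ht.symm
    have hinn : innP C x ≠ x := by rw [← ht]; exact hout
    have e1 := edge_of_outP_ne hout
    have e2 := edge_of_innP_ne hinn
    rw [← ht] at e2
    have hall : ∀ y ∈ C, y = x ∨ y = outP C x := by
      intro y hy
      by_contra hcon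
      push Not at hcon
      have h1 := e1.2.2.2 y hy
      have h2 := e2.2.2.2 y hy
      have h3 : cross (x - outP C x) (y - outP C x) = - cross (outP C x - x) (y - x) := by
        simp only [cross, PiLp.sub_apply]; ring
      rw [h3] at h2
      exact cross_ne_zero_of_distinct hcl hs (hCK hxC) (hCK e1.2.1) (hCK hy) e1.2.2.1 hcon.1
        hcon.2 (by linarith)
    have d01 := hdist x hxC 0 1 (by decide)
    have d02 := hdist x hxC 0 2 (by decide)
    have d12 := hdist x hxC 1 2 (by decide)
    rcases hall _ (hinv 0 x hxC) with h0 | h0 <;> rcases hall _ (hinv 1 x hxC) with h1 | h1 <;>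
      rcases hall _ (hinv 2 x hxC) with h2 | h2
    · exact d01 (h0.trans h1.symm)
    · exact d01 (h0.trans h1.symm)
    · exact d02 (h0.trans h2.symm)
    · exact d12 (h1.trans h2.symm)
    · exact d12 (h1.trans h2.symm)
    · exact d02 (h0.trans h2.symm)
    · exact d01 (h0.trans h1.symm)
    · exact d01 (h0.trans h1.symm)

end ChordMaps
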