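import Pool.Agent.Helper3.Chord.Defs

set_option autoImplicit false

/-!
# Limits of boundary points of convex bodies (common part of CM-3 and CM-8)
-/

namespace ChordMaps

open Topology Metric Filter

lemma cm3_dist_eq (K L : Body) : dist K L = hausdorffDist K.carrier L.carrier := rfl

lemma cm3_isCompact (K : Body) : IsCompact K.carrier := K.1.isCompact

lemma cm3_nonempty (K : Body) : K.carrier.Nonempty := K.1.nonempty

lemma cm3_convex (K : Body) : Convex ℝ K.carrier := K.2.1

lemma cm3_edist_ne_top (K L : Body) : hausdorffEDist K.carrier L.carrier ≠ ⊤ :=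
  hausdorffEDist_ne_top_of_nonempty_of_bounded (cm3_nonempty K) (cm3_nonempty L)
    (cm3_isCompact K).isBounded (cm3_isCompact L).isBounded

lemma cm3_exists_near {K L : Body} {r : ℝ} (h : dist K L < r) {z : Plane}
    (hz : z ∈ K.carrier) : ∃ w ∈ L.carrier, dist z w < r :=
  exists_dist_lt_of_hausdorffDist_lt hz (by rwa [← cm3_dist_eq]) (cm3_edist_ne_top K L)

/-- the inclusion of balls: a body close to a body containing a ball contains a smaller ball -/
lemma cm3_ball_subset {K L : Body} {r : ℝ} {x : Plane} (hr : 0 < r) (h : dist K L < r)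
    (hx : closedBall x (2 * r) ⊆ K.carrier) : ball x r ⊆ L.carrier := by
  intro z hz
  by_contra hzL
  obtain ⟨f, c, hf, hc⟩ := geometric_hahn_banach_closed_point (cm3_convex L)
    (cm3_isCompact L).isClosed hzL
  set v : Plane := (InnerProductSpace.toDual ℝ Plane).symm f with hv
  have hfv : ∀ w, f w = inner ℝ v w := fun w => by
    rw [hv, InnerProductSpace.toDual_symm_apply]
  have hv0 : v ≠ 0 := by
    intro h0
    obtain ⟨w, hw⟩ := cm3_nonempty L
    have h1 := hf w hw
    rw [hfv, h0, inner_zero_left] at h1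
    rw [hfv, h0, inner_zero_left] at hc
    linarith
  have hvn : 0 < ‖v‖ := norm_pos_iff.2 hv0
  set z' : Plane := z + (r / ‖v‖) • v with hz'
  have hz'K : z' ∈ K.carrier := by
    apply hx
    rw [mem_closedBall, hz']
    calc dist (z + (r / ‖v‖) • v) x ≤ dist (z + (r / ‖v‖) • v) z + dist z x := dist_triangle _ _ _
      _ ≤ r + r := by
          apply add_le_add
          · rw [dist_eq_norm, add_sub_cancel_left, norm_smul, Real.norm_eq_abs,
              abs_of_nonneg (by positivity)]
            field_simp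
            exact le_refl _
          · exact (mem_ball.1 hz).le
      _ = 2 * r := by ring
  obtain ⟨w, hwL, hw⟩ := cm3_exists_near h hz'K
  have h1 : inner ℝ v (z' - w) ≤ ‖v‖ * ‖z' - w‖ := real_inner_le_norm _ _
  have h2 : inner ℝ v (z' - w) = (inner ℝ v z - inner ℝ v w) + r * ‖v‖ := by
    rw [hz', inner_sub_right, inner_add_right, inner_smul_right, real_inner_self_eq_norm_sq]
    field_simp
    ring
  have h3 : inner ℝ v w < inner ℝ v z := by
    rw [← hfv, ← hfv]; exact (hf w hwL).trans hc
  rw [dist_eq_norm] at hw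
  have h4 : ‖v‖ * ‖z' - w‖ < ‖v‖ * r := mul_lt_mul_of_pos_left hw hvn
  linarith

/-- limits of points of convergent bodies are points of the limit -/
lemma cm3_mem_of_tendsto {ι : Type*} {l : Filter ι} [NeBot l] {K : ι → Body} {K0 : Body}
    (hK : Tendsto K l (𝓝 K0)) {y : ι → Plane} {y0 : Plane} (hy : Tendsto y l (𝓝 y0))
    (h : ∀ i, y i ∈ (K i).carrier) : y0 ∈ K0.carrier := by
  have hcl : IsClosed K0.carrier := (cm3_isCompact K0).isClosed
  rw [← hcl.closure_eq, Metric.mem_closure_iff]
  intro ε hε
  have h1 : ∀ᶠ i in l, dist (K i) K0 < ε / 2 := (Metric.tendsto_nhds.1 hK) _ (by positivity)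
  have h2 : ∀ᶠ i in l, dist (y i) y0 < ε / 2 := (Metric.tendsto_nhds.1 hy) _ (by positivity)
  obtain ⟨i, hi1, hi2⟩ := (h1.and h2).exists
  obtain ⟨w, hw, hd⟩ := cm3_exists_near hi1 (h i)
  refine ⟨w, hw, ?_⟩
  have := dist_triangle_left y0 w (y i)
  linarith

/-- limits of boundary points of convergent bodies are boundary points of the limit -/
lemma cm3_frontier_of_tendsto {ι : Type*} {l : Filter ι} [NeBot l] {K : ι → Body} {K0 : Body}
    (hK : Tendsto K l (𝓝 K0)) {y : ι → Plane} {y0 : Plane} (hy : Tendsto y l (𝓝 y0))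
    (h : ∀ i, y i ∈ frontier (K i).carrier) : y0 ∈ frontier K0.carrier := by
  have hcl : ∀ K : Body, IsClosed K.carrier := fun K => (cm3_isCompact K).isClosed
  have hmem : y0 ∈ K0.carrier := cm3_mem_of_tendsto hK hy
    (fun i => (hcl (K i)).frontier_subset (h i))
  rw [(hcl K0).frontier_eq]
  refine ⟨hmem, fun hint => ?_⟩
  obtain ⟨δ, hδ, hball⟩ := Metric.isOpen_iff.1 isOpen_interior y0 hint
  set r : ℝ := δ / 3 with hr
  have hr0 : 0 < r := by positivity
  have hcb : closedBall y0 (2 * r) ⊆ K0.carrier := by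
    intro z hz
    apply interior_subset
    apply hball
    rw [mem_closedBall] at hz
    rw [mem_ball]
    rw [hr] at hz
    linarith
  have h1 : ∀ᶠ i in l, dist (K i) K0 < r := (Metric.tendsto_nhds.1 hK) _ hr0
  have h2 : ∀ᶠ i in l, dist (y i) y0 < r := (Metric.tendsto_nhds.1 hy) _ hr0
  obtain ⟨i, hi1, hi2⟩ := (h1.and h2).exists
  have h3 : ball y0 r ⊆ (K i).carrier := cm3_ball_subset hr0 (by rwa [dist_comm]) hcb
  have h4 : y i ∈ interior (K i).carrier :=
    interior_maximal h3 isOpen_ball (mem_ball.2 hi2)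
  have h5 := h i
  rw [(hcl (K i)).frontier_eq] at h5
  exact h5.2 h4

/-- points of the limit body are limits of points of the bodies, in the form we need: an open
condition satisfied by a point `z` of the limit and the limit `y0` of a sequence is satisfied
eventually by points of the bodies -/
lemma cm3_eventually_exists {ι : Type*} {l : Filter ι} {K : ι → Body} {K0 : Body}
    (hK : Tendsto K l (𝓝 K0)) {z : Plane} (hz : z ∈ K0.carrier) {U : Set Plane}
    (hU : U ∈ 𝓝 z) : ∀ᶠ i in l, ∃ w ∈ (K i).carrier, w ∈ U := by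
  obtain ⟨δ, hδ, hball⟩ := Metric.mem_nhds_iff.1 hU
  filter_upwards [(Metric.tendsto_nhds.1 hK) _ hδ] with i hi
  obtain ⟨w, hw, hd⟩ := cm3_exists_near (by rwa [dist_comm] : dist K0 (K i) < δ) hz
  exact ⟨w, hw, hball (by rwa [mem_ball, dist_comm])⟩

/-- convergent bodies are eventually contained in a fixed compact set; for sequences with a
boundedness property for all indices we just use: points in bodies at distance `< 1` -/
lemma cm3_mem_cthickening {K L : Body} (h : dist K L < 1) {z : Plane} (hz : z ∈ K.carrier) :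
    z ∈ cthickening 1 L.carrier := by
  obtain ⟨w, hw, hd⟩ := cm3_exists_near h hz
  exact mem_cthickening_of_dist_le z w 1 _ hw hd.le

end ChordMaps
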