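import Pool.Agent.Helper3.Chord.Flow
import Pool.Agent.Helper3.Chord.CM1
import Pool.Agent.Helper3.Chord.CM2
import Pool.Agent.Helper3.Chord.CM3
import Pool.Agent.Helper3.Chord.CM7
import Pool.Agent.Helper3.Chord.CM8
import Pool.Agent.Helper3.Chord.CM9

set_option autoImplicit false

/-! # For most convex bodies the chord maps in three directions have only dense orbits -/

namespace ChordMaps

open Topology Filter

variable {K C : Set Plane} {u v a b x y z : Plane}

/-- the closure of a set invariant under a chord map is invariant -/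
lemma closure_invariant (hcp : IsCompact K) (hs : StrictConvex ℝ K) (hu : u ≠ 0) {V : Set Plane}
    (hV : V ⊆ frontier K) (hinv : ∀ x ∈ V, chord K u x ∈ V) (hx : x ∈ closure V) :
    chord K u x ∈ closure V := by
  have hcl := hcp.isClosed
  have hVf : closure V ⊆ frontier K := closure_minimal hV isClosed_frontier
  have hxf := hVf hx
  obtain ⟨s, hsV, hslim⟩ := mem_closure_iff_seq_limit.1 hx
  obtain ⟨y, -, φ, hφ, hy⟩ := hcp.tendsto_subseq (x := fun n => chord K u (s n))
    (fun n => hcl.frontier_subset (hV (hinv _ (hsV n))))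
  have hsφ : Tendsto (fun n => s (φ n)) atTop (𝓝 x) := hslim.comp hφ.tendsto_atTop
  have hyV : y ∈ closure V :=
    mem_closure_of_tendsto hy (Eventually.of_forall fun n => hinv _ (hsV (φ n)))
  have hc : Continuous (fun z : Plane => cross u z) := by unfold cross; fun_prop
  have hcr : cross u y = cross u x := by
    have h1 : Tendsto (fun n => cross u (chord K u (s (φ n)))) atTop (𝓝 (cross u y)) :=
      (hc.tendsto y).comp hy
    have h2 : Tendsto (fun n => cross u (s (φ n))) atTop (𝓝 (cross u x)) :=
      (hc.tendsto x).comp hsφ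
    refine tendsto_nhds_unique h1 (h2.congr fun n => ?_)
    exact (cross_chord K u _).symm
  rcases eq_of_cross_eq hcl hs hu hxf (hVf hyV) hcr with h | h
  · -- y = x, so x is fixed
    by_cases hfix : chord K u x = x
    · rw [hfix]; exact hx
    exfalso
    set m : Plane := (1 / 2 : ℝ) • (chord K u x - x) with hm
    have hm0 : m ≠ 0 := smul_ne_zero (by norm_num) (sub_ne_zero.2 hfix)
    have hmi : x + m ∈ interior K := by
      have h1 : x + m = (1 / 2 : ℝ) • x + (1 / 2 : ℝ) • chord K u x := by
        rw [hm, smul_sub]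
        have h2 : x = (1 / 2 : ℝ) • x + (1 / 2 : ℝ) • x := by rw [← add_smul]; norm_num
        nth_rewrite 1 [h2]
        abel
      rw [h1]
      exact hs (hcl.frontier_subset hxf) (hcl.frontier_subset (chord_mem hxf)) (Ne.symm hfix)
        (by norm_num) (by norm_num) (by norm_num)
    have hadd : Tendsto (fun n => s (φ n) + m) atTop (𝓝 (x + m)) := hsφ.add_const m
    have h1 : ∀ᶠ n in atTop, s (φ n) + m ∈ interior K := hadd.eventually_mem
      (isOpen_interior.mem_nhds hmi)
    have hdist : Tendsto (fun n => dist (chord K u (s (φ n))) (s (φ n))) atTop (𝓝 (dist y x)) :=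
      hy.dist hsφ
    rw [h, dist_self] at hdist
    have h2 : ∀ᶠ n in atTop, dist (chord K u (s (φ n))) (s (φ n)) < ‖m‖ :=
      hdist.eventually_lt_const (norm_pos_iff.2 hm0)
    obtain ⟨n, hn1, hn2⟩ := (h1.and h2).exists
    have hcm : cross u (s (φ n) + m) = cross u (s (φ n)) := by
      obtain ⟨t, ht⟩ := chord_line K u x
      rw [cross_add_right, hm, cross_smul_right, ht, add_sub_cancel_left, cross_smul_right,
        cross_self]
      ring
    obtain ⟨p, q, hp, hq, hpq, hseg⟩ := mem_segment_chord hcp hs hu (hV (hsV (φ n)))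
      (interior_subset hn1) hcm
    have h3 : m = q • (chord K u (s (φ n)) - s (φ n)) := by
      have h4 : p = 1 - q := by linarith
      rw [h4] at hseg
      have h5 : m = (1 - q) • s (φ n) + q • chord K u (s (φ n)) - s (φ n) := by
        rw [hseg]; abel
      rw [h5, smul_sub, sub_smul, one_smul]
      abel
    have h6 : ‖m‖ ≤ dist (chord K u (s (φ n))) (s (φ n)) := by
      rw [h3, norm_smul, Real.norm_eq_abs, abs_of_nonneg hq, dist_eq_norm]
      have : q ≤ 1 := by linarith
      calc q * ‖chord K u (s (φ n)) - s (φ n)‖ ≤ 1 * ‖chord K u (s (φ n)) - s (φ n)‖ :=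
            mul_le_mul_of_nonneg_right this (norm_nonneg _)
        _ = _ := one_mul _
    linarith
  · rw [← h]; exact hyV

/-- the deterministic part: a smooth strictly convex body without good configurations has only
dense invariant sets -/
theorem dense_of_no_config (hcp : IsCompact K) (hs : StrictConvex ℝ K) (hsm : Smooth K)
    (u : Fin 3 → Plane) (hu : ∀ i j, i ≠ j → cross (u i) (u j) ≠ 0)
    (hno : ∀ (N : ℕ) (e : Finset (Fin N × Fin N × Fin 3)) (l : Finset (Fin N × Fin 3)) (n : ℕ),
      Good u e l → ¬ Config u K e l n)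
    {V : Set Plane} (hV : V ⊆ frontier K) (hne : V.Nonempty)
    (hinv : ∀ i, ∀ x ∈ V, chord K (u i) x ∈ V) : closure V = frontier K := by
  classical
  have hcl := hcp.isClosed
  have hu0 : ∀ i, u i ≠ 0 := by
    intro i h
    have h1 : cross (u i) (u (i + 1)) ≠ 0 := hu i (i + 1) (by fin_cases i <;> decide)
    apply h1
    rw [h]; simp [cross]
  by_contra hcon
  obtain ⟨D, F, hDC, hDne, hDinv, hFf, hFsum, hFs, hF0⟩ := flow_exists hcp hs hsm u hu
    (closure V) (closure_minimal hV isClosed_frontier) isClosed_closure hne.closure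
    (fun i x hx => closure_invariant hcp hs (hu0 i) hV (hinv i) hx) hcon
  have hDf : D ⊆ frontier K := hDC.trans (closure_minimal hV isClosed_frontier)
  have : Nonempty D := hDne.to_subtype
  obtain ⟨T, hT⟩ := exists_dense_finset (X := D)
    (fun i x => ⟨chord K (u i) x, hDinv i x x.2⟩)
    (fun i x => Subtype.ext (chord_chord hcl hs (hDf x.2)))
    (fun i j x hij h => chord_ne_chord hcp hs hsm (hu i j hij) (hDf x.2) (congrArg Subtype.val h))
    (fun i x => F i x) (fun i x => hFf i x x.2) (fun x => hFsum x x.2) hFs
    (fun x i j => hF0 x x.2 i j)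
  set T' : Finset Plane := T.map (Function.Embedding.subtype _) with hT'
  have hT'f : (T' : Set Plane) ⊆ frontier K := by
    intro x hx
    rw [hT', Finset.coe_map] at hx
    obtain ⟨y, -, rfl⟩ := hx
    exact hDf y.2
  have hcard : 2 * T'.card + 1 ≤ ((T' ×ˢ (Finset.univ : Finset (Fin 3))).filter
      (fun p => chord K (u p.2) p.1 ∈ T')).card := by
    rw [hT', Finset.card_map]
    refine hT.trans ?_
    refine Finset.card_le_card_of_injOn (fun p => ((p.1 : Plane), p.2)) ?_ ?_
    · rintro ⟨x, i⟩ hp
      simp only [Finset.coe_filter, Finset.mem_product, Finset.mem_univ, and_true,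
        Set.mem_ofPred_eq] at hp
      simp only [Finset.coe_filter, Finset.mem_product, Finset.mem_univ, and_true,
        Set.mem_ofPred_eq, Finset.mem_map, Function.Embedding.coe_subtype]
      exact ⟨⟨x, hp.1, rfl⟩, ⟨_, hp.2, rfl⟩⟩
    · rintro ⟨x, i⟩ _ ⟨y, j⟩ _ h
      simp only [Prod.mk.injEq] at h
      rw [Prod.mk.injEq]
      exact ⟨Subtype.ext h.1, h.2⟩
  obtain ⟨N, e, l, n, hg, hc⟩ := exists_good_config hcp hs hsm u hu T' hT'f hcard
  exact hno N e l n hg hc

/-- most convex bodies have no good configuration -/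
theorem residual_no_config (u : Fin 3 → Plane) (hu : ∀ i, u i ≠ 0) :
    ∀ᶠ K : Body in residual Body, ∀ (N : ℕ) (e : Finset (Fin N × Fin N × Fin 3))
      (l : Finset (Fin N × Fin 3)) (n : ℕ), Good u e l → ¬ Config u K.carrier e l n := by
  refine eventually_countable_forall.2 fun N => eventually_countable_forall.2 fun e =>
    eventually_countable_forall.2 fun l => eventually_countable_forall.2 fun n => ?_
  by_cases hg : Good u e l
  · have h1 : {K : Body | Config u K.carrier e l n}ᶜ ∈ residual Body :=
      residual_of_dense_open (isClosed_config u e l n).isOpen_compl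
        (dense_compl_config u hu e l n hg)
    filter_upwards [h1] with K hK _ using hK
  · exact Eventually.of_forall fun K h => absurd h hg

/-- For most planar convex bodies every nonempty set of boundary points which is invariant under
the chord maps of three pairwise non-parallel directions is dense in the boundary. -/
theorem main (S : Set Plane) (u : Fin 3 → Plane) (huS : ∀ i, u i ∈ S)
    (hu : ∀ i j, i ≠ j → cross (u i) (u j) ≠ 0) :
    ∀ᶠ K : Body in residual Body, StrictConvex ℝ K.carrier ∧ Smooth K.carrier ∧
      ∀ V ⊆ frontier K.carrier, V.Nonempty →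
        (∀ v ∈ S, ∀ x ∈ V, ∀ t : ℝ, x + t • v ∈ frontier K.carrier → x + t • v ∈ V) →
        closure V = frontier K.carrier := by
  have hu0 : ∀ i, u i ≠ 0 := by
    intro i h
    have h1 : cross (u i) (u (i + 1)) ≠ 0 := hu i (i + 1) (by fin_cases i <;> decide)
    apply h1
    rw [h]; simp [cross]
  filter_upwards [residual_strictConvex, residual_smooth, residual_no_config u hu0] with K h1 h2 h3
  refine ⟨h1, h2, fun V hV hne hinv => ?_⟩
  refine dense_of_no_config (K := K.carrier) K.1.isCompact h1 h2 u hu h3 hV hne fun i x hx => ?_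
  obtain ⟨t, ht⟩ := chord_line K.carrier (u i) x
  rw [ht]
  apply hinv (u i) (huS i) x hx t
  rw [← ht]
  exact chord_mem (hV hx)

open Metric in
lemma ball_subset_of_hausdorffDist {K L : Set Plane} {r : ℝ} {x : Plane} (hr : 0 < r)
    (hKc : IsCompact K) (hKne : K.Nonempty) (hLc : IsCompact L) (hLne : L.Nonempty)
    (hLconv : Convex ℝ L) (h : hausdorffDist K L < r)
    (hx : closedBall x (2 * r) ⊆ K) : ball x r ⊆ L := by
  intro z hz
  by_contra hzL
  obtain ⟨f, c, hf, hc⟩ := geometric_hahn_banach_closed_point hLconv hLc.isClosed hzL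
  set v : Plane := (InnerProductSpace.toDual ℝ Plane).symm f with hv
  have hfv : ∀ w, f w = inner ℝ v w := fun w => by
    rw [hv, InnerProductSpace.toDual_symm_apply]
  have hv0 : v ≠ 0 := by
    intro h0
    obtain ⟨w, hw⟩ := hLne
    have h1 := hf w hw
    rw [hfv, h0, inner_zero_left] at h1
    rw [hfv, h0, inner_zero_left] at hc
    linarith
  have hvn : 0 < ‖v‖ := norm_pos_iff.2 hv0
  set z' : Plane := z + (r / ‖v‖) • v with hz'
  have hz'K : z' ∈ K := by
    apply hx
    rw [mem_closedBall, hz']
    calc dist (z + (r / ‖v‖) • v) x ≤ dist (z + (r / ‖v‖) • v) z + dist z x := dist_triangle _ _ _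
      _ ≤ r + r := by
          apply add_le_add
          · rw [dist_eq_norm, add_sub_cancel_left, norm_smul, Real.norm_eq_abs,
              abs_of_nonneg (by positivity)]
            field_simp
            exact le_refl _
          · exact (mem_ball.1 hz).le
      _ = 2 * r := by ring
  obtain ⟨w, hwL, hw⟩ := exists_dist_lt_of_hausdorffDist_lt hz'K h
    (hausdorffEDist_ne_top_of_nonempty_of_bounded hKne hLne hKc.isBounded hLc.isBounded)
  have h1 : inner ℝ v (z' - w) ≤ ‖v‖ * ‖z' - w‖ := real_inner_le_norm _ _
  have h2 : inner ℝ v (z' - w) = (inner ℝ v z - inner ℝ v w) + r * ‖v‖ := by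
    rw [hz', inner_sub_right, inner_add_right, inner_smul_right, real_inner_self_eq_norm_sq]
    field_simp
    ring
  have h3 : inner ℝ v w < inner ℝ v z := by
    rw [← hfv, ← hfv]; exact (hf w hwL).trans hc
  rw [dist_eq_norm] at hw
  have h4 : ‖v‖ * ‖z' - w‖ < ‖v‖ * r := mul_lt_mul_of_pos_left hw hvn
  linarith

open TopologicalSpace in
/-- the space of planar convex bodies is a Baire space, so residual sets of bodies are dense -/
theorem baireSpace_body : BaireSpace Body := by
  set A : Set (NonemptyCompacts Plane) := {K | Convex ℝ (K : Set Plane)} with hA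
  have hAcl : IsClosed A := by
    apply IsSeqClosed.isClosed
    intro K K0 hK hlim x hx y hy a b ha hb hab
    have hcl : IsClosed (K0 : Set Plane) := K0.isCompact.isClosed
    have hnear : ∀ ε > 0, ∃ z ∈ (K0 : Set Plane), dist (a • x + b • y) z < ε := by
      intro ε hε
      obtain ⟨n, hn⟩ := ((Metric.tendsto_nhds.1 hlim) (ε / 2) (by positivity)).exists
      have hfin : Metric.hausdorffEDist (K0 : Set Plane) (K n : Set Plane) ≠ ⊤ :=
        Metric.hausdorffEDist_ne_top_of_nonempty_of_bounded K0.nonempty (K n).nonempty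
          K0.isCompact.isBounded (K n).isCompact.isBounded
      have hd : Metric.hausdorffDist (K0 : Set Plane) (K n : Set Plane) < ε / 2 := by
        rw [Metric.hausdorffDist_comm]; exact hn
      obtain ⟨x', hx', hxd⟩ := Metric.exists_dist_lt_of_hausdorffDist_lt hx hd hfin
      obtain ⟨y', hy', hyd⟩ := Metric.exists_dist_lt_of_hausdorffDist_lt hy hd hfin
      have hfin' : Metric.hausdorffEDist (K n : Set Plane) (K0 : Set Plane) ≠ ⊤ := by
        rw [Metric.hausdorffEDist_comm]; exact hfin
      obtain ⟨z, hz, hzd⟩ := Metric.exists_dist_lt_of_hausdorffDist_lt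
        (hK n hx' hy' ha hb hab) hn hfin'
      refine ⟨z, hz, ?_⟩
      have h1 : dist (a • x + b • y) (a • x' + b • y') ≤ a * dist x x' + b * dist y y' := by
        rw [dist_eq_norm, dist_eq_norm, dist_eq_norm]
        have : a • x + b • y - (a • x' + b • y') = a • (x - x') + b • (y - y') := by
          rw [smul_sub, smul_sub]; abel
        rw [this]
        refine (norm_add_le _ _).trans ?_
        rw [norm_smul, norm_smul, Real.norm_eq_abs, Real.norm_eq_abs, abs_of_nonneg ha,
          abs_of_nonneg hb]
      have h2 : a * dist x x' + b * dist y y' ≤ a * (ε / 2) + b * (ε / 2) :=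
        add_le_add (mul_le_mul_of_nonneg_left hxd.le ha) (mul_le_mul_of_nonneg_left hyd.le hb)
      have h3 : a * (ε / 2) + b * (ε / 2) = ε / 2 := by rw [← add_mul, hab, one_mul]
      have h4 := dist_triangle (a • x + b • y) (a • x' + b • y') z
      linarith
    rw [← hcl.closure_eq]
    exact Metric.mem_closure_iff.2 hnear
  have : CompleteSpace A := hAcl.completeSpace_coe
  let f : Body → A := fun K => ⟨K.1, K.2.1⟩
  have hf : IsOpenEmbedding f := by
    have hemb : IsEmbedding f := by
      refine IsEmbedding.of_comp (by fun_prop) continuous_subtype_val ?_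
      exact IsEmbedding.subtypeVal
    refine ⟨hemb, ?_⟩
    rw [Metric.isOpen_iff]
    rintro _ ⟨K, rfl⟩
    obtain ⟨x, hx⟩ := K.2.2
    obtain ⟨δ, hδ, hball⟩ := Metric.isOpen_iff.1 isOpen_interior x hx
    refine ⟨δ / 3, by positivity, ?_⟩
    intro L hL
    have hLd : Metric.hausdorffDist (K.carrier) ((L : NonemptyCompacts Plane) : Set Plane)
        < δ / 3 := by
      rw [Metric.hausdorffDist_comm]; exact hL
    have hsub : Metric.ball x (δ / 3) ⊆ ((L : NonemptyCompacts Plane) : Set Plane) := by
      refine ball_subset_of_hausdorffDist (K := K.carrier) (by positivity) K.1.isCompact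
        K.1.nonempty (L : NonemptyCompacts Plane).isCompact
        (L : NonemptyCompacts Plane).nonempty L.2 hLd ?_
      intro z hz
      apply interior_subset
      apply hball
      rw [Metric.mem_closedBall] at hz
      rw [Metric.mem_ball]
      linarith
    exact ⟨⟨L.1, L.2, ⟨x, interior_maximal hsub Metric.isOpen_ball
      (Metric.mem_ball_self (by positivity))⟩⟩, rfl⟩
  exact hf.baireSpace

end ChordMaps
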