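import Pool.Agent.Helper3.Chord.UDefs

set_option autoImplicit false

/-! # A chord map acts on the cyclic enumeration of a finite invariant set as a reflection -/

namespace ChordMaps

theorem exists_reflection {K : Set Plane} (hcp : IsCompact K) (hs : StrictConvex ℝ K)
    {V : Set Plane} (hV : V ⊆ frontier K) {N : ℕ} (v : ℤ → Plane)
    (hv : ∀ i j, v i = v j ↔ (N : ℤ) ∣ i - j) (hr : Set.range v = V)
    (he : ∀ i, Edge V (v i) (v (i + 1))) {u : Plane} (hu : u ≠ 0)
    (hinv : ∀ x ∈ V, chord K u x ∈ V) :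
    ∃ s : ℤ, (∀ i, chord K u (v i) = v (s - i)) ∧
      (∀ i j, cross u (v i) = cross u (v j) ↔ (N : ℤ) ∣ i - j ∨ (N : ℤ) ∣ i + j - s) ∧
      ∀ i j, ¬ (cross u (v i) < cross u (v j) ∧ cross u (v j) < cross u (v (i + 1))) ∧
        ¬ (cross u (v (i + 1)) < cross u (v j) ∧ cross u (v j) < cross u (v i)) := by
  have hcl := hcp.isClosed
  have hK : Convex ℝ K := hs.convex
  have hmem : ∀ i, v i ∈ V := fun i => hr ▸ ⟨i, rfl⟩
  obtain ⟨s, hs0⟩ : ∃ s : ℤ, v s = chord K u (v 0) := by
    have h := hinv (v 0) (hmem 0)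
    rw [← hr] at h
    exact h
  have hrefl : ∀ i : ℤ, chord K u (v i) = v (s - i) := by
    intro i
    induction i using Int.induction_on with
    | zero => rw [sub_zero]; exact hs0.symm
    | succ i ih =>
      have h1 := edge_chord hcp hK hs hV hu hinv (he (i : ℤ))
      rw [ih] at h1
      have h2 := he (s - i - 1)
      rw [sub_add_cancel] at h2
      have h3 := Edge.in_unique hcl hs hV h1 h2
      rw [h3]
      congr 1
      ring
    | pred i ih =>
      have h1 := edge_chord hcp hK hs hV hu hinv (he (-(i : ℤ) - 1))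
      rw [sub_add_cancel, ih] at h1
      have h2 := he (s - -(i : ℤ))
      have h3 := Edge.out_unique hcl hs hV h1 h2
      rw [h3]
      congr 1
      ring
  have hinv' : ∀ x ∈ V, chord K (-u) x ∈ V := fun x hx => by
    rw [chord_neg hcl hs (hV hx)]
    exact hinv x hx
  refine ⟨s, hrefl, fun i j => ⟨fun h => ?_, ?_⟩, fun i j => ⟨?_, ?_⟩⟩
  · rcases eq_of_cross_eq hcl hs hu (hV (hmem j)) (hV (hmem i)) h with h1 | h1
    · exact Or.inl ((hv i j).1 h1)
    · rw [hrefl, hv] at h1
      right
      have : i - (s - j) = i + j - s := by ring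
      rwa [this] at h1
  · rintro (h | h)
    · rw [(hv i j).2 h]
    · have h1 : v i = v (s - j) := by
        rw [hv]
        have : i - (s - j) = i + j - s := by ring
        rwa [this]
      rw [h1, ← hrefl, cross_chord]
  · rintro ⟨h1, h2⟩
    exact (he i).not_between' hcp hK hs hV hu hinv (hmem j) h1 h2
  · rintro ⟨h1, h2⟩
    refine (he i).not_between' hcp hK hs hV (neg_ne_zero.2 hu) hinv' (hmem j) ?_ ?_
    · rw [cross_neg_left, cross_neg_left]; linarith
    · rw [cross_neg_left, cross_neg_left]; linarith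

end ChordMaps
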