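import Mathlib

set_option autoImplicit false

/-! UM-11: the first Fourier coefficient of a symmetric unimodal sequence on a cycle. -/

namespace ChordMaps

theorem um11_shift {N : ℕ} (g : ℤ → ℝ) (hg : ∀ i, g (i + N) = g i) (a : ℤ) :
    ∑ i ∈ Finset.range N, g (i + a) = ∑ i ∈ Finset.range N, g i := by
  have step : ∀ a : ℤ, ∑ i ∈ Finset.range N, g (i + (a + 1))
      = ∑ i ∈ Finset.range N, g (i + a) := by
    intro a
    have h1 := Finset.sum_range_succ' (fun i : ℕ => g (i + a)) N
    have h2 := Finset.sum_range_succ (fun i : ℕ => g (i + a)) N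
    have h3 : g ((N : ℤ) + a) = g (((0 : ℕ) : ℤ) + a) := by
      rw [add_comm, hg]; simp
    have h4 : ∑ i ∈ Finset.range N, g (i + (a + 1))
        = ∑ i ∈ Finset.range N, g (((i + 1 : ℕ) : ℤ) + a) := by
      refine Finset.sum_congr rfl fun i _ => ?_
      congr 1
      push_cast
      ring
    rw [h4]
    linarith
  induction a using Int.induction_on with
  | zero => simp
  | succ n ih => rw [step, ih]
  | pred n ih =>
    have := step (-(n : ℤ) - 1)
    rw [← this, ← ih]
    simp

theorem um11_reflect {N : ℕ} (g : ℤ → ℝ) (hg : ∀ i, g (i + N) = g i) (s : ℤ) :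
    ∑ i ∈ Finset.range N, g (s - i) = ∑ i ∈ Finset.range N, g i := by
  rw [← Finset.sum_range_reflect (fun i : ℕ => g (s - i)) N,
    ← um11_shift g hg (s - N + 1)]
  refine Finset.sum_congr rfl fun i hi => ?_
  have hi' : i < N := Finset.mem_range.1 hi
  congr 1
  have : ((N - 1 - i : ℕ) : ℤ) = (N : ℤ) - 1 - i := by omega
  rw [this]
  ring

theorem um11_per {N : ℕ} (g : ℤ → ℝ) (hg : ∀ i, g (i + N) = g i) (i k : ℤ) :
    g (i + N * k) = g i := by
  induction k using Int.induction_on with
  | zero => simp
  | succ n ih =>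
    rw [← ih, ← hg (i + N * n)]
    congr 1
    ring
  | pred n ih =>
    rw [← ih, ← hg (i + N * (-(n : ℤ) - 1))]
    congr 1
    ring

/-- one step of monotonicity -/
theorem um11_step {N : ℕ} (hN : 3 ≤ N) (x : ℤ → ℝ) (s : ℤ)
    (hx : ∀ i j, x i = x j ↔ (N : ℤ) ∣ i - j ∨ (N : ℤ) ∣ i + j - s)
    (hadj : ∀ i j, ¬ (x i < x j ∧ x j < x (i + 1)) ∧ ¬ (x (i + 1) < x j ∧ x j < x i))
    (i : ℤ) (h1 : 0 < 2 * i + 1 - s) (h2 : 2 * (i + 1) + 1 - s < N) :
    (x (i + 1) < x i → x (i + 1 + 1) < x (i + 1)) ∧
    (x i < x (i + 1) → x (i + 1) < x (i + 1 + 1)) := by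
  have hnd : ∀ m : ℤ, 0 < m → m < N → ¬ (N : ℤ) ∣ m := by
    intro m h0 h1 hd
    exact absurd (Int.le_of_dvd h0 hd) (by omega)
  have e1 : x (i + 1) ≠ x (i + 1 + 1) := by
    intro h
    rcases (hx _ _).1 h with h | h
    · have : (N : ℤ) ∣ 1 := by
        have := (dvd_neg (α := ℤ)).2 h
        simpa using this
      exact hnd 1 (by omega) (by omega) this
    · exact hnd _ (by omega) (by omega) h
  have e2 : x i ≠ x (i + 1 + 1) := by
    intro h
    rcases (hx _ _).1 h with h | h
    · have : (N : ℤ) ∣ 2 := by
        have := (dvd_neg (α := ℤ)).2 h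
        have h2 : -(i - (i + 1 + 1)) = 2 := by ring
        rwa [h2] at this
      exact hnd 2 (by omega) (by omega) this
    · exact hnd _ (by omega) (by omega) h
  constructor
  · intro h
    by_contra hc
    have hlt : x (i + 1) < x (i + 1 + 1) := lt_of_le_of_ne (not_lt.1 hc) e1
    rcases lt_or_gt_of_ne e2 with h3 | h3
    · exact (hadj (i + 1) i).1 ⟨h, h3⟩
    · exact (hadj i (i + 1 + 1)).2 ⟨hlt, h3⟩
  · intro h
    by_contra hc
    have hlt : x (i + 1 + 1) < x (i + 1) := lt_of_le_of_ne (not_lt.1 hc) e1.symm
    rcases lt_or_gt_of_ne e2 with h3 | h3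
    · exact (hadj i (i + 1 + 1)).1 ⟨h3, hlt⟩
    · exact (hadj (i + 1) i).2 ⟨h3, h⟩

/-- UM-11: the first Fourier coefficient of a symmetric unimodal sequence. -/
theorem fourier_ne_zero {N : ℕ} (hN : 3 ≤ N) (x : ℤ → ℝ) (s : ℤ)
    (hx : ∀ i j, x i = x j ↔ (N : ℤ) ∣ i - j ∨ (N : ℤ) ∣ i + j - s)
    (hadj : ∀ i j, ¬ (x i < x j ∧ x j < x (i + 1)) ∧ ¬ (x (i + 1) < x j ∧ x j < x i)) :
    ∑ i ∈ Finset.range N, x i * Real.sin (2 * Real.pi * i / N - Real.pi * s / N) = 0 ∧
    ∑ i ∈ Finset.range N, x i * Real.cos (2 * Real.pi * i / N - Real.pi * s / N) ≠ 0 := by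
  have hN0 : (N : ℝ) ≠ 0 := by
    have : (0 : ℝ) < N := by exact_mod_cast (by omega : 0 < N)
    exact this.ne'
  have hxper : ∀ i, x (i + N) = x i := by
    intro i
    exact (hx _ _).2 (Or.inl (by simp))
  have hxref : ∀ i, x (s - i) = x i := by
    intro i
    exact (hx _ _).2 (Or.inr (by simp))
  have hang : ∀ (i : ℤ) (c : ℝ), 2 * Real.pi * ((i + N : ℤ) : ℝ) / N + c
      = 2 * Real.pi * i / N + c + 2 * Real.pi := by
    intro i c
    push_cast
    field_simp
    ring
  constructor
  · set g : ℤ → ℝ := fun i => x i * Real.sin (2 * Real.pi * i / N - Real.pi * s / N) with hg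
    have hgper : ∀ i, g (i + N) = g i := by
      intro i
      simp only [hg]
      rw [hxper, sub_eq_add_neg, hang, Real.sin_add_two_pi, ← sub_eq_add_neg]
    have hgref : ∀ i, g (s - i) = - g i := by
      intro i
      simp only [hg]
      rw [hxref, ← mul_neg, ← Real.sin_neg]
      congr 2
      push_cast
      field_simp
      ring
    have h1 := um11_reflect g hgper s
    have h2 : ∑ i ∈ Finset.range N, g (s - i) = - ∑ i ∈ Finset.range N, g i := by
      rw [← Finset.sum_neg_distrib]
      exact Finset.sum_congr rfl fun i _ => hgref i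
    have h3 : ∑ i ∈ Finset.range N, g i = 0 := by linarith
    simpa [hg] using h3
  · set S : ℤ → ℝ := fun i => Real.sin (Real.pi * (2 * i + 1 - s) / N) with hS
    set d : ℤ → ℝ := fun i => x i - x (i + 1) with hd
    have hSper : ∀ i, S (i + N) = S i := by
      intro i
      simp only [hS]
      rw [← Real.sin_add_two_pi (Real.pi * (2 * (i : ℝ) + 1 - s) / N)]
      congr 1
      push_cast
      field_simp
      ring
    have hdper : ∀ i, d (i + N) = d i := by
      intro i
      simp only [hd]
      rw [hxper, show i + N + 1 = (i + 1) + N by ring, hxper]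
    set σ : ℤ → ℝ := fun i => d i * S i with hσ
    have hσper : ∀ i, σ (i + N) = σ i := by
      intro i
      simp only [hσ]
      rw [hdper, hSper]
    have hSref : ∀ i, S (s - 1 - i) = - S i := by
      intro i
      simp only [hS]
      rw [← Real.sin_neg]
      congr 1
      push_cast
      field_simp
      ring
    have hdref : ∀ i, d (s - 1 - i) = - d i := by
      intro i
      simp only [hd]
      have h1 : x (s - 1 - i) = x (i + 1) := by
        rw [← hxref (i + 1)]
        congr 1
        ring
      have h2 : x (s - 1 - i + 1) = x i := by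
        rw [← hxref i]
        congr 1
        ring
      rw [h1, h2]
      ring
    have hσref : ∀ i, σ (s - 1 - i) = σ i := by
      intro i
      simp only [hσ]
      rw [hdref, hSref]
      ring
    -- Abel summation
    have habel : 2 * Real.sin (Real.pi / N)
        * ∑ i ∈ Finset.range N, x i * Real.cos (2 * Real.pi * i / N - Real.pi * s / N)
        = ∑ i ∈ Finset.range N, σ i := by
      have h1 : ∀ i : ℤ, 2 * Real.sin (Real.pi / N)
          * (x i * Real.cos (2 * Real.pi * i / N - Real.pi * s / N))
          = x i * S i - x i * S (i - 1) := by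
        intro i
        have h := Real.sin_sub_sin (Real.pi * (2 * i + 1 - s) / N)
          (Real.pi * (2 * (i - 1 : ℝ) + 1 - s) / N)
        have e1 : (Real.pi * (2 * (i : ℝ) + 1 - s) / N - Real.pi * (2 * (i - 1 : ℝ) + 1 - s) / N) / 2
            = Real.pi / N := by
          field_simp
          ring
        have e2 : (Real.pi * (2 * (i : ℝ) + 1 - s) / N + Real.pi * (2 * (i - 1 : ℝ) + 1 - s) / N) / 2
            = 2 * Real.pi * i / N - Real.pi * s / N := by
          field_simp
          ring
        rw [e1, e2] at h
        simp only [hS]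
        push_cast
        rw [← mul_sub, h]
        ring
      have h2 : ∑ i ∈ Finset.range N, x i * S (i - 1)
          = ∑ i ∈ Finset.range N, x ((i : ℤ) + 1) * S i := by
        have h3 := um11_shift (fun i => x i * S (i - 1))
          (by
            intro i
            show x (i + N) * S (i + N - 1) = x i * S (i - 1)
            rw [hxper, show i + N - 1 = (i - 1) + N by ring, hSper]) 1
        simp only [add_sub_cancel_right] at h3
        exact h3.symm
      rw [Finset.mul_sum]
      have h4 : ∑ i ∈ Finset.range N, 2 * Real.sin (Real.pi / N)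
          * (x i * Real.cos (2 * Real.pi * i / N - Real.pi * s / N))
          = ∑ i ∈ Finset.range N, (x i * S i - x i * S ((i : ℤ) - 1)) := by
        refine Finset.sum_congr rfl fun i _ => ?_
        have := h1 (i : ℤ)
        simpa using this
      rw [h4, Finset.sum_sub_distrib, h2, ← Finset.sum_sub_distrib]
      refine Finset.sum_congr rfl fun i _ => ?_
      simp only [hσ, hd]
      ring
    -- nonzero
    suffices hne : ∑ i ∈ Finset.range N, σ i ≠ 0 by
      intro h0
      rw [h0, mul_zero] at habel
      exact hne habel.symm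
    -- first index
    obtain ⟨i0, hi0, hi0'⟩ : ∃ i0 : ℤ, 0 < 2 * i0 + 1 - s ∧ 2 * i0 + 1 - s ≤ 2 := by
      refine ⟨(s + 1) / 2, ?_, ?_⟩ <;> omega
    have hSpos : ∀ i : ℤ, 0 < 2 * i + 1 - s → 2 * i + 1 - s < N → 0 < S i := by
      intro i h1 h2
      simp only [hS]
      have h1' : (0 : ℝ) < 2 * i + 1 - s := by exact_mod_cast h1
      have h2' : (2 * i + 1 - s : ℝ) < N := by exact_mod_cast h2
      have hNp : (0 : ℝ) < N := by linarith
      apply Real.sin_pos_of_pos_of_lt_pi
      · have := Real.pi_pos
        positivity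
      · rw [div_lt_iff₀ hNp]
        exact mul_lt_mul_of_pos_left h2' Real.pi_pos
    have hd0 : ∀ i : ℤ, (N : ℤ) ∣ 2 * i + 1 - s → d i = 0 := by
      intro i h
      simp only [hd]
      have : x i = x (i + 1) := (hx _ _).2 (Or.inr (by
        rw [show i + (i + 1) - s = 2 * i + 1 - s by ring]; exact h))
      linarith
    have hdi0 : d i0 ≠ 0 := by
      intro h
      simp only [hd] at h
      have h' : x i0 = x (i0 + 1) := by linarith
      rcases (hx _ _).1 h' with h | h
      · have h1 := (dvd_neg (α := ℤ)).2 h
        rw [show -(i0 - (i0 + 1)) = 1 by ring] at h1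
        exact absurd (Int.le_of_dvd (by omega) h1) (by omega)
      · exact absurd (Int.le_of_dvd (by omega) h) (by omega)
    -- main positivity lemma, for a sign e
    have key : ∀ e : ℝ, 0 < e * d i0 → 0 < e * ∑ i ∈ Finset.range N, σ i := by
      intro e he
      have hpos : ∀ n : ℕ, 2 * (i0 + n) + 1 - s < N → 0 < e * d (i0 + n) := by
        intro n
        induction n with
        | zero => intro _; simpa using he
        | succ n ih =>
          intro h
          have hn : 2 * (i0 + n) + 1 - s < N := by push_cast at h; omega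
          have h1 := ih hn
          have h2 := um11_step hN x s hx hadj (i0 + n) (by omega) (by push_cast at h; omega)
          have e3 : i0 + ((n + 1 : ℕ) : ℤ) = i0 + n + 1 := by push_cast; ring
          rw [e3]
          simp only [hd] at h1 ⊢
          rcases lt_trichotomy e 0 with h3 | h3 | h3
          · have h4 : x (i0 + n) < x (i0 + n + 1) := by
              by_contra hc
              have : 0 ≤ x (i0 + n) - x (i0 + n + 1) := by linarith [not_lt.1 hc]
              nlinarith
            have h5 := h2.2 h4
            nlinarith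
          · rw [h3] at h1; simp at h1
          · have h4 : x (i0 + n + 1) < x (i0 + n) := by
              by_contra hc
              have : x (i0 + n) - x (i0 + n + 1) ≤ 0 := by linarith [not_lt.1 hc]
              nlinarith
            have h5 := h2.1 h4
            nlinarith
      have hpos' : ∀ i : ℤ, 0 < 2 * i + 1 - s → 2 * i + 1 - s < N → 0 < e * σ i := by
        intro i h1 h2
        obtain ⟨n, hn⟩ : ∃ n : ℕ, i = i0 + n := by
          refine ⟨(i - i0).toNat, ?_⟩
          rw [Int.toNat_of_nonneg (by omega)]
          ring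
        have h3 := hpos n (by rw [← hn]; exact h2)
        rw [← hn] at h3
        have h4 := hSpos i h1 h2
        simp only [hσ]
        have := mul_pos h3 h4
        linarith [mul_assoc e (d i) (S i)]
      have hnn : ∀ i : ℤ, 0 ≤ 2 * i + 1 - s → 2 * i + 1 - s < 2 * N → 0 ≤ e * σ i := by
        intro i h1 h2
        rcases eq_or_lt_of_le h1 with h | h
        · have := hd0 i (by rw [← h]; exact dvd_zero _)
          simp [hσ, this]
        · rcases lt_trichotomy (2 * i + 1 - s) (N : ℤ) with h3 | h3 | h3
          · exact (hpos' i h h3).le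
          · have := hd0 i (by rw [h3])
            simp [hσ, this]
          · have h4 := hpos' (s - 1 - i + N) (by omega) (by omega)
            rw [hσper, hσref] at h4
            exact h4.le
      have hall : ∀ i : ℤ, 0 ≤ e * σ i := by
        intro i
        have hNp : (0 : ℤ) < 2 * N := by omega
        set q := (2 * i + 1 - s) / (2 * N) with hq
        have h1 := Int.emod_nonneg (2 * i + 1 - s) hNp.ne'
        have h2 := Int.emod_lt_of_pos (2 * i + 1 - s) hNp
        have h3 := Int.emod_add_mul_ediv (2 * i + 1 - s) (2 * N)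
        have h4 : 2 * (i + N * (-q)) + 1 - s = (2 * i + 1 - s) % (2 * N) := by
          rw [← hq] at h3
          linarith
        have h5 := hnn (i + N * (-q)) (by rw [h4]; exact h1) (by rw [h4]; exact h2)
        rwa [um11_per σ hσper] at h5
      rw [Finset.mul_sum]
      have hNz : (0 : ℤ) < N := by omega
      have hr1 := Int.emod_nonneg i0 hNz.ne'
      have hr2 := Int.emod_lt_of_pos i0 hNz
      have hr3 := Int.emod_add_mul_ediv i0 N
      have hpp : 0 < e * σ (i0 % N) := by
        have h1 := hpos' i0 hi0 (by omega)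
        have h2 : i0 % N = i0 + N * (-(i0 / N)) := by linarith
        rw [h2, um11_per σ hσper]
        exact h1
      refine Finset.sum_pos' (fun (i : ℕ) _ => hall (i : ℤ))
        ⟨(i0 % N).toNat, Finset.mem_range.2 (by omega), ?_⟩
      rw [Int.toNat_of_nonneg hr1]
      exact hpp
    intro h0
    rcases lt_or_gt_of_ne hdi0 with h | h
    · have := key (-1) (by linarith)
      rw [h0] at this
      simp at this
    · have := key 1 (by linarith)
      rw [h0] at this
      simp at this

end ChordMaps
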