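import Pool.Agent.Helper3.Chord.UM9
import Pool.Agent.Helper3.Chord.UM10
import Pool.Agent.Helper3.Chord.UM11

set_option autoImplicit false

/-! # Directions with a finite invariant set (Gardner and McMullen) -/

namespace ChordMaps

variable {K V : Set Plane}

lemma um12_plucker (u w a b : Plane) :
    cross u a * cross w b - cross u b * cross w a = cross u w * cross a b := by
  simp only [cross]; ring

lemma um12_cross_sum {ι : Type*} (s : Finset ι) (u : Plane) (c : ι → ℝ) (y : ι → Plane) :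
    cross u (∑ i ∈ s, c i • y i) = ∑ i ∈ s, c i * cross u (y i) := by
  classical
  induction s using Finset.induction_on with
  | empty => simp [cross]
  | insert i s hi ih =>
    rw [Finset.sum_insert hi, Finset.sum_insert hi, cross_add_right, cross_smul_right, ih]

/-- the sums against cosines and sines -/
noncomputable def um12A (N : ℕ) (v : ℤ → Plane) : Plane :=
  ∑ i ∈ Finset.range N, Real.cos (2 * Real.pi * i / N) • v i

noncomputable def um12B (N : ℕ) (v : ℤ → Plane) : Plane :=
  ∑ i ∈ Finset.range N, Real.sin (2 * Real.pi * i / N) • v i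

lemma um12_rho {N : ℕ} (v : ℤ → Plane) (u : Plane) (θ : ℝ)
    (h1 : ∑ i ∈ Finset.range N, cross u (v i) * Real.sin (2 * Real.pi * i / N - θ) = 0)
    (h2 : ∑ i ∈ Finset.range N, cross u (v i) * Real.cos (2 * Real.pi * i / N - θ) ≠ 0) :
    ∃ ρ : ℝ, ρ ≠ 0 ∧ cross u (um12A N v) = ρ * Real.cos θ ∧
      cross u (um12B N v) = ρ * Real.sin θ := by
  set ρ : ℝ := ∑ i ∈ Finset.range N, cross u (v i) * Real.cos (2 * Real.pi * i / N - θ)
    with hρ
  have hA : cross u (um12A N v) =
      ∑ i ∈ Finset.range N, Real.cos (2 * Real.pi * i / N) * cross u (v i) :=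
    um12_cross_sum _ _ _ _
  have hB : cross u (um12B N v) =
      ∑ i ∈ Finset.range N, Real.sin (2 * Real.pi * i / N) * cross u (v i) :=
    um12_cross_sum _ _ _ _
  have e1 : cross u (um12B N v) * Real.cos θ - cross u (um12A N v) * Real.sin θ = 0 := by
    rw [← h1, hA, hB, Finset.sum_mul, Finset.sum_mul, ← Finset.sum_sub_distrib]
    refine Finset.sum_congr rfl fun i _ => ?_
    rw [Real.sin_sub]
    ring
  have e2 : cross u (um12A N v) * Real.cos θ + cross u (um12B N v) * Real.sin θ = ρ := by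
    rw [hρ, hA, hB, Finset.sum_mul, Finset.sum_mul, ← Finset.sum_add_distrib]
    refine Finset.sum_congr rfl fun i _ => ?_
    rw [Real.cos_sub]
    ring
  have hcs := Real.sin_sq_add_cos_sq θ
  refine ⟨ρ, h2, ?_, ?_⟩
  · linear_combination (-Real.sin θ) * e1 + (Real.cos θ) * e2
      - (cross u (um12A N v)) * hcs
  · linear_combination (Real.cos θ) * e1 + (Real.sin θ) * e2
      - (cross u (um12B N v)) * hcs

lemma um12_ncard (hcp : IsCompact K) (hs : StrictConvex ℝ K)
    (hsm : Smooth K) (hVf : V.Finite) (hVne : V.Nonempty) (hV : V ⊆ frontier K)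
    (w : Fin 3 → Plane) (hw : PNP w) (hinv : ∀ i, ∀ x ∈ V, chord K (w i) x ∈ V) :
    3 ≤ V.ncard := by
  obtain ⟨x, hx⟩ := hVne
  have hinj : Function.Injective (fun i : Fin 3 => chord K (w i) x) := by
    intro i j hij
    by_contra hne
    exact chord_ne_chord hcp hs hsm (hw i j hne) (hV hx) hij
  have hsub : Set.range (fun i : Fin 3 => chord K (w i) x) ⊆ V := by
    rintro _ ⟨i, rfl⟩
    exact hinv i x hx
  have h1 := Set.ncard_le_ncard hsub hVf
  rw [← Set.image_univ, Set.ncard_image_of_injective _ hinj, Set.ncard_univ] at h1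
  simpa using h1

lemma um12_sin_ne {N : ℕ} (hN : 0 < N) (s t : ℤ) (h : ¬ (N : ℤ) ∣ s - t) :
    Real.sin (Real.pi * s / N - Real.pi * t / N) ≠ 0 := by
  intro h0
  obtain ⟨k, hk⟩ := Real.sin_eq_zero_iff.1 h0
  apply h
  refine ⟨k, ?_⟩
  have hN' : (N : ℝ) ≠ 0 := by positivity
  have hpi := Real.pi_ne_zero
  field_simp at hk
  have h2 : (N : ℝ) * k = s - t := by linarith
  exact_mod_cast h2.symm

theorem gardner_mcmullen {K : Set Plane} (hcp : IsCompact K) (hs : StrictConvex ℝ K)
    (hsm : Smooth K) {V : Set Plane} (hVf : V.Finite) (hVne : V.Nonempty) (hV : V ⊆ frontier K)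
    (w : Fin 3 → Plane) (hw : PNP w) (hinv : ∀ i, ∀ x ∈ V, chord K (w i) x ∈ V) :
    ∃ (n : ℕ) (A : Plane ≃L[ℝ] Plane), 2 ≤ n ∧
      ∀ u : Plane, u ≠ 0 → (∀ x ∈ V, chord K u x ∈ V) →
        ∃ (j : ℤ) (c : ℝ), c ≠ 0 ∧ u = c • A (dir n j) := by
  have h3 : 3 ≤ V.ncard := um12_ncard hcp hs hsm hVf hVne hV w hw hinv
  obtain ⟨v, hv, hr, he⟩ := exists_enum hcp hs hVf hV h3
  set N := V.ncard with hNdef
  have key : ∀ u : Plane, u ≠ 0 → (∀ x ∈ V, chord K u x ∈ V) →
      ∃ s : ℤ, (∀ i, chord K u (v i) = v (s - i)) ∧ ∃ ρ : ℝ, ρ ≠ 0 ∧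
        cross u (um12A N v) = ρ * Real.cos (Real.pi * s / N) ∧
        cross u (um12B N v) = ρ * Real.sin (Real.pi * s / N) := by
    intro u hu hin
    obtain ⟨s, hs1, hs2, hs3⟩ := exists_reflection hcp hs hV v hv hr he hu hin
    obtain ⟨f1, f2⟩ := fourier_ne_zero h3 (fun i => cross u (v i)) s hs2 hs3
    exact ⟨s, hs1, um12_rho v u _ f1 f2⟩
  have hw0 : ∀ i, w i ≠ 0 := by
    intro i h
    obtain ⟨j, hj⟩ : ∃ j : Fin 3, i ≠ j := by
      fin_cases i
      · exact ⟨1, by decide⟩
      · exact ⟨0, by decide⟩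
      · exact ⟨0, by decide⟩
    exact hw i j hj (by rw [h]; simp [cross])
  have hab : cross (um12A N v) (um12B N v) ≠ 0 := by
    obtain ⟨s, hs1, ρ, hρ, hA, hB⟩ := key (w 0) (hw0 0) (hinv 0)
    obtain ⟨s', hs1', ρ', hρ', hA', hB'⟩ := key (w 1) (hw0 1) (hinv 1)
    intro h0
    have hpl := um12_plucker (w 0) (w 1) (um12A N v) (um12B N v)
    rw [h0, mul_zero, hA, hB, hA', hB'] at hpl
    have hns : ¬ (N : ℤ) ∣ s' - s := by
      intro hd
      have hx : v 0 ∈ V := by rw [← hr]; exact ⟨0, rfl⟩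
      refine chord_ne_chord hcp hs hsm (hw 1 0 (by decide)) (hV hx) ?_
      rw [hs1, hs1']
      rw [hv]
      simpa using hd
    have hsin := um12_sin_ne (by omega) s' s hns
    rw [Real.sin_sub] at hsin
    have : ρ * ρ' * (Real.sin (Real.pi * s' / N) * Real.cos (Real.pi * s / N) -
        Real.cos (Real.pi * s' / N) * Real.sin (Real.pi * s / N)) = 0 := by
      linarith
    exact mul_ne_zero (mul_ne_zero hρ hρ') hsin this
  set a := um12A N v with ha
  set b := um12B N v with hb
  let L : Plane →ₗ[ℝ] Plane :=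
    { toFun := fun e => (-(e 0)) • b + (e 1) • a
      map_add' := fun e f => by
        simp only [PiLp.add_apply]
        module
      map_smul' := fun c e => by
        simp only [PiLp.smul_apply, smul_eq_mul, RingHom.id_apply]
        module }
  have hLinj : Function.Injective L := by
    rw [injective_iff_map_eq_zero]
    intro e h0
    have h1 : (-(e 0)) • b + (e 1) • a = 0 := h0
    have h2 : cross a ((-(e 0)) • b + (e 1) • a) = 0 := by rw [h1]; simp [cross]
    have h4 : cross b ((-(e 0)) • b + (e 1) • a) = 0 := by rw [h1]; simp [cross]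
    rw [cross_add_right, cross_smul_right, cross_smul_right, cross_self] at h2 h4
    have h5 : cross b a = - cross a b := by simp only [cross]; ring
    rw [h5] at h4
    have e0 : e 0 = 0 := by
      have : e 0 * cross a b = 0 := by linarith
      exact (mul_eq_zero.1 this).resolve_right hab
    have e1 : e 1 = 0 := by
      have : e 1 * cross a b = 0 := by linarith
      exact (mul_eq_zero.1 this).resolve_right hab
    ext i
    fin_cases i
    · simpa using e0
    · simpa using e1
  let A : Plane ≃L[ℝ] Plane :=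
    (LinearEquiv.ofInjectiveEndo L hLinj).toContinuousLinearEquiv
  have hAapp : ∀ e, A e = (-(e 0)) • b + (e 1) • a := fun e => rfl
  refine ⟨N, A, by omega, fun u hu hin => ?_⟩
  obtain ⟨s, -, ρ, hρ, hA, hB⟩ := key u hu hin
  have hz : cross u (A (dir N s)) = 0 := by
    rw [hAapp, cross_add_right, cross_smul_right, cross_smul_right, hA, hB]
    simp only [dir]
    simp
    ring
  obtain ⟨t, ht⟩ := exists_smul_of_cross_eq_zero hu hz
  have hdir : dir N s ≠ 0 := by
    intro h
    have h0 : (dir N s) 0 = 0 := by rw [h]; simp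
    have h1 : (dir N s) 1 = 0 := by rw [h]; simp
    have hcs := Real.sin_sq_add_cos_sq (Real.pi * s / N)
    simp only [dir] at h0 h1
    simp at h0 h1
    rw [h0, h1] at hcs
    norm_num at hcs
  have ht0 : t ≠ 0 := by
    rintro rfl
    rw [zero_smul] at ht
    exact hdir (by simpa using ht)
  refine ⟨s, t⁻¹, inv_ne_zero ht0, ?_⟩
  rw [ht, smul_smul, inv_mul_cancel₀ ht0, one_smul]

end ChordMaps
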