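import Pool.Agent.Helper3.Chord.UDefs
import Pool.Agent.Helper3.Chord.CM2

set_option autoImplicit false

namespace ChordMaps

/-- pairwise non-parallel vectors have mutual cross products at least `1 / (n + 1)` -/
lemma um2_minCross {r : ℕ} (u : Fin r → Plane) (hu : PNP u) :
    ∃ n : ℕ, ∀ i j, i ≠ j → 1 / ((n : ℝ) + 1) ≤ |cross (u i) (u j)| := by
  have h : ∀ i j, ∃ n : ℕ, i ≠ j → 1 / ((n : ℝ) + 1) ≤ |cross (u i) (u j)| := by
    intro i j
    by_cases hij : i = j
    · exact ⟨0, fun h => absurd hij h⟩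
    · obtain ⟨n, hn⟩ := exists_nat_one_div_lt (abs_pos.2 (hu i j hij))
      exact ⟨n, fun _ => hn.le⟩
  choose n hn using h
  refine ⟨∑ i, ∑ j, n i j, fun i j hij => le_trans ?_ (hn i j hij)⟩
  have h1 : n i j ≤ ∑ i, ∑ j, n i j :=
    (Finset.single_le_sum (f := fun j => n i j) (fun _ _ => Nat.zero_le _)
      (Finset.mem_univ j)).trans
      (Finset.single_le_sum (f := fun i => ∑ j, n i j) (fun _ _ => Nat.zero_le _)
        (Finset.mem_univ i))
  have h2 : (n i j : ℝ) ≤ ((∑ i, ∑ j, n i j : ℕ) : ℝ) := by exact_mod_cast h1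
  apply one_div_le_one_div_of_le (by positivity)
  linarith

open Classical in
/-- UM-2: reindexing of a good subgraph -/
theorem exists_good_configU {K : Set Plane} {r : ℕ} (u : Fin r → Plane) (hu1 : ∀ i, ‖u i‖ = 1)
    (hu : PNP u) (T : Finset Plane) (H : Finset (Plane × Fin r))
    (hT : (T : Set Plane) ⊆ frontier K) (hH : ∀ p ∈ H, p.1 ∈ T ∧ chord K (u p.2) p.1 ∈ T)
    (hcard : T.card + (r + 1) ≤ H.card)
    (hst : ∀ u' : Fin r → Plane, PNP u' → ∀ φ : Plane × Fin r → ℝ,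
      (∀ y : Plane → Plane, ∑ p ∈ H, φ p * cross (u' p.2) (y p.1 - y (chord K (u p.2) p.1)) = 0) →
      ∀ p ∈ H, φ p = 0) :
    ∃ (N : ℕ) (e : Finset (Fin N × Fin N × Fin r)) (n : ℕ), GoodU e ∧ ConfigU K e n := by
  have hHne : H.Nonempty := Finset.card_pos.1 (by omega)
  obtain ⟨p₀, hp₀⟩ := hHne
  set N := T.card with hN
  let i₀ : Fin N := T.equivFin ⟨p₀.1, (hH p₀ hp₀).1⟩
  let ι : Plane → Fin N := fun x => if h : x ∈ T then T.equivFin ⟨x, h⟩ else i₀
  let y : Fin N → Plane := fun a => (T.equivFin.symm a : Plane)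
  have hyT : ∀ a, y a ∈ T := fun a => (T.equivFin.symm a).2
  have hyi : Function.Injective y := fun a b h => T.equivFin.symm.injective (Subtype.ext h)
  have hyι : ∀ x ∈ T, y (ι x) = x := by
    intro x hx
    simp [y, ι, hx]
  let g : Plane × Fin r → Fin N × Fin N × Fin r :=
    fun p => (ι p.1, ι (chord K (u p.2) p.1), p.2)
  have hg : Set.InjOn g H := by
    rintro ⟨x, κ⟩ hx ⟨x', κ'⟩ hx' h
    simp only [g, Prod.mk.injEq] at h
    obtain ⟨h1, -, h3⟩ := h
    subst h3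
    have := hyι x (hH _ hx).1
    rw [h1, hyι x' (hH _ hx').1] at this
    rw [this]
  obtain ⟨n1, hn1⟩ := cm2_minDist y hyi
  obtain ⟨n2, hn2⟩ := um2_minCross u hu
  have hmono : ∀ n m : ℕ, n ≤ m → 1 / ((m : ℝ) + 1) ≤ 1 / ((n : ℝ) + 1) := by
    intro n m h
    have : (n : ℝ) ≤ m := by exact_mod_cast h
    apply one_div_le_one_div_of_le (by positivity)
    linarith
  refine ⟨N, H.image g, n1 + n2, ⟨?_, ?_⟩, u, y, hu1, ?_, fun i => hT (hyT i), ?_, ?_⟩
  · rw [Finset.card_image_of_injOn hg]; omega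
  · intro u' hu' φ hφ p hp
    obtain ⟨q, hq, rfl⟩ := Finset.mem_image.1 hp
    refine hst u' hu' (fun q => φ (g q)) ?_ q hq
    intro z
    rw [← hφ (fun a => z (y a)), Finset.sum_image hg]
    refine Finset.sum_congr rfl fun q hq => ?_
    simp only [g]
    rw [hyι _ (hH q hq).1, hyι _ (hH q hq).2]
  · intro i j hij
    exact (hmono n2 _ (Nat.le_add_left _ _)).trans (hn2 i j hij)
  · intro i j hij
    exact (hmono n1 _ (Nat.le_add_right _ _)).trans (hn1 i j hij)
  · intro p hp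
    obtain ⟨q, hq, rfl⟩ := Finset.mem_image.1 hp
    simp only [g]
    rw [hyι _ (hH q hq).1, hyι _ (hH q hq).2, cross_sub_right, cross_chord, sub_self]

end ChordMaps
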