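import Pool.Agent.Helper3.Chord.UDefs
import Pool.Agent.Helper3.Chord.Limits

set_option autoImplicit false

/-!
# UM-3: bodies admitting a uniform configuration form a closed set
-/

namespace ChordMaps

open Topology Metric Filter

theorem isClosed_configU {r N : ℕ} (e : Finset (Fin N × Fin N × Fin r)) (n : ℕ) :
    IsClosed {K : Body | ConfigU K.carrier e n} := by
  apply IsSeqClosed.isClosed
  intro K K0 hK hlim
  have hlim1 : ∀ᶠ m in atTop, dist (K m) K0 < 1 := (Metric.tendsto_nhds.1 hlim) _ one_pos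
  obtain ⟨m0, hm0⟩ := eventually_atTop.1 hlim1
  choose u y hu1 huc hyf hyd hye using hK
  set C : Set Plane := cthickening 1 K0.carrier with hC
  have hCc : IsCompact C := (cm3_isCompact K0).cthickening
  have hcpt : IsCompact ((Set.univ.pi (fun _ : Fin r => sphere (0 : Plane) 1)) ×ˢ
      (Set.univ.pi (fun _ : Fin N => C))) :=
    (isCompact_univ_pi (fun _ => isCompact_sphere _ _)).prod (isCompact_univ_pi (fun _ => hCc))
  obtain ⟨⟨u0, y0⟩, h0, φ, hφ, huyφ⟩ :=
    hcpt.tendsto_subseq (x := fun m => (u (m + m0), y (m + m0))) (by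
      intro m
      refine ⟨fun i _ => ?_, fun i _ => ?_⟩
      · simp [hu1 (m + m0) i]
      · exact cm3_mem_cthickening (hm0 _ (by omega))
          ((cm3_isCompact _).isClosed.frontier_subset (hyf (m + m0) i)))
  set ψ : ℕ → ℕ := fun m => φ m + m0 with hψ
  have hψt : Tendsto ψ atTop atTop :=
    (tendsto_add_atTop_nat m0).comp hφ.tendsto_atTop
  have hKψ : Tendsto (fun m => K (ψ m)) atTop (𝓝 K0) := hlim.comp hψt
  have huyψ : Tendsto (fun m => (u (ψ m), y (ψ m))) atTop (𝓝 (u0, y0)) := huyφ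
  have huψ : Tendsto (fun m => u (ψ m)) atTop (𝓝 u0) := (continuous_fst.tendsto _).comp huyψ
  have hyψ : Tendsto (fun m => y (ψ m)) atTop (𝓝 y0) := (continuous_snd.tendsto _).comp huyψ
  have hui : ∀ i, Tendsto (fun m => u (ψ m) i) atTop (𝓝 (u0 i)) := fun i =>
    (tendsto_pi_nhds.1 huψ) i
  have hyi : ∀ i, Tendsto (fun m => y (ψ m) i) atTop (𝓝 (y0 i)) := fun i =>
    (tendsto_pi_nhds.1 hyψ) i
  refine ⟨u0, y0, fun i => ?_, fun i j hij => ?_, fun i => ?_, fun i j hij => ?_,
    fun p hp => ?_⟩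
  · have h1 := h0.1 i (Set.mem_univ i)
    simpa using h1
  · have h1 : Tendsto (fun m => |cross (u (ψ m) i) (u (ψ m) j)|) atTop
        (𝓝 |cross (u0 i) (u0 j)|) := by
      have h2 := continuous_cross.tendsto (u0 i, u0 j)
      exact (h2.comp ((hui i).prodMk_nhds (hui j))).abs
    exact ge_of_tendsto h1 (Eventually.of_forall fun m => huc (ψ m) i j hij)
  · exact cm3_frontier_of_tendsto hKψ (hyi i) (fun m => hyf (ψ m) i)
  · exact ge_of_tendsto ((hyi i).dist (hyi j))
      (Eventually.of_forall fun m => hyd (ψ m) i j hij)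
  · have h1 : Tendsto (fun m => cross (u (ψ m) p.2.2) (y (ψ m) p.1 - y (ψ m) p.2.1)) atTop
        (𝓝 (cross (u0 p.2.2) (y0 p.1 - y0 p.2.1))) := by
      have h2 := continuous_cross.tendsto (u0 p.2.2, y0 p.1 - y0 p.2.1)
      exact h2.comp ((hui p.2.2).prodMk_nhds ((hyi p.1).sub (hyi p.2.1)))
    refine tendsto_nhds_unique h1 ?_
    simp only [hye (ψ _) p hp]
    exact tendsto_const_nhds

end ChordMaps
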