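import Pool.Agent.Helper3.Chord.UM5
import Pool.Agent.Helper3.Chord.CM7

set_option autoImplicit false

/-!
# UM-6: bodies without a configuration are dense
-/

namespace ChordMaps

open Topology

/-- a box contains a point outside of finitely many sets of small dimension -/
lemma um6_avoid {ι : Type*} [Finite ι] {M : ℕ} (B : ι → Set (Fin M → ℝ))
    (hB : ∀ a, dimH (B a) < (M : ENNReal)) (α β : Fin M → ℝ) (hαβ : ∀ k, α k < β k) :
    ∃ c : Fin M → ℝ, (∀ k, α k < c k ∧ c k < β k) ∧ ∀ a, c ∉ B a := by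
  rcases isEmpty_or_nonempty ι with h | h
  · exact ⟨fun k => (α k + β k) / 2, fun k => ⟨by linarith [hαβ k], by linarith [hαβ k]⟩,
      fun a => (h.false a).elim⟩
  have hdim : dimH (⋃ a, B a) < (Module.finrank ℝ (Fin M → ℝ) : ENNReal) := by
    rw [dimH_iUnion, Module.finrank_fin_fun]
    obtain ⟨a, ha⟩ := exists_eq_ciSup_of_finite (f := fun a => dimH (B a))
    rw [← ha]
    exact hB a
  have hdense : Dense (⋃ a, B a)ᶜ := dense_compl_of_dimH_lt_finrank hdim
  have hbox : IsOpen (Set.pi Set.univ (fun k => Set.Ioo (α k) (β k))) :=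
    isOpen_set_pi Set.finite_univ fun k _ => isOpen_Ioo
  have hne : (Set.pi Set.univ (fun k => Set.Ioo (α k) (β k))).Nonempty :=
    ⟨fun k => (α k + β k) / 2, fun k _ => ⟨by linarith [hαβ k], by linarith [hαβ k]⟩⟩
  obtain ⟨c, hc, hc'⟩ := hdense.inter_open_nonempty _ hbox hne
  exact ⟨c, fun k => hc k (Set.mem_univ _), fun a ha => hc' (Set.mem_iUnion.2 ⟨a, ha⟩)⟩

/-- UM-6 -/
theorem dense_compl_configU {r N : ℕ} (e : Finset (Fin N × Fin N × Fin r)) (n : ℕ)
    (hg : GoodU e) : Dense {K : Body | ConfigU K.carrier e n}ᶜ := by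
  classical
  rw [Metric.dense_iff]
  intro K₀ δ hδ
  have hK₀c : IsCompact (K₀.1 : Set Plane) := K₀.1.isCompact
  have hK₀n : (K₀.1 : Set Plane).Nonempty := K₀.1.nonempty
  obtain ⟨R, L, hR, hLc, hLcx, hKL, hLK, hmod⟩ :=
    exists_ballHull hK₀c hK₀n K₀.2.1 (ε := δ / 3) (by positivity)
  have hLne : L.Nonempty := hK₀n.mono hKL
  have hn : (0 : ℝ) < 1 / ((n : ℝ) + 1) := by positivity
  obtain ⟨ε, hε, hεδ, hεn⟩ : ∃ ε : ℝ, 0 < ε ∧ ε ≤ δ / 3 ∧
      Real.sqrt (8 * R * ε) + 2 * ε < 1 / ((n : ℝ) + 1) := by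
    have hc : Continuous fun ε : ℝ => Real.sqrt (8 * R * ε) + 2 * ε := by fun_prop
    have h0 : Real.sqrt (8 * R * 0) + 2 * 0 < 1 / ((n : ℝ) + 1) := by simpa using hn
    have h1 := (hc.tendsto 0).eventually_lt_const h0
    obtain ⟨r, hr, hball⟩ := Metric.eventually_nhds_iff.mp h1
    refine ⟨min (r / 2) (δ / 3), by positivity, min_le_right _ _, hball ?_⟩
    have h2 : 0 < min (r / 2) (δ / 3) := by positivity
    have h3 : min (r / 2) (δ / 3) ≤ r / 2 := min_le_left _ _
    rw [Real.dist_eq, sub_zero, abs_of_pos h2]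
    linarith
  let u0 : Fin 3 → Plane := fun _ => !₂[1, 0]
  have hu0 : ∀ i, u0 i ≠ 0 := by
    intro i h
    have := congrArg (fun x : Plane => x 0) h
    simp [u0] at this
  obtain ⟨M, ν, α, β, hνu, hαβ, hαL, hβL⟩ := exists_halfplanes hLc hLne hLcx u0 hu0 hε
  have hν : ∀ k, ν k ≠ 0 := by
    intro k hk
    apply hνu k 0
    rw [hk, inner_zero_left]
  -- the bad sets
  let ι := {k : Fin N → Fin M // Function.Injective k}
  obtain ⟨c, hc, hcr⟩ := um6_avoid (ι := ι)
    (fun k => {c : Fin M → ℝ | ∃ (u : Fin r → Plane) (y : Fin N → Plane), (∀ i, ‖u i‖ = 1) ∧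
      PNP u ∧ (∀ i, inner ℝ (ν (k.1 i)) (y i) = c (k.1 i)) ∧
      ∀ p ∈ e, cross (u p.2.2) (y p.1 - y p.2.1) = 0})
    (fun k => dimH_bad_lt e hg ν k.1 k.2) α β hαβ
  have hLQ : L ⊆ cm7Q ν c := fun x hx k => (hαL k x hx).trans (hc k).1.le
  have hQL : cm7Q ν c ⊆ Metric.cthickening ε L :=
    fun z hz => hβL z fun k => (hz k).trans (hc k).2.le
  have hQc : IsCompact (cm7Q ν c) :=
    (hLc.cthickening (r := ε)).of_isClosed_subset (cm7Q_closed ν c) hQL
  have hKQ : (K₀.1 : Set Plane) ⊆ cm7Q ν c := hKL.trans hLQ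
  have hQn : (cm7Q ν c).Nonempty := hK₀n.mono hKQ
  let Q : Body := ⟨⟨⟨cm7Q ν c, hQc⟩, hQn⟩, cm7Q_convex ν c, K₀.2.2.mono (interior_mono hKQ)⟩
  refine ⟨Q, ?_, ?_⟩
  · -- close
    rw [Metric.mem_ball, Subtype.dist_eq, Metric.NonemptyCompacts.dist_eq]
    have hle : Metric.hausdorffDist (cm7Q ν c) (K₀.1 : Set Plane) ≤ ε + δ / 3 := by
      apply Metric.hausdorffDist_le_of_mem_dist (by positivity)
      · intro x hx
        have h1 := hQL hx
        rw [hLc.cthickening_eq_biUnion_closedBall hε.le] at h1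
        simp only [Set.mem_iUnion, Metric.mem_closedBall, exists_prop] at h1
        obtain ⟨x', hx', hxx'⟩ := h1
        have h2 := hLK hx'
        rw [hK₀c.cthickening_eq_biUnion_closedBall (by positivity)] at h2
        simp only [Set.mem_iUnion, Metric.mem_closedBall, exists_prop] at h2
        obtain ⟨x'', hx'', hxx''⟩ := h2
        exact ⟨x'', hx'', (dist_triangle x x' x'').trans (add_le_add hxx' hxx'')⟩
      · intro x hx
        exact ⟨x, hKQ hx, by simp; positivity⟩
    refine lt_of_le_of_lt hle ?_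
    linarith
  · -- no configuration
    rintro ⟨u, y, hu1, hu2, hy1, hy2, hy3⟩
    have hQcar : Q.carrier = cm7Q ν c := rfl
    rw [hQcar] at hy1
    have hshort : ∀ i j k, inner ℝ (ν k) (y i) = c k → inner ℝ (ν k) (y j) = c k → i = j := by
      intro i j k hi hj
      by_contra hne
      have h1 := hy2 i j hne
      have h2 := cm7_short ν α c hR hε hLc hmod hαL (fun k => (hc k).1) hν hQL
        (cm7_active ν c (hy1 i)).1 (cm7_active ν c (hy1 j)).1 hi hj
      linarith
    have hk := fun i => (cm7_active ν c (hy1 i)).2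
    choose k hk using hk
    have ha1 : Function.Injective k := by
      intro i j hij
      apply hshort i j (k i) (hk i)
      rw [hij]
      exact hk j
    have hpnp : PNP u := by
      intro i j hij h0
      have h1 := hu2 i j hij
      rw [h0, abs_zero] at h1
      linarith
    exact hcr ⟨k, ha1⟩ ⟨u, y, hu1, hpnp, hk, hy3⟩

end ChordMaps
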