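import Pool.Agent.Helper3.Chord.UDefs

set_option autoImplicit false

/-! # UM-7: the flow of a non-dense invariant set, `r` directions -/

namespace ChordMaps

variable {K C : Set Plane} {u v a b x y z : Plane}

/-- a relation between pairwise non-parallel vectors with all coefficients nonzero -/
lemma um7_relation {r : ℕ} (hr : 3 ≤ r) (u : Fin r → Plane) (hu : PNP u) :
    ∃ β : Fin r → ℝ, (∀ i, β i ≠ 0) ∧ ∑ i, β i • u i = 0 := by
  obtain ⟨n, rfl⟩ := Nat.exists_eq_add_of_le' hr
  obtain ⟨a, ha⟩ : ∃ a, a = u 0 := ⟨_, rfl⟩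
  obtain ⟨b, hb⟩ : ∃ b, b = u (Fin.succ 0) := ⟨_, rfl⟩
  obtain ⟨c, hc⟩ : ∃ c, c = u (Fin.succ (Fin.succ 0)) := ⟨_, rfl⟩
  obtain ⟨w, hw⟩ : ∃ w : Plane, w = ∑ i : Fin n, u i.succ.succ.succ := ⟨_, rfl⟩
  have h01 : cross a b ≠ 0 := by
    rw [ha, hb]; exact hu _ _ (Fin.succ_ne_zero _).symm
  have h21 : cross c b ≠ 0 := by
    rw [hc, hb]; exact hu _ _ (fun h => Fin.succ_ne_zero _ (Fin.succ_injective _ h))
  have h02 : cross a c ≠ 0 := by
    rw [ha, hc]; exact hu _ _ (Fin.succ_ne_zero _).symm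
  obtain ⟨t, ht⟩ := Infinite.exists_notMem_finset
    ({0, -cross w b / cross c b, -cross a w / cross a c} : Finset ℝ)
  simp only [Finset.mem_insert, Finset.mem_singleton, not_or] at ht
  obtain ⟨ht0, ht1, ht2⟩ := ht
  refine ⟨Fin.cons (-cross (t • c + w) b / cross a b)
    (Fin.cons (-cross a (t • c + w) / cross a b) (Fin.cons t (fun _ => 1))), ?_, ?_⟩
  · intro i
    refine Fin.cases ?_ (fun i => ?_) i
    · rw [Fin.cons_zero]
      refine div_ne_zero (neg_ne_zero.2 fun h => ht1 ?_) h01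
      rw [cross_add_left, cross_smul_left] at h
      rw [eq_div_iff h21]
      linarith
    · rw [Fin.cons_succ]
      refine Fin.cases ?_ (fun i => ?_) i
      · rw [Fin.cons_zero]
        refine div_ne_zero (neg_ne_zero.2 fun h => ht2 ?_) h01
        rw [cross_add_right, cross_smul_right] at h
        rw [eq_div_iff h02]
        linarith
      · rw [Fin.cons_succ]
        refine Fin.cases ?_ (fun i => ?_) i
        · rw [Fin.cons_zero]
          exact ht0
        · rw [Fin.cons_succ]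
          exact one_ne_zero
  · rw [Fin.sum_univ_succ, Fin.sum_univ_succ, Fin.sum_univ_succ]
    simp only [Fin.cons_zero, Fin.cons_succ, one_smul]
    rw [← hw, ← ha, ← hb, ← hc]
    generalize t • c + w = W
    ext i
    fin_cases i
    · simp only [Fin.zero_eta, PiLp.add_apply, PiLp.smul_apply, smul_eq_mul, PiLp.zero_apply]
      have key : W 0 = (cross W b * a 0 + cross a W * b 0) / cross a b := by
        rw [eq_div_iff h01]; unfold cross; ring
      linear_combination key
    · simp only [Fin.mk_one, PiLp.add_apply, PiLp.smul_apply, smul_eq_mul, PiLp.zero_apply]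
      have key : W 1 = (cross W b * a 1 + cross a W * b 1) / cross a b := by
        rw [eq_div_iff h01]; unfold cross; ring
      linear_combination key

/-- UM-7: a closed invariant proper subset of the boundary carries a summable flow -/
theorem flow_existsU {K : Set Plane} (hcp : IsCompact K) (hs : StrictConvex ℝ K)
    (hsm : Smooth K) {r : ℕ} (hr : 3 ≤ r) (u : Fin r → Plane) (hu : PNP u)
    (C : Set Plane) (hCK : C ⊆ frontier K) (hCc : IsClosed C) (hCne : C.Nonempty)
    (hinv : ∀ i, ∀ x ∈ C, chord K (u i) x ∈ C) (hneq : C ≠ frontier K) :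
    ∃ (D : Set Plane) (F : Fin r → Plane → ℝ), D ⊆ C ∧ D.Nonempty ∧
      (∀ i, ∀ x ∈ D, chord K (u i) x ∈ D) ∧
      (∀ i, ∀ x ∈ D, F i (chord K (u i) x) = - F i x) ∧
      (∀ x ∈ D, ∑ i, F i x = 0) ∧
      (∀ i, Summable (fun x : D => F i x)) ∧
      (∀ x ∈ D, ∀ i j, F i x = 0 → F j x = 0 → i = j) := by
  have hcl := hcp.isClosed
  have hK := hs.convex
  obtain ⟨β, hβ0, hβ⟩ := um7_relation hr u hu
  obtain ⟨n, rfl⟩ := Nat.exists_eq_add_of_le' hr
  have n01 : (0 : Fin (n + 3)) ≠ Fin.succ 0 := (Fin.succ_ne_zero _).symm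
  have n02 : (0 : Fin (n + 3)) ≠ Fin.succ (Fin.succ 0) := (Fin.succ_ne_zero _).symm
  have n12 : (Fin.succ 0 : Fin (n + 3)) ≠ Fin.succ (Fin.succ 0) :=
    fun h => Fin.succ_ne_zero _ (Fin.succ_injective _ h).symm
  have hu0 : ∀ i, u i ≠ 0 := by
    intro i h
    by_cases hi : i = 0
    · have h1 := hu i (Fin.succ 0) (hi ▸ n01)
      apply h1
      rw [h]; simp [cross]
    · have h1 := hu i 0 hi
      apply h1
      rw [h]; simp [cross]
  obtain ⟨x₀, hx₀⟩ := hCne
  obtain ⟨p, hp, hpC⟩ : ∃ p ∈ frontier K, p ∉ C := by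
    by_contra hcon
    push Not at hcon
    exact hneq (Set.Subset.antisymm hCK hcon)
  have hdist : ∀ x ∈ C, ∀ i j, i ≠ j → chord K (u i) x ≠ chord K (u j) x :=
    fun x hx i j hij => chord_ne_chord hcp hs hsm (hu i j hij) (hCK hx)
  obtain ⟨a, b, hab⟩ := exists_edge hcl hs hCK
    (hcp.of_isClosed_subset hCc (hCK.trans hcl.frontier_subset))
    (hinv 0 x₀ hx₀) (hinv (Fin.succ 0) x₀ hx₀) (hdist x₀ hx₀ 0 _ n01) hp hpC
  refine ⟨{x | x ∈ C ∧ ((∃ b, Edge C x b) ∨ ∃ a, Edge C a x)},
    fun i x => β i * cross (u i) (outP C x - innP C x), fun x hx => hx.1,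
    ⟨a, hab.1, Or.inl ⟨b, hab⟩⟩, ?_, ?_, ?_, ?_, ?_⟩
  · rintro i x ⟨hxC, hx⟩
    refine ⟨hinv i x hxC, ?_⟩
    rcases hx with ⟨b, hb⟩ | ⟨b, hb⟩
    · exact Or.inr ⟨_, edge_chord hcp hK hs hCK (hu0 i) (hinv i) hb⟩
    · exact Or.inl ⟨_, edge_chord hcp hK hs hCK (hu0 i) (hinv i) hb⟩
  · rintro i x ⟨hxC, -⟩
    simp only
    rw [outP_chord hcp hK hs hCK (hu0 i) (hinv i) hxC,
      innP_chord hcp hK hs hCK (hu0 i) (hinv i) hxC, cross_sub_right, cross_sub_right,
      cross_chord, cross_chord]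
    ring
  · intro x _
    have h1 : ∑ i, β i * cross (u i) (outP C x - innP C x) =
        cross (∑ i, β i • u i) (outP C x - innP C x) := by
      generalize outP C x - innP C x = w
      simp only [cross, WithLp.ofLp_sum, Finset.sum_apply, PiLp.smul_apply, smul_eq_mul,
        Finset.sum_mul, mul_sub, Finset.sum_sub_distrib, mul_assoc]
    rw [h1, hβ]
    simp [cross]
  · intro i
    have h1 := summable_out hcp hK hs hCK (hu0 i) (hinv i)
      {x | x ∈ C ∧ ((∃ b, Edge C x b) ∨ ∃ a, Edge C a x)}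
    have h2 := summable_inn hcp hK hs hCK (hu0 i) (hinv i)
      {x | x ∈ C ∧ ((∃ b, Edge C x b) ∨ ∃ a, Edge C a x)}
    refine ((h1.add h2).mul_left (β i)).congr fun x => ?_
    change _ = β i * cross (u i) (outP C x - innP C x)
    rw [cross_sub_right]
    ring
  · rintro x ⟨hxC, hx⟩ i j hi hj
    by_contra hij
    have hi' := (mul_eq_zero.1 hi).resolve_left (hβ0 i)
    have hj' := (mul_eq_zero.1 hj).resolve_left (hβ0 j)
    obtain ⟨t, ht⟩ := exists_smul_of_cross_eq_zero (hu0 i) hi'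
    rw [ht, cross_smul_right] at hj'
    have ht0 := (mul_eq_zero.1 hj').resolve_right (hu j i (Ne.symm hij))
    rw [ht0, zero_smul, sub_eq_zero] at ht
    -- outP = innP
    have hout : outP C x ≠ x := by
      intro h
      rcases hx with ⟨b, hb⟩ | ⟨b, hb⟩
      · exact hb.2.2.1 (by rw [← h, outP_edge hcl hs hCK hb])
      · rw [h, innP_edge hcl hs hCK hb] at ht
        exact hb.2.2.1 ht.symm
    have hinn : innP C x ≠ x := by rw [← ht]; exact hout
    have e1 := edge_of_outP_ne hout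
    have e2 := edge_of_innP_ne hinn
    rw [← ht] at e2
    have hall : ∀ y ∈ C, y = x ∨ y = outP C x := by
      intro y hy
      by_contra hcon
      push Not at hcon
      have h1 := e1.2.2.2 y hy
      have h2 := e2.2.2.2 y hy
      have h3 : cross (x - outP C x) (y - outP C x) = - cross (outP C x - x) (y - x) := by
        simp only [cross, PiLp.sub_apply]; ring
      rw [h3] at h2
      exact cross_ne_zero_of_distinct hcl hs (hCK hxC) (hCK e1.2.1) (hCK hy) e1.2.2.1 hcon.1
        hcon.2 (by linarith)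
    have d01 := hdist x hxC 0 _ n01
    have d02 := hdist x hxC 0 _ n02
    have d12 := hdist x hxC _ _ n12
    rcases hall _ (hinv 0 x hxC) with h0 | h0 <;>
      rcases hall _ (hinv (Fin.succ 0) x hxC) with h1 | h1 <;>
      rcases hall _ (hinv (Fin.succ (Fin.succ 0)) x hxC) with h2 | h2
    · exact d01 (h0.trans h1.symm)
    · exact d01 (h0.trans h1.symm)
    · exact d02 (h0.trans h2.symm)
    · exact d12 (h1.trans h2.symm)
    · exact d12 (h1.trans h2.symm)
    · exact d02 (h0.trans h2.symm)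
    · exact d01 (h0.trans h1.symm)
    · exact d01 (h0.trans h1.symm)

end ChordMaps
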