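import Pool.Agent.Helper3.Chord.UDefs

set_option autoImplicit false

/-! # UM-8: two different convex bodies with the same X-rays in equally spaced directions -/

namespace ChordMaps

/-- unit vector with angle `θ` -/
noncomputable def um8e (θ : ℝ) : Plane := !₂[Real.cos θ, Real.sin θ]

lemma um8_inner (θ : ℝ) (z : Plane) :
    inner ℝ z (um8e θ) = z 0 * Real.cos θ + z 1 * Real.sin θ := by
  rw [inner_eq]
  simp [um8e]

lemma um8_inner_e (a b : ℝ) : inner ℝ (um8e a) (um8e b) = Real.cos (a - b) := by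
  rw [um8_inner, Real.cos_sub]
  simp [um8e]

lemma um8_norm (θ : ℝ) : ‖um8e θ‖ = 1 := by
  have h : ‖um8e θ‖ ^ 2 = 1 := by
    rw [← real_inner_self_eq_norm_sq, um8_inner_e, sub_self, Real.cos_zero]
  have h0 := norm_nonneg (um8e θ)
  nlinarith

/-- reflection with axis orthogonal to `um8e θ` -/
noncomputable def um8r (θ : ℝ) (z : Plane) : Plane := z - (2 * inner ℝ z (um8e θ)) • um8e θ

lemma um8_r_inner (θ : ℝ) (z w : Plane) : inner ℝ (um8r θ z) w = inner ℝ z (um8r θ w) := by
  unfold um8r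
  rw [inner_sub_left, inner_sub_right, real_inner_smul_left, real_inner_smul_right,
    real_inner_comm w (um8e θ)]
  ring

lemma um8_r_r (θ : ℝ) (z : Plane) : um8r θ (um8r θ z) = z := by
  have h1 : inner ℝ (um8r θ z) (um8e θ) = - inner ℝ z (um8e θ) := by
    unfold um8r
    rw [inner_sub_left, real_inner_smul_left, um8_inner_e, sub_self, Real.cos_zero]
    ring
  have h2 : um8r θ (um8r θ z) = um8r θ z - (2 * inner ℝ (um8r θ z) (um8e θ)) • um8e θ := rfl
  rw [h2, h1]
  unfold um8r
  module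

lemma um8_r_norm (θ : ℝ) (z : Plane) : ‖um8r θ z‖ = ‖z‖ := by
  have h : ‖um8r θ z‖ ^ 2 = ‖z‖ ^ 2 := by
    rw [← real_inner_self_eq_norm_sq, um8_r_inner, um8_r_r, real_inner_self_eq_norm_sq]
  exact (sq_eq_sq₀ (norm_nonneg _) (norm_nonneg _)).1 h

lemma um8_r_e (θ a : ℝ) : um8r θ (um8e a) = um8e (Real.pi - a + 2 * θ) := by
  have hc := Real.sin_sq_add_cos_sq θ
  have h1 : Real.cos (Real.pi - a + 2 * θ) = - Real.cos (2 * θ - a) := by
    rw [show Real.pi - a + 2 * θ = (2 * θ - a) + Real.pi by ring, Real.cos_add_pi]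
  have h2 : Real.sin (Real.pi - a + 2 * θ) = - Real.sin (2 * θ - a) := by
    rw [show Real.pi - a + 2 * θ = (2 * θ - a) + Real.pi by ring, Real.sin_add_pi]
  unfold um8r
  rw [um8_inner_e]
  ext i
  fin_cases i
  · simp only [um8e, Fin.zero_eta, PiLp.sub_apply, PiLp.smul_apply, smul_eq_mul,
      Matrix.cons_val_zero]
    rw [h1, Real.cos_sub, Real.cos_sub, Real.cos_two_mul, Real.sin_two_mul]
    simp
    ring
  · simp only [um8e, Fin.mk_one, PiLp.sub_apply, PiLp.smul_apply, smul_eq_mul,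
      Matrix.cons_val_one]
    rw [h2, Real.cos_sub, Real.sin_sub, Real.cos_two_mul, Real.sin_two_mul]
    simp
    linear_combination (-2 * Real.sin a) * hc

lemma um8_r_line (θ : ℝ) (x : Plane) (t : ℝ) :
    um8r θ (x + t • um8e θ) = x + (-2 * inner ℝ x (um8e θ) - t) • um8e θ := by
  unfold um8r
  rw [inner_add_left, real_inner_smul_left, um8_inner_e, sub_self, Real.cos_zero]
  module

/-- intersection of a disc with half planes whose normals have the angles `φ + 2 π i / n` -/
def um8K (n : ℕ) (φ : ℝ) : Set Plane :=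
  {z | ‖z‖ ≤ 2 ∧ ∀ i : ℤ, inner ℝ z (um8e (φ + 2 * Real.pi * i / n)) ≤ 1}

lemma um8_mem_iff (n : ℕ) (φ : ℝ) (j : ℤ) (z : Plane) :
    um8r (Real.pi * j / n) z ∈ um8K n φ ↔ z ∈ um8K n (Real.pi - φ) := by
  have key : ∀ i : ℤ, inner ℝ (um8r (Real.pi * j / n) z) (um8e (φ + 2 * Real.pi * i / n)) =
      inner ℝ z (um8e (Real.pi - φ + 2 * Real.pi * (j - i : ℤ) / n)) := by
    intro i
    rw [um8_r_inner, um8_r_e]
    congr 2
    push_cast
    ring
  constructor
  · rintro ⟨h1, h2⟩
    rw [um8_r_norm] at h1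
    refine ⟨h1, fun i => ?_⟩
    have h3 := h2 (j - i)
    rw [key, show j - (j - i) = i by ring] at h3
    exact h3
  · rintro ⟨h1, h2⟩
    refine ⟨by rwa [um8_r_norm], fun i => ?_⟩
    rw [key]
    exact h2 _

lemma um8_closed (n : ℕ) (φ : ℝ) : IsClosed (um8K n φ) := by
  have : um8K n φ = {z : Plane | ‖z‖ ≤ 2} ∩
      ⋂ i : ℤ, {z : Plane | inner ℝ z (um8e (φ + 2 * Real.pi * i / n)) ≤ 1} := by
    ext z
    simp [um8K]
  rw [this]
  refine (isClosed_le continuous_norm continuous_const).inter (isClosed_iInter fun i => ?_)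
  exact isClosed_le (continuous_id.inner continuous_const) continuous_const

lemma um8_compact (n : ℕ) (φ : ℝ) : IsCompact (um8K n φ) := by
  refine (isCompact_closedBall (0 : Plane) 2).of_isClosed_subset (um8_closed n φ) ?_
  rintro z ⟨h, -⟩
  simpa using h

lemma um8_convex (n : ℕ) (φ : ℝ) : Convex ℝ (um8K n φ) := by
  rintro x ⟨hx, hx'⟩ y ⟨hy, hy'⟩ a b ha hb hab
  refine ⟨?_, fun i => ?_⟩
  · calc ‖a • x + b • y‖ ≤ ‖a • x‖ + ‖b • y‖ := norm_add_le _ _
      _ = a * ‖x‖ + b * ‖y‖ := by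
        rw [norm_smul, norm_smul, Real.norm_of_nonneg ha, Real.norm_of_nonneg hb]
      _ ≤ a * 2 + b * 2 := by gcongr
      _ = 2 := by rw [← add_mul, hab]; ring
  · rw [inner_add_left, real_inner_smul_left, real_inner_smul_left]
    calc _ ≤ a * 1 + b * 1 := by
          gcongr
          · exact hx' i
          · exact hy' i
      _ = 1 := by rw [← add_mul, hab]; ring

lemma um8_ball (n : ℕ) (φ : ℝ) : Metric.ball (0 : Plane) 1 ⊆ um8K n φ := by
  intro z hz
  rw [Metric.mem_ball, dist_zero_right] at hz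
  refine ⟨by linarith, fun i => ?_⟩
  have h := real_inner_le_norm z (um8e (φ + 2 * Real.pi * i / n))
  rw [um8_norm] at h
  linarith

lemma um8_interior (n : ℕ) (φ : ℝ) : (interior (um8K n φ)).Nonempty :=
  ⟨0, interior_maximal (um8_ball n φ) Metric.isOpen_ball (Metric.mem_ball_self one_pos)⟩

/-- the cosines of the odd multiples of `π / n` are bounded away from one -/
lemma um8_cos (n : ℕ) (hn : 1 ≤ n) : ∃ t : ℝ, 1 < t ∧ t ≤ 2 ∧
    ∀ i : ℤ, t * Real.cos (Real.pi / n - 2 * Real.pi * i / n) ≤ 1 := by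
  have hn0 : (n : ℝ) ≠ 0 := by positivity
  set f : ℤ → ℝ := fun i => Real.cos (Real.pi / n - 2 * Real.pi * i / n) with hf
  have hper : ∀ i : ℤ, f i = f (i % n) := by
    intro i
    have h1 : Real.pi / n - 2 * Real.pi * (i % n : ℤ) / n =
        Real.pi / n - 2 * Real.pi * i / n + (i / n : ℤ) * (2 * Real.pi) := by
      have h2 : (i : ℝ) = (i % n : ℤ) + n * (i / n : ℤ) := by
        exact_mod_cast (Int.emod_add_mul_ediv i n).symm
      rw [h2]
      field_simp
      ring
    simp only [hf]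
    rw [h1, Real.cos_add_int_mul_two_pi]
  obtain ⟨i0, hi0, hmax⟩ := Finset.exists_max_image (Finset.range n) (fun i => f i)
    ⟨0, Finset.mem_range.2 (by omega)⟩
  have hle : ∀ i : ℤ, f i ≤ f i0 := by
    intro i
    rw [hper]
    have h1 : 0 ≤ i % n := Int.emod_nonneg _ (by omega)
    have h2 : i % n < n := Int.emod_lt_of_pos _ (by omega)
    obtain ⟨k, hk⟩ := Int.eq_ofNat_of_zero_le h1
    rw [hk]
    exact hmax k (Finset.mem_range.2 (by omega))
  have hlt : f i0 < 1 := by
    refine lt_of_le_of_ne (Real.cos_le_one _) fun h => ?_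
    obtain ⟨k, hk⟩ := (Real.cos_eq_one_iff _).1 h
    have hpi := Real.pi_ne_zero
    field_simp at hk
    have h3 : (2 : ℤ) * (k * n + i0) = 1 := by
      have : (2 : ℝ) * (k * n + i0) = 1 := by
        have h4 : ((i0 : ℤ) : ℝ) = (i0 : ℝ) := by norm_cast
        rw [h4] at hk
        linarith
      exact_mod_cast this
    omega
  set M : ℝ := max (f i0) 0 with hM
  have hM0 : 0 ≤ M := le_max_right _ _
  have hM1 : M < 1 := max_lt hlt one_pos
  refine ⟨2 / (1 + M), ?_, ?_, fun i => ?_⟩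
  · rw [lt_div_iff₀ (by linarith)]; linarith
  · rw [div_le_iff₀ (by linarith)]; linarith
  · have h1 : f i ≤ M := (hle i).trans (le_max_left _ _)
    rw [div_mul_eq_mul_div, div_le_one (by linarith)]
    have h2 : 2 * f i ≤ 1 + M := by linarith
    exact h2

lemma um8_ne (n : ℕ) (hn : 1 ≤ n) (φ : ℝ) (hφ : Real.pi - 2 * φ = Real.pi / n) :
    um8K n φ ≠ um8K n (Real.pi - φ) := by
  obtain ⟨t, ht1, ht2, ht⟩ := um8_cos n hn
  intro h
  have hz : t • um8e (Real.pi - φ) ∈ um8K n φ := by
    refine ⟨?_, fun i => ?_⟩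
    · rw [norm_smul, um8_norm, Real.norm_of_nonneg (by linarith)]
      linarith
    · rw [real_inner_smul_left, um8_inner_e]
      have : Real.pi - φ - (φ + 2 * Real.pi * i / n) = Real.pi / n - 2 * Real.pi * i / n := by
        rw [← hφ]; ring
      rw [this]
      exact ht i
  rw [h] at hz
  have h0 := hz.2 0
  rw [real_inner_smul_left, um8_inner_e] at h0
  simp at h0
  linarith

theorem exists_ghost (n : ℕ) (hn : 2 ≤ n) (A : Plane ≃L[ℝ] Plane) :
    ∃ K L : Set Plane, IsCompact K ∧ Convex ℝ K ∧ (interior K).Nonempty ∧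
      IsCompact L ∧ Convex ℝ L ∧ (interior L).Nonempty ∧ K ≠ L ∧
      ∀ (j : ℤ) (c : ℝ), c ≠ 0 → ∀ x : Plane,
        MeasureTheory.volume {t : ℝ | x + t • (c • A (dir n j)) ∈ K} =
          MeasureTheory.volume {t : ℝ | x + t • (c • A (dir n j)) ∈ L} := by
  set φ : ℝ := (Real.pi - Real.pi / n) / 2 with hφd
  have hφ : Real.pi - 2 * φ = Real.pi / n := by rw [hφd]; ring
  have hint : ∀ ψ : ℝ, (interior (A '' um8K n ψ)).Nonempty := by
    intro ψ
    obtain ⟨z, hz⟩ := um8_interior n ψ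
    refine ⟨A z, ?_⟩
    have h1 : interior (A '' um8K n ψ) = A '' interior (um8K n ψ) :=
      (A.toHomeomorph.image_interior _).symm
    rw [h1]
    exact ⟨z, hz, rfl⟩
  have hcv : ∀ ψ : ℝ, Convex ℝ (A '' um8K n ψ) := fun ψ =>
    (um8_convex n ψ).linear_image (A : Plane →ₗ[ℝ] Plane)
  refine ⟨A '' um8K n φ, A '' um8K n (Real.pi - φ), (um8_compact n _).image A.continuous,
    hcv _, hint _, (um8_compact n _).image A.continuous, hcv _, hint _, ?_, ?_⟩
  · intro h
    exact um8_ne n (by omega) φ hφ (A.injective.image_injective h)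
  · intro j c hc x
    have hmem : ∀ (ψ t : ℝ), x + t • (c • A (dir n j)) ∈ A '' um8K n ψ ↔
        A.symm x + (c * t) • um8e (Real.pi * j / n) ∈ um8K n ψ := by
      intro ψ t
      have h1 : x + t • (c • A (dir n j)) =
          A (A.symm x + (c * t) • um8e (Real.pi * j / n)) := by
        rw [map_add, map_smul, A.apply_symm_apply, smul_smul, mul_comm t c]
        rfl
      rw [h1]
      exact A.injective.mem_set_image
    set y : Plane := A.symm x with hy
    set T : ℝ → Set ℝ := fun ψ => {t : ℝ | y + t • um8e (Real.pi * j / n) ∈ um8K n ψ} with hT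
    have hset : ∀ ψ : ℝ, {t : ℝ | x + t • (c • A (dir n j)) ∈ A '' um8K n ψ} =
        (c * ·) ⁻¹' T ψ := by
      intro ψ
      ext t
      exact hmem ψ t
    rw [hset, hset, Real.volume_preimage_mul_left hc, Real.volume_preimage_mul_left hc]
    congr 1
    set d : ℝ := -2 * inner ℝ y (um8e (Real.pi * j / n)) with hd
    have hTT : T (Real.pi - φ) = (fun t => d - t) ⁻¹' T φ := by
      ext t
      change y + t • um8e (Real.pi * j / n) ∈ um8K n (Real.pi - φ) ↔
        y + (d - t) • um8e (Real.pi * j / n) ∈ um8K n φ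
      rw [← um8_mem_iff n φ j, um8_r_line]
    have hmeas : MeasurableSet (T φ) := by
      apply IsClosed.measurableSet
      exact (um8_closed n φ).preimage (by fun_prop)
    rw [hTT, (MeasureTheory.Measure.measurePreserving_sub_left MeasureTheory.volume d).measure_preimage
      hmeas.nullMeasurableSet]

end ChordMaps
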