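import Pool.Agent.Helper3.Chord.UM1
import Pool.Agent.Helper3.Chord.UM2
import Pool.Agent.Helper3.Chord.UM3
import Pool.Agent.Helper3.Chord.UM6
import Pool.Agent.Helper3.Chord.UM7
import Pool.Agent.Helper3.Chord.UM8
import Pool.Agent.Helper3.Chord.UM12
import Pool.Agent.Helper3.Chord.Main

set_option autoImplicit false

/-! # For most convex bodies all invariant sets are dense, for all determining sets of directions -/

namespace ChordMaps

open Topology Filter

variable {K C : Set Plane} {u v a b x y z : Plane}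

/-- the X-ray determination hypothesis of the problem -/
def Determines (S : Finset Plane) : Prop :=
  ∀ K L : Set Plane, IsCompact K → Convex ℝ K → (interior K).Nonempty →
    IsCompact L → Convex ℝ L → (interior L).Nonempty →
    (∀ u ∈ S, ∀ x : Plane, MeasureTheory.volume {t : ℝ | x + t • u ∈ K} =
      MeasureTheory.volume {t : ℝ | x + t • u ∈ L}) → K = L

lemma not_determines (S : Finset Plane) {n : ℕ} (hn : 2 ≤ n) (A : Plane ≃L[ℝ] Plane)
    (h : ∀ u ∈ S, ∃ (j : ℤ) (c : ℝ), c ≠ 0 ∧ u = c • A (dir n j)) : ¬ Determines S := by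
  intro hd
  obtain ⟨K, L, h1, h2, h3, h4, h5, h6, h7, h8⟩ := exists_ghost n hn A
  refine h7 (hd K L h1 h2 h3 h4 h5 h6 fun u hu x => ?_)
  obtain ⟨j, c, hc, rfl⟩ := h u hu
  exact h8 j c hc x

/-- the linear automorphism with given images of the basis vectors -/
lemma exists_equiv (h : cross a b ≠ 0) : ∃ A : Plane ≃L[ℝ] Plane,
    ∀ x : Plane, A x = x 0 • a + x 1 • b := by
  let f : Plane →ₗ[ℝ] Plane :=
    { toFun := fun x => x 0 • a + x 1 • b
      map_add' := fun x y => by
        simp only [PiLp.add_apply, add_smul]; abel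
      map_smul' := fun t x => by
        simp only [PiLp.smul_apply, smul_eq_mul, RingHom.id_apply, smul_add, smul_smul] }
  have hinj : LinearMap.ker f = ⊥ := by
    rw [LinearMap.ker_eq_bot']
    intro x hx
    change x 0 • a + x 1 • b = 0 at hx
    have h1 : cross a (x 0 • a + x 1 • b) = 0 := by rw [hx]; simp [cross]
    have h2 : cross (x 0 • a + x 1 • b) b = 0 := by rw [hx]; simp [cross]
    rw [cross_add_right, cross_smul_right, cross_smul_right, cross_self] at h1
    rw [cross_add_left, cross_smul_left, cross_smul_left, cross_self] at h2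
    have h3 : x 1 = 0 := by
      have : x 1 * cross a b = 0 := by linarith
      exact (mul_eq_zero.1 this).resolve_right h
    have h4 : x 0 = 0 := by
      have : x 0 * cross a b = 0 := by linarith
      exact (mul_eq_zero.1 this).resolve_right h
    ext i
    fin_cases i
    · exact h4
    · exact h3
  exact ⟨(LinearEquiv.ofInjectiveEndo f (LinearMap.ker_eq_bot.1 hinj)).toContinuousLinearEquiv,
    fun x => rfl⟩

lemma dir_two_zero : dir 2 0 = !₂[1, 0] := by
  unfold dir; simp

lemma dir_two_one : dir 2 1 = !₂[0, 1] := by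
  unfold dir; simp

lemma not_determines_two (S : Finset Plane) (hS : ∀ u ∈ S, u ≠ 0) (h : cross a b ≠ 0)
    (hab : ∀ u ∈ S, cross a u = 0 ∨ cross b u = 0) : ¬ Determines S := by
  obtain ⟨A, hA⟩ := exists_equiv h
  have ha : a ≠ 0 := by rintro rfl; exact h (by simp [cross])
  have hb : b ≠ 0 := by rintro rfl; exact h (by simp [cross])
  refine not_determines S (le_refl 2) A fun u hu => ?_
  rcases hab u hu with h1 | h1
  · obtain ⟨t, ht⟩ := exists_smul_of_cross_eq_zero ha h1
    refine ⟨0, t, ?_, ?_⟩
    · rintro rfl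
      exact hS u hu (by rw [ht, zero_smul])
    · rw [ht, hA, dir_two_zero]
      simp
  · obtain ⟨t, ht⟩ := exists_smul_of_cross_eq_zero hb h1
    refine ⟨1, t, ?_, ?_⟩
    · rintro rfl
      exact hS u hu (by rw [ht, zero_smul])
    · rw [ht, hA, dir_two_one]
      simp

lemma cross_rot_self (u : Plane) : cross u (rot u) = u 0 ^ 2 + u 1 ^ 2 := by
  simp [rot, cross]; ring

lemma cross_rot_self_ne (hu : u ≠ 0) : cross u (rot u) ≠ 0 := by
  rw [cross_rot_self]
  intro h
  apply hu
  have h0 : u 0 = 0 := by nlinarith [sq_nonneg (u 0), sq_nonneg (u 1)]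
  have h1 : u 1 = 0 := by nlinarith [sq_nonneg (u 0), sq_nonneg (u 1)]
  ext i
  fin_cases i
  · exact h0
  · exact h1

/-- a finite set of nonzero vectors that determines convex bodies has at least three pairwise
non-parallel elements; representatives of the directions -/
lemma exists_directions (S : Finset Plane) (hS : ∀ u ∈ S, u ≠ 0) (hd : Determines S) :
    ∃ (r : ℕ) (w : Fin r → Plane), 3 ≤ r ∧ (∀ i, ‖w i‖ = 1) ∧ PNP w ∧
      (∀ i, ∃ v ∈ S, ∃ c : ℝ, c ≠ 0 ∧ w i = c • v) ∧
      ∀ v ∈ S, ∃ i, ∃ c : ℝ, c ≠ 0 ∧ v = c • w i := by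
  classical
  -- a maximal family of pairwise non-parallel elements
  obtain ⟨R, hR, hmax⟩ := (S.powerset.filter
    (fun R => ∀ x ∈ R, ∀ y ∈ R, x ≠ y → cross x y ≠ 0)).exists_max_image Finset.card
    ⟨∅, by simp⟩
  simp only [Finset.mem_filter, Finset.mem_powerset] at hR hmax
  obtain ⟨hRS, hRp⟩ := hR
  have hcov : ∀ v ∈ S, ∃ w ∈ R, cross w v = 0 := by
    intro v hv
    by_contra hcon
    push Not at hcon
    have hvR : v ∉ R := fun h => hcon v h (cross_self v)
    have h1 := hmax (insert v R) ⟨Finset.insert_subset hv hRS, by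
      intro x hx y hy hxy
      rcases Finset.mem_insert.1 hx with rfl | hx'
      · rcases Finset.mem_insert.1 hy with rfl | hy'
        · exact absurd rfl hxy
        · rw [cross_comm]; exact neg_ne_zero.2 (hcon y hy')
      · rcases Finset.mem_insert.1 hy with rfl | hy'
        · exact hcon x hx'
        · exact hRp x hx' y hy' hxy⟩
    rw [Finset.card_insert_of_notMem hvR] at h1
    omega
  have hnp : ∀ x : Plane, x ≠ 0 → 0 < ‖x‖ := fun x hx => norm_pos_iff.2 hx
  let w0 : Fin R.card → Plane := fun i => (R.equivFin.symm i : Plane)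
  have hw0R : ∀ i, w0 i ∈ R := fun i => (R.equivFin.symm i).2
  have hw0s : ∀ x ∈ R, ∃ i, w0 i = x := fun x hx => ⟨R.equivFin ⟨x, hx⟩, by simp [w0]⟩
  have hw0i : Function.Injective w0 := fun i j h => R.equivFin.symm.injective (Subtype.ext h)
  have hw0n : ∀ i, w0 i ≠ 0 := fun i => hS _ (hRS (hw0R i))
  have hinv : ∀ i, (‖w0 i‖)⁻¹ ≠ 0 := fun i => (inv_pos.2 (hnp _ (hw0n i))).ne'
  refine ⟨R.card, fun i => (‖w0 i‖)⁻¹ • w0 i, ?_, ?_, ?_, ?_, ?_⟩
  · -- at least three directions
    by_contra hlt
    push Not at hlt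
    have h3 : R.card = 0 ∨ R.card = 1 ∨ R.card = 2 := by omega
    rcases h3 with h3 | h3 | h3
    · rw [Finset.card_eq_zero] at h3
      refine not_determines_two (a := !₂[1, 0]) (b := !₂[0, 1]) S hS (by simp [cross]) ?_ hd
      intro u hu
      obtain ⟨w, hw, -⟩ := hcov u hu
      rw [h3] at hw
      simp at hw
    · obtain ⟨p, hp⟩ := Finset.card_eq_one.1 h3
      have hp0 : p ≠ 0 := hS _ (hRS (by rw [hp]; simp))
      refine not_determines_two (a := p) (b := rot p) S hS (cross_rot_self_ne hp0) ?_ hd
      intro u hu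
      obtain ⟨w, hw, h4⟩ := hcov u hu
      rw [hp, Finset.mem_singleton] at hw
      exact Or.inl (hw ▸ h4)
    · obtain ⟨p, q, hpq, hp⟩ := Finset.card_eq_two.1 h3
      refine not_determines_two (a := p) (b := q) S hS
        (hRp p (by rw [hp]; simp) q (by rw [hp]; simp) hpq) ?_ hd
      intro u hu
      obtain ⟨w, hw, h4⟩ := hcov u hu
      rw [hp, Finset.mem_insert, Finset.mem_singleton] at hw
      rcases hw with rfl | rfl
      · exact Or.inl h4
      · exact Or.inr h4
  · intro i
    rw [norm_smul, norm_inv, norm_norm, inv_mul_cancel₀ (hnp _ (hw0n i)).ne']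
  · intro i j hij
    rw [cross_smul_left, cross_smul_right]
    exact mul_ne_zero (hinv i) (mul_ne_zero (hinv j)
      (hRp _ (hw0R i) _ (hw0R j) (fun h => hij (hw0i h))))
  · intro i
    exact ⟨w0 i, hRS (hw0R i), _, hinv i, rfl⟩
  · intro v hv
    obtain ⟨w, hw, h4⟩ := hcov v hv
    obtain ⟨i, hi⟩ := hw0s w hw
    obtain ⟨t, ht⟩ := exists_smul_of_cross_eq_zero (hS _ (hRS hw)) h4
    refine ⟨i, t * ‖w0 i‖, ?_, ?_⟩
    · refine mul_ne_zero ?_ (hnp _ (hw0n i)).ne'
      rintro rfl
      exact hS v hv (by rw [ht, zero_smul])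
    · rw [smul_smul, mul_assoc, mul_inv_cancel₀ (hnp _ (hw0n i)).ne', mul_one, hi]
      exact ht

lemma chord_smul (hcl : IsClosed K) (hs : StrictConvex ℝ K) (hx : x ∈ frontier K) {c : ℝ}
    (hc : c ≠ 0) : chord K (c • u) x = chord K u x := by
  by_cases h : chord K u x = x
  · by_contra hcon
    have h1 : chord K (c • u) x ≠ x := fun h2 => hcon (by rw [h2, h])
    obtain ⟨t, ht⟩ := chord_line K (c • u) x
    apply hcon
    exact (chord_eq hcl hs hx (chord_mem hx) h1 ⟨t * c, by rw [ht, smul_smul]⟩).symm
  · obtain ⟨t, ht⟩ := chord_line K u x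
    refine chord_eq hcl hs hx (chord_mem hx) h ⟨t / c, ?_⟩
    rw [smul_smul, div_mul_cancel₀ _ hc]
    exact ht

/-- the orbit of a point under the chord maps -/
inductive Orb (K : Set Plane) {r : ℕ} (u : Fin r → Plane) (x₀ : Plane) : Plane → Prop
  | base : Orb K u x₀ x₀
  | step (i : Fin r) (x : Plane) : Orb K u x₀ x → Orb K u x₀ (chord K (u i) x)

theorem dense_of_no_configU (hcp : IsCompact K) (hs : StrictConvex ℝ K) (hsm : Smooth K)
    (hno : ∀ (r N : ℕ) (e : Finset (Fin N × Fin N × Fin r)) (n : ℕ),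
      GoodU e → ¬ ConfigU K e n)
    (S : Finset Plane) (hS : ∀ u ∈ S, u ≠ 0) (hd : Determines S)
    {V : Set Plane} (hV : V ⊆ frontier K) (hne : V.Nonempty)
    (hinv : ∀ v ∈ S, ∀ x ∈ V, ∀ t : ℝ, x + t • v ∈ frontier K → x + t • v ∈ V) :
    closure V = frontier K := by
  classical
  have hcl := hcp.isClosed
  obtain ⟨r, u, hr, hu1, hu, huS, hSu⟩ := exists_directions S hS hd
  have hu0 : ∀ i, u i ≠ 0 := fun i h => by
    have := hu1 i
    rw [h, norm_zero] at this
    exact zero_ne_one this
  have hVinv : ∀ i, ∀ x ∈ V, chord K (u i) x ∈ V := by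
    intro i x hx
    obtain ⟨v, hv, c, hc, hvc⟩ := huS i
    obtain ⟨t, ht⟩ := chord_line K (u i) x
    have h1 : x + (t * c) • v = chord K (u i) x := by rw [ht, hvc, smul_smul]
    rw [← h1]
    apply hinv v hv x hx
    rw [h1]
    exact chord_mem (hV hx)
  by_contra hcon
  obtain ⟨D, F, hDC, hDne, hDinv, hFf, hFsum, hFs, hF0⟩ := flow_existsU hcp hs hsm hr u hu
    (closure V) (closure_minimal hV isClosed_frontier) isClosed_closure hne.closure
    (fun i x hx => closure_invariant hcp hs (hu0 i) hV (hVinv i) hx) hcon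
  have hDf : D ⊆ frontier K := hDC.trans (closure_minimal hV isClosed_frontier)
  obtain ⟨x₀, hx₀⟩ := hDne
  set O : Set Plane := {x | Orb K u x₀ x} with hO
  have hOD : O ⊆ D := by
    intro x hx
    induction hx with
    | base => exact hx₀
    | step i x _ ih => exact hDinv i x ih
  have hOf : O ⊆ frontier K := hOD.trans hDf
  have hOinv : ∀ i, ∀ x ∈ O, chord K (u i) x ∈ O := fun i x hx => Orb.step i x hx
  have hx₀O : x₀ ∈ O := Orb.base
  by_cases hfin : O.Finite
  · -- finite orbit: Gardner-McMullen
    have r0 : 0 < r := by omega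
    have r1 : 1 < r := by omega
    have r2 : 2 < r := by omega
    let w : Fin 3 → Plane := fun i => u ⟨i, by omega⟩
    have hw : PNP w := fun i j hij => hu _ _ (fun h => hij (by
      have := congrArg Fin.val h
      exact Fin.ext this))
    obtain ⟨n, A, hn, hA⟩ := gardner_mcmullen hcp hs hsm hfin ⟨x₀, hx₀O⟩ hOf w hw
      (fun i x hx => hOinv _ x hx)
    refine not_determines S hn A (fun v hv => hA v (hS v hv) fun x hx => ?_) hd
    obtain ⟨i, c, hc, rfl⟩ := hSu v hv
    rw [chord_smul hcl hs (hOf hx) hc]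
    exact hOinv i x hx
  · -- infinite orbit
    have hInf : Infinite O := Set.infinite_coe_iff.2 hfin
    obtain ⟨T, H, hH, hcard, hst⟩ := exists_large (X := O) hr
      (fun i x => ⟨chord K (u i) x, hOinv i x x.2⟩)
      (fun i x => Subtype.ext (chord_chord hcl hs (hOf x.2)))
      (fun i j x hij h => chord_ne_chord hcp hs hsm (hu i j hij) (hOf x.2)
        (congrArg Subtype.val h))
      (by
        intro A hA hAinv
        have key : ∀ x, Orb K u x₀ x → ∀ hx : x ∈ O, ((⟨x, hx⟩ : O) ∈ A ↔ ⟨x₀, hx₀O⟩ ∈ A) := by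
          intro x hx
          induction hx with
          | base => intro _; exact Iff.rfl
          | step i x hx ih =>
            intro hx'
            rw [← ih hx]
            constructor
            · intro h
              have h2 := hAinv i _ h
              have h3 : (⟨chord K (u i) (chord K (u i) x), hOinv i _ hx'⟩ : O) = ⟨x, hx⟩ :=
                Subtype.ext (chord_chord hcl hs (hOf hx))
              rw [← h3]
              exact h2
            · intro h
              exact hAinv i _ h
        obtain ⟨y, hy⟩ := hA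
        have h0 : (⟨x₀, hx₀O⟩ : O) ∈ A := (key y y.2 y.2).1 hy
        exact Set.eq_univ_of_forall fun x => (key x x.2 x.2).2 h0)
      (fun i x => F i x) (fun i x => hFf i x (hOD x.2)) (fun x => hFsum x (hOD x.2))
      (fun i => by
        have h1 := (hFs i).comp_injective (Set.inclusion_injective hOD)
        exact h1)
      (fun x i j => hF0 x (hOD x.2) i j) (r + 1)
    set T' : Finset Plane := T.map (Function.Embedding.subtype _) with hT'
    let emb : O × Fin r ↪ Plane × Fin r :=
      ⟨fun p => ((p.1 : Plane), p.2), by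
        rintro ⟨x, i⟩ ⟨y, j⟩ h
        simp only [Prod.mk.injEq] at h
        rw [Prod.mk.injEq]
        exact ⟨Subtype.ext h.1, h.2⟩⟩
    set H' : Finset (Plane × Fin r) := H.map emb with hH'
    obtain ⟨N, e, n, hg, hc⟩ := exists_good_configU (K := K) u hu1 hu T' H' (by
        intro x hx
        rw [hT', Finset.coe_map] at hx
        obtain ⟨y, -, rfl⟩ := hx
        exact hOf y.2) (by
        intro p hp
        rw [hH', Finset.mem_map] at hp
        obtain ⟨q, hq, rfl⟩ := hp
        have h1 := hH q hq
        rw [hT']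
        exact ⟨Finset.mem_map_of_mem (Function.Embedding.subtype _) h1.1,
          Finset.mem_map_of_mem (Function.Embedding.subtype _) h1.2⟩) (by
        rw [hT', hH', Finset.card_map, Finset.card_map]
        exact hcard) (by
        intro u' hu' φ hφ p hp
        rw [hH', Finset.mem_map] at hp
        obtain ⟨q, hq, rfl⟩ := hp
        refine hst u' hu' (fun q => φ (emb q)) (fun y => ?_) q hq
        have h1 := hφ (fun x => if hx : x ∈ O then y ⟨x, hx⟩ else 0)
        rw [hH', Finset.sum_map] at h1
        rw [← h1]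
        refine Finset.sum_congr rfl fun p _ => ?_
        simp only [emb, Function.Embedding.coeFn_mk, Subtype.coe_prop, dif_pos,
          hOinv p.2 p.1 p.1.2])
    exact hno r N e n hg hc

theorem residual_no_configU :
    ∀ᶠ K : Body in residual Body, ∀ (r N : ℕ) (e : Finset (Fin N × Fin N × Fin r)) (n : ℕ),
      GoodU e → ¬ ConfigU K.carrier e n := by
  refine eventually_countable_forall.2 fun r => eventually_countable_forall.2 fun N =>
    eventually_countable_forall.2 fun e => eventually_countable_forall.2 fun n => ?_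
  by_cases hg : GoodU e
  · have h1 : {K : Body | ConfigU K.carrier e n}ᶜ ∈ residual Body :=
      residual_of_dense_open (isClosed_configU e n).isOpen_compl (dense_compl_configU e n hg)
    filter_upwards [h1] with K hK _ using hK
  · exact Eventually.of_forall fun K h => absurd h hg

theorem mainU :
    ∃ G : Set Body, IsGδ G ∧ Dense G ∧ ∀ K ∈ G,
      StrictConvex ℝ K.carrier ∧ Smooth K.carrier ∧
      ∀ S : Finset Plane, (∀ u ∈ S, u ≠ 0) →
        (∀ K L : Set Plane,
          IsCompact K → Convex ℝ K → (interior K).Nonempty →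
          IsCompact L → Convex ℝ L → (interior L).Nonempty →
          (∀ u ∈ S, ∀ x : Plane,
            MeasureTheory.volume {t : ℝ | x + t • u ∈ K} =
              MeasureTheory.volume {t : ℝ | x + t • u ∈ L}) →
          K = L) →
        ∀ V ⊆ frontier K.carrier, V.Nonempty →
          (∀ v ∈ S, ∀ x ∈ V, ∀ t : ℝ, x + t • v ∈ frontier K.carrier → x + t • v ∈ V) →
          closure V = frontier K.carrier := by
  have := baireSpace_body
  have h : ∀ᶠ K : Body in residual Body, StrictConvex ℝ K.carrier ∧ Smooth K.carrier ∧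
      ∀ (r N : ℕ) (e : Finset (Fin N × Fin N × Fin r)) (n : ℕ),
        GoodU e → ¬ ConfigU K.carrier e n := by
    filter_upwards [residual_strictConvex, residual_smooth, residual_no_configU] with K h1 h2 h3
    exact ⟨h1, h2, h3⟩
  obtain ⟨G, hG, h1, h2⟩ := mem_residual.1 h
  refine ⟨G, h1, h2, fun K hK => ⟨(hG hK).1, (hG hK).2.1, fun S hS hd V hV hne hinv => ?_⟩⟩
  exact dense_of_no_configU (K := K.carrier) K.1.isCompact (hG hK).1 (hG hK).2.1 (hG hK).2.2
    S hS hd hV hne hinv

end ChordMaps
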