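import Pool.Agent.Helper3.Chord.Flow

set_option autoImplicit false

/-!
# Chord maps: definitions for the theorem that is uniform in the set of directions
-/

namespace ChordMaps

/-- pairwise non-parallel (nonzero if there are at least two) vectors -/
def PNP {r : ℕ} (u : Fin r → Plane) : Prop := ∀ i j, i ≠ j → cross (u i) (u j) ≠ 0

/-- `e` has at least `N + r + 1` edges and for all pairwise non-parallel directions `u` the
functionals `y ↦ cross (u κ) (y i - y j)`, `(i, j, κ) ∈ e`, are linearly independent -/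
def GoodU {r N : ℕ} (e : Finset (Fin N × Fin N × Fin r)) : Prop :=
  N + r + 1 ≤ e.card ∧
  ∀ u : Fin r → Plane, PNP u → ∀ φ : Fin N × Fin N × Fin r → ℝ,
    (∀ y : Fin N → Plane, ∑ p ∈ e, φ p * cross (u p.2.2) (y p.1 - y p.2.1) = 0) →
    ∀ p ∈ e, φ p = 0

/-- there are unit vectors `u κ` with mutual cross products at least `1 / (n + 1)` and boundary
points `y i` of `K` with mutual distances at least `1 / (n + 1)`, such that `y i - y j` is
parallel to `u κ` for all `(i, j, κ) ∈ e` -/
def ConfigU (K : Set Plane) {r N : ℕ} (e : Finset (Fin N × Fin N × Fin r)) (n : ℕ) : Prop :=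
  ∃ (u : Fin r → Plane) (y : Fin N → Plane), (∀ i, ‖u i‖ = 1) ∧
    (∀ i j, i ≠ j → 1 / ((n : ℝ) + 1) ≤ |cross (u i) (u j)|) ∧
    (∀ i, y i ∈ frontier K) ∧
    (∀ i j, i ≠ j → 1 / ((n : ℝ) + 1) ≤ dist (y i) (y j)) ∧
    ∀ p ∈ e, cross (u p.2.2) (y p.1 - y p.2.1) = 0

/-- the unit vector with angle `π j / n` -/
noncomputable def dir (n : ℕ) (j : ℤ) : Plane :=
  !₂[Real.cos (Real.pi * j / n), Real.sin (Real.pi * j / n)]

end ChordMaps
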