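import Pool.Agent.Helper3.Chord.UDefs

set_option autoImplicit false

/-!
# UM-1: stress-free finite sets of arbitrary excess in an infinite flow graph
-/

namespace ChordMaps

open Finset

section
variable {X : Type*} {r : ℕ} (f : Fin r → X → X) (F : Fin r → X → ℝ)

/-- the graph of all pairs `x, f i x` with `F i x ≠ 0` -/
def um1_graph (hf : ∀ i x, f i (f i x) = x) (hF : ∀ i x, F i (f i x) = - F i x) :
    SimpleGraph X where
  Adj x y := ∃ i, f i x = y ∧ F i x ≠ 0
  symm := ⟨by
    rintro x y ⟨i, rfl, h⟩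
    exact ⟨i, hf i x, by rw [hF]; simpa using h⟩⟩
  loopless := ⟨by
    rintro x ⟨i, hi, h⟩
    have := hF i x
    rw [hi] at this
    exact h (by linarith)⟩

/-- a summable function that is odd under an involution has sum zero -/
lemma um1_tsum_eq_zero {g : X → X} (hg : ∀ x, g (g x) = x) {G : X → ℝ}
    (hG : ∀ x, G (g x) = - G x) : ∑' x, G x = 0 := by
  have h1 : ∑' x, G (g x) = ∑' x, G x := (Equiv.mk g g hg hg).tsum_eq G
  have h2 : ∑' x, G (g x) = - ∑' x, G x := by
    rw [← tsum_neg]
    exact tsum_congr hG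
  linarith

variable (hf : ∀ i x, f i (f i x) = x) (hF : ∀ i x, F i (f i x) = - F i x)

/-- no edge of the graph is a bridge -/
lemma um1_not_bridge (hne : ∀ i j x, i ≠ j → f i x ≠ f j x)
    (hsum : ∀ x, ∑ i, F i x = 0) (hsm : ∀ i, Summable (F i)) (i : Fin r) (x : X)
    (hx : F i x ≠ 0) :
    ((um1_graph f F hf hF).deleteEdges {s(x, f i x)}).Reachable x (f i x) := by
  classical
  set G := um1_graph f F hf hF with hG
  by_contra hb
  set y := f i x with hy
  have hfy : f i y = x := hf i x
  -- the component of `y`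
  set B : Set X := {z | (G.deleteEdges {s(x, y)}).Reachable z y} with hB
  have hyB : y ∈ B := SimpleGraph.Reachable.refl y
  have hxB : x ∉ B := hb
  -- the modified functions
  set g : Fin r → X → ℝ := fun j z =>
    if z ∈ B ∧ ¬ (j = i ∧ z = y) then F j z else 0 with hg
  have hstep : ∀ j z, z ∈ B → ¬ (j = i ∧ z = y) → F j z ≠ 0 →
      f j z ∈ B ∧ ¬ (j = i ∧ f j z = y) := by
    intro j z hz hjz hFz
    have hnot : ¬ (j = i ∧ f j z = y) := by
      rintro ⟨rfl, h⟩
      apply hxB
      have : z = x := by rw [← hf j z, h, hfy]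
      rwa [← this]
    refine ⟨?_, hnot⟩
    have hadj : (G.deleteEdges {s(x, y)}).Adj (f j z) z := by
      rw [SimpleGraph.deleteEdges_adj]
      refine ⟨(show G.Adj z (f j z) from ⟨j, rfl, hFz⟩).symm, ?_⟩
      rw [Set.mem_singleton_iff, Sym2.eq_iff]
      rintro (⟨h1, h2⟩ | ⟨h1, h2⟩)
      · apply hjz
        refine ⟨?_, h2⟩
        by_contra hji
        apply hne j i z hji
        rw [h1, h2, hfy]
      · exact hxB (h2 ▸ hz)
    exact hadj.reachable.trans hz
  have hodd : ∀ j z, g j (f j z) = - g j z := by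
    intro j z
    by_cases h0 : F j z = 0
    · have h1 : F j (f j z) = 0 := by rw [hF, h0, neg_zero]
      simp only [hg, h0, h1, ite_self, neg_zero]
    · have h1 : F j (f j z) ≠ 0 := by rw [hF]; simpa using h0
      by_cases hz : z ∈ B ∧ ¬ (j = i ∧ z = y)
      · have h2 := hstep j z hz.1 hz.2 h0
        simp only [hg, if_pos hz, if_pos h2, hF]
      · have h2 : ¬ (f j z ∈ B ∧ ¬ (j = i ∧ f j z = y)) := by
          intro h2
          have h3 := hstep j (f j z) h2.1 h2.2 h1
          rw [hf] at h3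
          exact hz h3
        simp only [hg, if_neg hz, if_neg h2, neg_zero]
  have hgsum : ∀ j, ∑' z, g j z = 0 := fun j => um1_tsum_eq_zero (hf j) (hodd j)
  -- compare with the indicator of `B`
  have hgs : ∀ j, Summable (g j) := by
    intro j
    refine Summable.of_norm_bounded (hsm j).norm fun z => ?_
    simp only [hg]
    split_ifs
    · exact le_rfl
    · simp
  have hdec : ∀ z, ∑ j, g j z = if z = y then - F i y else 0 := by
    intro z
    by_cases hz : z ∈ B
    · by_cases hzy : z = y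
      · rw [hzy, if_pos rfl]
        have h1 : ∀ j, g j y = F j y - (if j = i then F i y else 0) := by
          intro j
          by_cases hj : j = i
          · subst hj
            simp [hg]
          · simp [hg, hj, hyB]
        simp only [h1, Finset.sum_sub_distrib, hsum y]
        simp
      · rw [if_neg hzy, ← hsum z]
        exact Finset.sum_congr rfl fun j _ => by simp [hg, hz, hzy]
    · have hzy : z ≠ y := fun h => hz (h ▸ hyB)
      rw [if_neg hzy]
      exact Finset.sum_eq_zero fun j _ => by simp [hg, hz]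
  have htot : ∑' z, ∑ j, g j z = 0 := by
    rw [Summable.tsum_finsetSum fun j _ => hgs j]
    exact Finset.sum_eq_zero fun j _ => hgsum j
  simp only [hdec, tsum_ite_eq] at htot
  apply hx
  have := hF i x
  rw [← hy] at this
  linarith

include hf hF in
/-- every point is contained in a finite set `Z` all of whose points have two labels leading
into `Z` -/
lemma um1_exists_cycle (hne : ∀ i j x, i ≠ j → f i x ≠ f j x)
    (hsum : ∀ x, ∑ i, F i x = 0) (hsm : ∀ i, Summable (F i))
    (h0 : ∀ x i j, F i x = 0 → F j x = 0 → i = j) (hr : 3 ≤ r) (x : X) :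
    ∃ Z : Set X, Z.Finite ∧ x ∈ Z ∧ ∀ z ∈ Z, ∃ i j, i ≠ j ∧ (f i z ∈ Z ∧ f i z ≠ z) ∧
      (f j z ∈ Z ∧ f j z ≠ z) := by
  classical
  obtain ⟨i, hi⟩ : ∃ i, F i x ≠ 0 := by
    by_contra! h
    have h01 := h0 x ⟨0, by omega⟩ ⟨1, by omega⟩ (h _) (h _)
    simp at h01
  set G := um1_graph f F hf hF with hG
  have hadj : G.Adj x (f i x) := ⟨i, rfl, hi⟩
  obtain ⟨u, p, hp, he⟩ := SimpleGraph.adj_and_reachable_delete_edges_iff_exists_cycle.1
    ⟨hadj, um1_not_bridge f F hf hF hne hsum hsm i x hi⟩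
  refine ⟨{z | z ∈ p.support}, p.support.finite_toSet, p.fst_mem_support_of_mem_edges he, ?_⟩
  intro z hz
  have h2 := hp.ncard_neighborSet_toSubgraph_eq_two hz
  obtain ⟨a, b, hab, hN⟩ := Set.ncard_eq_two.1 h2
  have ha : a ∈ p.toSubgraph.neighborSet z := by rw [hN]; simp
  have hb : b ∈ p.toSubgraph.neighborSet z := by rw [hN]; simp
  have hza : G.Adj z a := p.toSubgraph.adj_sub ha
  have hzb : G.Adj z b := p.toSubgraph.adj_sub hb
  have hza' : a ≠ z := hza.ne'
  have hzb' : b ≠ z := hzb.ne'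
  obtain ⟨i', hi', -⟩ : G.Adj z a := hza
  obtain ⟨j', hj', -⟩ : G.Adj z b := hzb
  refine ⟨i', j', ?_, ⟨?_, ?_⟩, ?_, ?_⟩
  · rintro rfl
    exact hab (hi'.symm.trans hj')
  · rw [hi']
    exact p.mem_verts_toSubgraph.1 (p.toSubgraph.edge_vert (p.toSubgraph.adj_symm ha))
  · rw [hi']
    exact hza'
  · rw [hj']
    exact p.mem_verts_toSubgraph.1 (p.toSubgraph.edge_vert (p.toSubgraph.adj_symm hb))
  · rw [hj']
    exact hzb'


end

section
variable {X : Type*} [LinearOrder X] {r : ℕ} (f : Fin r → X → X)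

/-- darts from `Z` to `T` or upwards inside `Z` -/
def um1_R (T Z : Finset X) : Finset (X × Fin r) :=
  (Z ×ˢ (Finset.univ : Finset (Fin r))).filter
    (fun p => f p.2 p.1 ∈ T ∨ (f p.2 p.1 ∈ Z ∧ p.1 < f p.2 p.1))

lemma um1_mem_R {T Z : Finset X} {p : X × Fin r} :
    p ∈ um1_R f T Z ↔ p.1 ∈ Z ∧ (f p.2 p.1 ∈ T ∨ (f p.2 p.1 ∈ Z ∧ p.1 < f p.2 p.1)) := by
  simp [um1_R]

variable (hf : ∀ i x, f i (f i x) = x)

include hf in
lemma um1_count {T Z : Finset X} (hTZ : Disjoint Z T)
    (h2 : ∀ z ∈ Z, ∃ i j, i ≠ j ∧ (f i z ∈ Z ∪ T ∧ f i z ≠ z) ∧ (f j z ∈ Z ∪ T ∧ f j z ≠ z))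
    {q : X} {i : Fin r} (hq : q ∈ Z) (hqT : f i q ∈ T) :
    Z.card + 1 ≤ (um1_R f T Z).card := by
  classical
  set D : Finset (X × Fin r) := (Z ×ˢ (Finset.univ : Finset (Fin r))).filter
    (fun p => f p.2 p.1 ∈ T ∨ (f p.2 p.1 ∈ Z ∧ f p.2 p.1 ≠ p.1)) with hD
  have hcard : 2 * Z.card ≤ D.card := by
    have h1 : D.card = ∑ z ∈ Z, ((Finset.univ : Finset (Fin r)).filter
        (fun j => f j z ∈ T ∨ (f j z ∈ Z ∧ f j z ≠ z))).card := by
      simp only [hD, Finset.card_filter, Finset.sum_product]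
    rw [h1, mul_comm, ← smul_eq_mul]
    refine Finset.card_nsmul_le_sum _ _ _ fun z hz => ?_
    obtain ⟨a, b, hab, ⟨ha, ha'⟩, hb, hb'⟩ := h2 z hz
    rw [← Finset.card_pair hab]
    refine Finset.card_le_card ?_
    intro c hc
    simp only [Finset.mem_filter, Finset.mem_univ, true_and]
    rcases Finset.mem_insert.1 hc with rfl | hc
    · rcases Finset.mem_union.1 ha with h | h
      · exact Or.inr ⟨h, ha'⟩
      · exact Or.inl h
    · rw [Finset.mem_singleton] at hc
      subst hc
      rcases Finset.mem_union.1 hb with h | h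
      · exact Or.inr ⟨h, hb'⟩
      · exact Or.inl h
  set S : Finset (X × Fin r) := D.filter (fun p => f p.2 p.1 ∈ Z ∧ f p.2 p.1 < p.1) with hS
  have hDS : D ⊆ um1_R f T Z ∪ S := by
    intro p hp
    have hp' := Finset.mem_filter.1 hp
    have hpZ : p.1 ∈ Z := (Finset.mem_product.1 hp'.1).1
    rcases hp'.2 with h | ⟨h, h'⟩
    · exact Finset.mem_union_left _ ((um1_mem_R f).2 ⟨hpZ, Or.inl h⟩)
    · rcases lt_or_gt_of_ne h' with h3 | h3
      · exact Finset.mem_union_right _ (Finset.mem_filter.2 ⟨hp, h, h3⟩)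
      · exact Finset.mem_union_left _ ((um1_mem_R f).2 ⟨hpZ, Or.inr ⟨h, h3⟩⟩)
  have hqR : (q, i) ∈ um1_R f T Z := (um1_mem_R f).2 ⟨hq, Or.inl hqT⟩
  have hSR : S.card ≤ ((um1_R f T Z).erase (q, i)).card := by
    refine Finset.card_le_card_of_injOn (fun p => (f p.2 p.1, p.2)) ?_ ?_
    · intro p hp
      obtain ⟨hpD, h1, h2'⟩ := Finset.mem_filter.1 hp
      have hpZ : p.1 ∈ Z := (Finset.mem_product.1 (Finset.mem_filter.1 hpD).1).1
      rw [Finset.mem_coe, Finset.mem_erase]
      refine ⟨?_, (um1_mem_R f).2 ⟨h1, Or.inr ?_⟩⟩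
      · intro h
        rw [Prod.ext_iff] at h
        obtain ⟨h3, h4⟩ := h
        simp only at h3 h4
        rw [← h3, ← h4, hf] at hqT
        exact Finset.disjoint_left.1 hTZ hpZ hqT
      · simp only [hf]
        exact ⟨hpZ, h2'⟩
    · intro p hp p' hp' h
      simp only [Prod.mk.injEq] at h
      obtain ⟨h3, h4⟩ := h
      refine Prod.ext ?_ h4
      rw [← hf p.2 p.1, h3, h4, hf]
  rw [Finset.card_erase_of_mem hqR] at hSR
  have h3 := (Finset.card_le_card hDS).trans (Finset.card_union_le _ _)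
  have h4 : 0 < (um1_R f T Z).card := Finset.card_pos.2 ⟨_, hqR⟩
  omega

/-- summation over the darts issuing from given points -/
lemma um1_sum (R : Finset (X × Fin r)) (a : Fin r → X) (g : X × Fin r → ℝ) :
    ∑ p ∈ R, (if p.1 = a p.2 then g p else 0) =
      ∑ j, (if (a j, j) ∈ R then g (a j, j) else 0) := by
  rw [← Finset.sum_filter, ← Finset.sum_filter]
  refine Finset.sum_nbij' (fun p => p.2) (fun j => (a j, j)) ?_ ?_ ?_ ?_ ?_
  · intro p hp
    obtain ⟨h1, h2⟩ := Finset.mem_filter.1 hp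
    simp only [Finset.mem_filter, Finset.mem_univ, true_and]
    rw [← h2]
    exact h1
  · intro j hj
    simp only [Finset.mem_filter, Finset.mem_univ, true_and] at hj
    simp only [Finset.mem_filter, and_true]
    exact hj
  · intro p hp
    obtain ⟨h1, h2⟩ := Finset.mem_filter.1 hp
    exact Prod.ext h2.symm rfl
  · intro j hj
    rfl
  · intro p hp
    obtain ⟨h1, h2⟩ := Finset.mem_filter.1 hp
    rw [← h2]

/-- a linear relation between pairwise non-parallel vectors has zero or at least three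
nonzero coefficients -/
lemma um1_three {r : ℕ} (hr : 3 ≤ r) (u : Fin r → Plane) (hu : PNP u) (c : Fin r → ℝ)
    (h : ∀ w : Plane, ∑ j, c j * cross (u j) w = 0) (L : Finset (Fin r))
    (hL : ∀ j, j ∈ L ↔ c j ≠ 0) (hne : L.Nonempty) : 3 ≤ L.card := by
  classical
  by_contra hlt
  have hs : ∀ w, ∑ j ∈ L, c j * cross (u j) w = 0 := by
    intro w
    rw [← h w]
    refine Finset.sum_subset (Finset.subset_univ _) ?_
    intro j _ hj
    have : c j = 0 := by
      by_contra h0
      exact hj ((hL j).2 h0)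
    rw [this, zero_mul]
  have hpos : 0 < L.card := Finset.card_pos.2 hne
  have h12 : L.card = 1 ∨ L.card = 2 := by omega
  rcases h12 with h1 | h2
  · obtain ⟨a, rfl⟩ := Finset.card_eq_one.1 h1
    obtain ⟨b, hb⟩ : ∃ b : Fin r, b ≠ a := by
      by_cases ha : a = ⟨0, by omega⟩
      · exact ⟨⟨1, by omega⟩, by rw [ha]; simp⟩
      · exact ⟨⟨0, by omega⟩, fun h => ha h.symm⟩
    have h3 := hs (u b)
    rw [Finset.sum_singleton] at h3
    rcases mul_eq_zero.1 h3 with h3 | h3
    · exact (hL a).1 (Finset.mem_singleton_self a) h3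
    · exact hu a b hb.symm h3
  · obtain ⟨a, b, hab, rfl⟩ := Finset.card_eq_two.1 h2
    have h3 := hs (u b)
    rw [Finset.sum_pair hab, cross_self, mul_zero, add_zero] at h3
    rcases mul_eq_zero.1 h3 with h3 | h3
    · exact (hL a).1 (by simp) h3
    · exact hu a b hab h3

/-- the property of having no stress -/
def um1_Free (H : Finset (X × Fin r)) : Prop :=
  ∀ u : Fin r → Plane, PNP u → ∀ φ : X × Fin r → ℝ,
    (∀ y : X → Plane, ∑ p ∈ H, φ p * cross (u p.2) (y p.1 - y (f p.2 p.1)) = 0) →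
    ∀ p ∈ H, φ p = 0

include hf in
lemma um1_step (hr : 3 ≤ r) (hne : ∀ i j x, i ≠ j → f i x ≠ f j x) {T : Finset X}
    {H : Finset (X × Fin r)}
    (hH : ∀ p ∈ H, p.1 ∈ T ∧ f p.2 p.1 ∈ T) (hfree : um1_Free f H)
    (hex : ∃ Z : Finset X, Disjoint Z T ∧ Z.card + 1 ≤ (um1_R f T Z).card) :
    ∃ (Z : Finset X) (R : Finset (X × Fin r)), Disjoint Z T ∧ R.card = Z.card + 1 ∧
      Disjoint H R ∧ (∀ p ∈ R, p.1 ∈ Z ∧ f p.2 p.1 ∈ T ∪ Z) ∧ um1_Free f (H ∪ R) := by
  classical
  -- minimal Z
  obtain ⟨Z, hZT, hZc, hmin⟩ : ∃ Z : Finset X, Disjoint Z T ∧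
      Z.card + 1 ≤ (um1_R f T Z).card ∧ ∀ Z' : Finset X, Disjoint Z' T →
      Z'.card + 1 ≤ (um1_R f T Z').card → Z.card ≤ Z'.card := by
    have hex' : ∃ n, ∃ Z : Finset X, Disjoint Z T ∧ Z.card + 1 ≤ (um1_R f T Z).card ∧
        Z.card = n := by
      obtain ⟨Z, h1, h2⟩ := hex
      exact ⟨Z.card, Z, h1, h2, rfl⟩
    obtain ⟨Z, h1, h2, h3⟩ := Nat.find_spec hex'
    refine ⟨Z, h1, h2, fun Z' h4 h5 => ?_⟩
    rw [h3]
    exact Nat.find_min' hex' ⟨Z', h4, h5, rfl⟩
  obtain ⟨R, hRsub, hRc⟩ := Finset.exists_subset_card_eq hZc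
  have hRm : ∀ p ∈ R, p.1 ∈ Z ∧ (f p.2 p.1 ∈ T ∨ (f p.2 p.1 ∈ Z ∧ p.1 < f p.2 p.1)) :=
    fun p hp => (um1_mem_R f).1 (hRsub hp)
  have hRT : ∀ p ∈ R, p.1 ∈ Z ∧ f p.2 p.1 ∈ T ∪ Z := by
    intro p hp
    obtain ⟨h1, h2⟩ := hRm p hp
    refine ⟨h1, ?_⟩
    rcases h2 with h2 | h2
    · exact Finset.mem_union_left _ h2
    · exact Finset.mem_union_right _ h2.1
  have hHR : Disjoint H R := by
    rw [Finset.disjoint_left]
    intro p hpH hpR
    exact Finset.disjoint_left.1 hZT (hRm p hpR).1 (hH p hpH).1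
  refine ⟨Z, R, hZT, hRc, hHR, hRT, ?_⟩
  intro u hu φ hφ
  have hsplit : ∀ y : X → Plane,
      ∑ p ∈ H, φ p * cross (u p.2) (y p.1 - y (f p.2 p.1)) +
      ∑ p ∈ R, φ p * cross (u p.2) (y p.1 - y (f p.2 p.1)) = 0 := by
    intro y
    rw [← Finset.sum_union hHR]
    exact hφ y
  -- the active part
  set R2 : Finset (X × Fin r) := R.filter (fun p => φ p ≠ 0) with hR2
  have hR2m : ∀ p ∈ R2, p ∈ R ∧ φ p ≠ 0 := fun p hp => Finset.mem_filter.1 hp
  have hR2sub : R2.card ≤ R.card := Finset.card_le_card (Finset.filter_subset _ _)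
  have hmain : R2 = ∅ := by
    by_contra hne2
    have hR2ne : R2.Nonempty := Finset.nonempty_iff_ne_empty.2 hne2
    set L : X → Finset (Fin r) := fun z =>
      Finset.univ.filter (fun j => (z, j) ∈ R2 ∨ (f j z, j) ∈ R2) with hL
    set Z2 : Finset X := Z.filter (fun z => (L z).Nonempty) with hZ2
    have hZ2sub : Z2 ⊆ Z := Finset.filter_subset _ _
    have hZ2T : Disjoint Z2 T := Finset.disjoint_of_subset_left hZ2sub hZT
    have hstart : ∀ p ∈ R2, p.1 ∈ Z2 := by
      intro p hp
      refine Finset.mem_filter.2 ⟨(hRm p (hR2m p hp).1).1, ⟨p.2, ?_⟩⟩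
      simp only [hL, Finset.mem_filter, Finset.mem_univ, true_and]
      exact Or.inl hp
    have hend : ∀ p ∈ R2, f p.2 p.1 ∈ Z → f p.2 p.1 ∈ Z2 := by
      intro p hp h
      refine Finset.mem_filter.2 ⟨h, ⟨p.2, ?_⟩⟩
      simp only [hL, Finset.mem_filter, Finset.mem_univ, true_and, hf]
      exact Or.inr hp
    have hR2R : R2 ⊆ um1_R f T Z2 := by
      intro p hp
      refine (um1_mem_R f).2 ⟨hstart p hp, ?_⟩
      rcases (hRm p (hR2m p hp).1).2 with h | h
      · exact Or.inl h
      · exact Or.inr ⟨hend p hp h.1, h.2⟩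
    -- at least three labels at each vertex
    have hthree : ∀ z ∈ Z2, 3 ≤ (L z).card := by
      intro z hz
      obtain ⟨hzZ, hzL⟩ := Finset.mem_filter.1 hz
      have hexcl : ∀ j, (z, j) ∈ R → (f j z, j) ∈ R → False := by
        intro j h1 h2
        obtain ⟨h3, h4⟩ := hRm _ h1
        obtain ⟨h5, h6⟩ := hRm _ h2
        simp only [hf] at h3 h4 h5 h6
        rcases h4 with h4 | h4
        · exact Finset.disjoint_left.1 hZT h5 h4
        · rcases h6 with h6 | h6
          · exact Finset.disjoint_left.1 hZT h3 h6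
          · exact lt_asymm h4.2 h6.2
      set c : Fin r → ℝ := fun j =>
        (if (z, j) ∈ R then φ (z, j) else 0) - (if (f j z, j) ∈ R then φ (f j z, j) else 0)
        with hc
      refine um1_three hr u hu c ?_ (L z) ?_ hzL
      · intro w
        have h1 := hsplit (fun x => if x = z then w else 0)
        have h2 : ∑ p ∈ H, φ p * cross (u p.2)
            ((if p.1 = z then w else 0) - (if f p.2 p.1 = z then w else 0)) = 0 := by
          refine Finset.sum_eq_zero fun p hp => ?_
          obtain ⟨h3, h4⟩ := hH p hp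
          have h5 : p.1 ≠ z := fun h => Finset.disjoint_left.1 hZT hzZ (h ▸ h3)
          have h6 : f p.2 p.1 ≠ z := fun h => Finset.disjoint_left.1 hZT hzZ (h ▸ h4)
          rw [if_neg h5, if_neg h6, sub_zero]
          simp [cross]
        rw [h2, zero_add] at h1
        rw [← h1]
        have h3 : ∀ p ∈ R, φ p * cross (u p.2)
            ((if p.1 = z then w else 0) - (if f p.2 p.1 = z then w else 0)) =
            (if p.1 = (fun _ : Fin r => z) p.2 then φ p * cross (u p.2) w else 0) -
            (if p.1 = (fun j : Fin r => f j z) p.2 then φ p * cross (u p.2) w else 0) := by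
          intro p _
          have h4 : f p.2 p.1 = z ↔ p.1 = f p.2 z := by
            constructor
            · intro h; rw [← h, hf]
            · intro h; rw [h, hf]
          have hz0 : cross (u p.2) 0 = 0 := by simp [cross]
          rw [cross_sub_right, mul_sub]
          simp only [h4]
          congr 1
          · split_ifs
            · rfl
            · rw [hz0, mul_zero]
          · split_ifs
            · rfl
            · rw [hz0, mul_zero]
        rw [Finset.sum_congr rfl h3, Finset.sum_sub_distrib,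
          um1_sum R (fun _ => z) (fun p => φ p * cross (u p.2) w),
          um1_sum R (fun j => f j z) (fun p => φ p * cross (u p.2) w),
          ← Finset.sum_sub_distrib]
        refine Finset.sum_congr rfl fun j _ => ?_
        simp only [hc]
        split_ifs <;> ring
      · intro j
        simp only [hL, Finset.mem_filter, Finset.mem_univ, true_and, hc, hR2]
        by_cases h1 : (z, j) ∈ R
        · have h2 : (f j z, j) ∉ R := fun h => hexcl j h1 h
          simp [h1, h2]
        · by_cases h2 : (f j z, j) ∈ R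
          · simp [h1, h2]
          · simp [h1, h2]
    -- double counting
    set Rin : Finset (X × Fin r) := R2.filter (fun p => f p.2 p.1 ∈ Z) with hRin
    have hcount : 3 * Z2.card ≤ R2.card + Rin.card := by
      set B : Finset (X × Fin r) := (Z2 ×ˢ (Finset.univ : Finset (Fin r))).filter
        (fun p => p.2 ∈ L p.1) with hB
      have h1 : B.card = ∑ z ∈ Z2, (L z).card := by
        rw [hB, Finset.card_filter, Finset.sum_product]
        refine Finset.sum_congr rfl fun z _ => ?_
        simp only [← Finset.card_filter]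
        congr 1
        ext j
        simp
      have h2 : 3 * Z2.card ≤ B.card := by
        rw [h1, mul_comm, ← smul_eq_mul]
        exact Finset.card_nsmul_le_sum _ _ _ hthree
      have h3 : B ⊆ R2 ∪ Rin.image (fun p => (f p.2 p.1, p.2)) := by
        intro p hp
        obtain ⟨h4, h5⟩ := Finset.mem_filter.1 hp
        have hpZ : p.1 ∈ Z := hZ2sub (Finset.mem_product.1 h4).1
        simp only [hL, Finset.mem_filter, Finset.mem_univ, true_and] at h5
        rcases h5 with h5 | h5
        · exact Finset.mem_union_left _ h5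
        · refine Finset.mem_union_right _ (Finset.mem_image.2 ⟨(f p.2 p.1, p.2), ?_, ?_⟩)
          · refine Finset.mem_filter.2 ⟨h5, ?_⟩
            simp only [hf]
            exact hpZ
          · simp only [hf]
      have h4 := (Finset.card_le_card h3).trans (Finset.card_union_le _ _)
      have h5 : (Rin.image (fun p => (f p.2 p.1, p.2))).card ≤ Rin.card :=
        Finset.card_image_le
      omega
    have hRinR2 : Rin.card ≤ R2.card := Finset.card_le_card (Finset.filter_subset _ _)
    have hRinm : ∀ p ∈ Rin, p.1 ∈ Z2 ∧ f p.2 p.1 ∈ Z2 ∧ p.1 < f p.2 p.1 := by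
      intro p hp
      obtain ⟨h1, h2⟩ := Finset.mem_filter.1 hp
      refine ⟨hstart p h1, hend p h1 h2, ?_⟩
      rcases (hRm p (hR2m p h1).1).2 with h | h
      · exact absurd h (Finset.disjoint_left.1 hZT h2)
      · exact h.2
    have hone : Z2.card ≤ 1 → Rin.card = 0 := by
      intro h1
      rw [Finset.card_eq_zero]
      by_contra h2
      obtain ⟨p, hp⟩ := Finset.nonempty_iff_ne_empty.2 h2
      obtain ⟨h3, h4, h5⟩ := hRinm p hp
      exact absurd (Finset.card_le_one.1 h1 _ h3 _ h4) h5.ne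
    have htwo : Z2.card ≤ 2 → Rin.card ≤ 1 := by
      intro h1
      rw [Finset.card_le_one]
      intro p hp p' hp'
      obtain ⟨h3, h4, h5⟩ := hRinm p hp
      obtain ⟨h3', h4', h5'⟩ := hRinm p' hp'
      have h6 : {p.1, f p.2 p.1} = Z2 := by
        refine Finset.eq_of_subset_of_card_le ?_ ?_
        · intro x hx
          rcases Finset.mem_insert.1 hx with rfl | hx
          · exact h3
          · rw [Finset.mem_singleton.1 hx]; exact h4
        · rw [Finset.card_pair h5.ne]; exact h1
      rw [← h6] at h3' h4'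
      simp only [Finset.mem_insert, Finset.mem_singleton] at h3' h4'
      have h7 : p'.1 = p.1 := by
        rcases h3' with h | h
        · exact h
        · exfalso
          rcases h4' with h' | h'
          · have h10 : f p.2 p.1 < p.1 := by
              calc f p.2 p.1 = p'.1 := h.symm
                _ < f p'.2 p'.1 := h5'
                _ = p.1 := h'
            exact lt_asymm h5 h10
          · have h10 : f p.2 p.1 < f p.2 p.1 := by
              calc f p.2 p.1 = p'.1 := h.symm
                _ < f p'.2 p'.1 := h5'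
                _ = f p.2 p.1 := h'
            exact lt_irrefl _ h10
      have h8 : f p'.2 p'.1 = f p.2 p.1 := by
        rcases h4' with h' | h'
        · rw [h', h7] at h5'
          exact absurd h5' (lt_irrefl _)
        · exact h'
      refine Prod.ext h7.symm ?_
      by_contra h9
      apply hne p.2 p'.2 p.1 h9
      rw [← h8, h7]
    have hR2pos : 0 < R2.card := Finset.card_pos.2 hR2ne
    have hZ2pos : 0 < Z2.card := by
      obtain ⟨p, hp⟩ := hR2ne
      exact Finset.card_pos.2 ⟨_, hstart p hp⟩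
    have hbig : Z2.card + 1 ≤ R2.card := by
      by_cases h1 : Z2.card ≤ 1
      · have := hone h1
        omega
      · omega
    have hZle : Z.card ≤ Z2.card := hmin Z2 hZ2T (hbig.trans (Finset.card_le_card hR2R))
    have hZ2le : Z2.card ≤ Z.card := Finset.card_le_card hZ2sub
    by_cases h1 : Z2.card ≤ 1
    · have := hone h1
      omega
    · by_cases h2 : Z2.card ≤ 2
      · have := htwo h2
        omega
      · omega
  have hzero : ∀ p ∈ R, φ p = 0 := by
    intro p hp
    by_contra h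
    have : p ∈ R2 := Finset.mem_filter.2 ⟨hp, h⟩
    rw [hmain] at this
    exact absurd this (Finset.notMem_empty _)
  have hHz : ∀ p ∈ H, φ p = 0 := by
    refine hfree u hu φ fun y => ?_
    have h1 := hsplit y
    rw [Finset.sum_eq_zero (s := R) fun p hp => by rw [hzero p hp, zero_mul], add_zero] at h1
    exact h1
  intro p hp
  rcases Finset.mem_union.1 hp with h | h
  · exact hHz p h
  · exact hzero p h

end

theorem exists_large {X : Type*} [Infinite X] {r : ℕ} (hr : 3 ≤ r)
    (f : Fin r → X → X) (hf : ∀ i x, f i (f i x) = x) (hne : ∀ i j x, i ≠ j → f i x ≠ f j x)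
    (hconn : ∀ A : Set X, A.Nonempty → (∀ i, ∀ x ∈ A, f i x ∈ A) → A = Set.univ)
    (F : Fin r → X → ℝ) (hF : ∀ i x, F i (f i x) = - F i x) (hsum : ∀ x, ∑ i, F i x = 0)
    (hsm : ∀ i, Summable (F i)) (h0 : ∀ x i j, F i x = 0 → F j x = 0 → i = j) (m : ℕ) :
    ∃ (T : Finset X) (H : Finset (X × Fin r)),
      (∀ p ∈ H, p.1 ∈ T ∧ f p.2 p.1 ∈ T) ∧ T.card + m ≤ H.card ∧
      ∀ u : Fin r → Plane, PNP u → ∀ φ : X × Fin r → ℝ,
        (∀ y : X → Plane, ∑ p ∈ H, φ p * cross (u p.2) (y p.1 - y (f p.2 p.1)) = 0) →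
        ∀ p ∈ H, φ p = 0 := by
  classical
  let _ : LinearOrder X := linearOrderOfSTO (WellOrderingRel : X → X → Prop)
  have key : ∀ k : ℕ, ∃ (T : Finset X) (H : Finset (X × Fin r)), T.Nonempty ∧
      (∀ p ∈ H, p.1 ∈ T ∧ f p.2 p.1 ∈ T) ∧ T.card + k ≤ H.card + 1 ∧ um1_Free f H := by
    intro k
    induction k with
    | zero =>
      obtain ⟨x0⟩ := (inferInstance : Nonempty X)
      refine ⟨{x0}, ∅, Finset.singleton_nonempty _, by simp, by simp, ?_⟩
      intro u _ φ _ p hp
      exact absurd hp (Finset.notMem_empty _)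
    | succ k ih =>
      obtain ⟨T, H, hTne, hH, hc, hfree⟩ := ih
      obtain ⟨p, hpT, i, hi⟩ : ∃ p ∈ T, ∃ i, f i p ∉ T := by
        by_contra! h
        have h1 := hconn (T : Set X) hTne (fun i x hx => h x hx i)
        exact Set.infinite_univ (α := X) (h1 ▸ T.finite_toSet)
      obtain ⟨Zs, hZf, hqZ, hZ⟩ := um1_exists_cycle f F hf hF hne hsum hsm h0 hr (f i p)
      set Z0 : Finset X := hZf.toFinset \ T with hZ0
      have hd : Disjoint Z0 T := Finset.sdiff_disjoint
      have hex : Z0.card + 1 ≤ (um1_R f T Z0).card := by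
        refine um1_count f hf hd ?_ (q := f i p) (i := i) ?_ ?_
        · intro z hz
          obtain ⟨h1, h2⟩ := Finset.mem_sdiff.1 hz
          obtain ⟨a, b, hab, ⟨ha, ha'⟩, hb, hb'⟩ := hZ z (by simpa using h1)
          have hmem : ∀ x ∈ Zs, x ∈ Z0 ∪ T := by
            intro x hx
            by_cases hxT : x ∈ T
            · exact Finset.mem_union_right _ hxT
            · exact Finset.mem_union_left _ (Finset.mem_sdiff.2 ⟨by simpa using hx, hxT⟩)
          exact ⟨a, b, hab, ⟨hmem _ ha, ha'⟩, hmem _ hb, hb'⟩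
        · exact Finset.mem_sdiff.2 ⟨by simpa using hqZ, hi⟩
        · rw [hf]; exact hpT
      obtain ⟨Z, R, hZT, hRc, hHR, hRm, hfree'⟩ := um1_step f hf hr hne hH hfree ⟨Z0, hd, hex⟩
      refine ⟨T ∪ Z, H ∪ R, hTne.mono Finset.subset_union_left, ?_, ?_, hfree'⟩
      · intro p hp
        rcases Finset.mem_union.1 hp with h | h
        · exact ⟨Finset.mem_union_left _ (hH p h).1, Finset.mem_union_left _ (hH p h).2⟩
        · exact ⟨Finset.mem_union_right _ (hRm p h).1, (hRm p h).2⟩
      · rw [Finset.card_union_of_disjoint hHR, Finset.card_union_of_disjoint hZT.symm, hRc]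
        omega
  obtain ⟨T, H, -, hH, hc, hfree⟩ := key (m + 1)
  exact ⟨T, H, hH, by omega, hfree⟩

end ChordMaps
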