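import Mathlib

/-!
# UM-4: Hausdorff dimension of regular zero sets, via the implicit function theorem (helper10)
-/

set_option autoImplicit false

namespace ChordMaps

open Topology Set

theorem dimH_zero_le {E W : Type*} [NormedAddCommGroup E] [NormedSpace ℝ E]
    [FiniteDimensional ℝ E] [NormedAddCommGroup W] [NormedSpace ℝ W] [FiniteDimensional ℝ W]
    {G : E → W} (hG : ContDiff ℝ 1 G) {Z : Set E} (hZ : ∀ z ∈ Z, G z = 0)
    (hsurj : ∀ z ∈ Z, Function.Surjective (fderiv ℝ G z)) :
    dimH Z ≤ ((Module.finrank ℝ E - Module.finrank ℝ W : ℕ) : ENNReal) := by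
  have : ProperSpace E := FiniteDimensional.proper ℝ E
  by_contra hlt
  rw [not_le] at hlt
  obtain ⟨z, hz, hz'⟩ := exists_mem_nhdsWithin_lt_dimH_of_lt_dimH hlt
  have hstr : HasStrictFDerivAt G (fderiv ℝ G z) z :=
    (hG.contDiffAt.hasStrictFDerivAt one_ne_zero)
  have : CompleteSpace E := FiniteDimensional.complete ℝ E
  have hr : (fderiv ℝ G z).range = ⊤ := LinearMap.range_eq_top.2 (hsurj z hz)
  obtain ⟨K, s, hs, hL⟩ := (hstr.to_implicitFunction hr).exists_lipschitzOnWith
  set g := hstr.implicitFunction G (fderiv ℝ G z) hr (G z) with hg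
  -- near `z` in `Z`
  have h1 := hstr.eq_implicitFunction hr
  have h2 : ∀ᶠ x in 𝓝 z, (hstr.implicitToOpenPartialHomeomorph G (fderiv ℝ G z) hr x).snd ∈ s := by
    have hc : ContinuousAt (hstr.implicitToOpenPartialHomeomorph G (fderiv ℝ G z) hr) z :=
      (hstr.implicitToOpenPartialHomeomorph G (fderiv ℝ G z) hr).continuousAt
        (hstr.mem_implicitToOpenPartialHomeomorph_source hr)
    have hc2 := hc.snd
    have : (hstr.implicitToOpenPartialHomeomorph G (fderiv ℝ G z) hr z).snd = 0 := by simp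
    apply hc2
    have h0 : s ∈ 𝓝 (hstr.implicitToOpenPartialHomeomorph G (fderiv ℝ G z) hr z).snd := by
      rw [this]
      exact hs
    exact h0
  have h3 : {x | x ∈ g '' s} ∈ 𝓝[Z] z := by
    filter_upwards [self_mem_nhdsWithin, nhdsWithin_le_nhds h1, nhdsWithin_le_nhds h2] with x hx hx1
      hx2
    refine ⟨_, hx2, ?_⟩
    rw [hZ x hx] at hx1
    rw [hg, hZ z hz]
    exact hx1
  have h4 := hz' _ h3
  have h5 : dimH (g '' s) ≤ ((Module.finrank ℝ E - Module.finrank ℝ W : ℕ) : ENNReal) := by
    refine (hL.dimH_image_le).trans ((dimH_mono (subset_univ s)).trans ?_)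
    rw [Real.dimH_univ_eq_finrank]
    have h6 := LinearMap.finrank_range_add_finrank_ker (fderiv ℝ G z).toLinearMap
    have h7 : Module.finrank ℝ (LinearMap.range (fderiv ℝ G z).toLinearMap) =
        Module.finrank ℝ W := by
      have : LinearMap.range (fderiv ℝ G z).toLinearMap = ⊤ := hr
      rw [this, finrank_top]
    have h8 : Module.finrank ℝ (fderiv ℝ G z).ker =
        Module.finrank ℝ (LinearMap.ker (fderiv ℝ G z).toLinearMap) := rfl
    rw [h8]
    exact_mod_cast le_of_eq (by omega)
  exact absurd h4 (not_lt.2 h5)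

end ChordMaps
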