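import Pool.Agent.Helper3.Chord.UDefs
import Pool.Agent.Helper3.Chord.UM4

set_option autoImplicit false

/-!
# UM-5: the bad right-hand sides have dimension less than `M`
-/

namespace ChordMaps

open Topology

/-- unit vectors with angles `θ` -/
noncomputable def um5_u {r : ℕ} (θ : Fin r → ℝ) (i : Fin r) : Plane :=
  !₂[Real.cos (θ i), Real.sin (θ i)]

lemma um5_exists_angle (v : Plane) (hv : ‖v‖ = 1) :
    ∃ t : ℝ, v = !₂[Real.cos t, Real.sin t] := by
  have h1 : v 0 ^ 2 + v 1 ^ 2 = 1 := by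
    have := EuclideanSpace.norm_sq_eq v
    rw [hv, Fin.sum_univ_two] at this
    simp only [Real.norm_eq_abs, sq_abs] at this
    linarith
  let z : ℂ := ⟨v 0, v 1⟩
  have hz : ‖z‖ = 1 := by
    have h2 : ‖z‖ ^ 2 = 1 := by
      rw [← Complex.normSq_eq_norm_sq, Complex.normSq_apply]
      simp only [z]
      linarith
    have h3 : 0 ≤ ‖z‖ := norm_nonneg z
    nlinarith
  have hz0 : z ≠ 0 := by
    intro h
    rw [h, norm_zero] at hz
    exact zero_ne_one hz
  refine ⟨Complex.arg z, ?_⟩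
  ext i
  fin_cases i
  · have := Complex.cos_arg hz0
    rw [hz, div_one] at this
    simp [this, z]
  · have := Complex.sin_arg z
    rw [hz, div_one] at this
    simp [this, z]

/-- the equations, linear in `(y, c)` -/
noncomputable def um5_L {r N M : ℕ} (e : Finset (Fin N × Fin N × Fin r)) (ν : Fin M → Plane)
    (k : Fin N → Fin M) (u : Fin r → Plane) :
    ((Fin N → Plane) × (Fin M → ℝ)) →ₗ[ℝ] ((e → ℝ) × (Fin N → ℝ)) where
  toFun x := (fun p => cross (u p.1.2.2) (x.1 p.1.1 - x.1 p.1.2.1),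
    fun i => inner ℝ (ν (k i)) (x.1 i) - x.2 (k i))
  map_add' x y := by
    ext i
    · simp only [Prod.fst_add, Pi.add_apply]
      rw [← cross_add_right]
      congr 1
      abel
    · simp only [Prod.fst_add, Prod.snd_add, Pi.add_apply, inner_add_right]
      ring
  map_smul' t x := by
    ext i
    · simp only [Prod.smul_fst, Pi.smul_apply, RingHom.id_apply, smul_eq_mul]
      rw [← cross_smul_right, smul_sub]
    · simp only [Prod.smul_fst, Prod.smul_snd, Pi.smul_apply, inner_smul_right, smul_eq_mul,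
        RingHom.id_apply]
      ring

lemma um5_surj {r N M : ℕ} (e : Finset (Fin N × Fin N × Fin r)) (he : GoodU e)
    (ν : Fin M → Plane) (k : Fin N → Fin M) (hk : Function.Injective k) (u : Fin r → Plane)
    (hu : PNP u) : Function.Surjective (um5_L e ν k u) := by
  classical
  -- the map for the cross products
  let T : (Fin N → Plane) →ₗ[ℝ] (e → ℝ) :=
    { toFun := fun y p => cross (u p.1.2.2) (y p.1.1 - y p.1.2.1)
      map_add' := fun x y => by
        ext p
        simp only [Pi.add_apply]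
        rw [← cross_add_right]
        congr 1
        abel
      map_smul' := fun t x => by
        ext p
        simp only [Pi.smul_apply, RingHom.id_apply, smul_eq_mul]
        rw [← cross_smul_right, smul_sub] }
  have hT : Function.Surjective T := by
    rw [← LinearMap.range_eq_top]
    by_contra hne
    obtain ⟨f, hf0, hf⟩ := Submodule.exists_le_ker_of_lt_top _ (lt_top_iff_ne_top.2 hne)
    let φ : Fin N × Fin N × Fin r → ℝ :=
      fun p => if hp : p ∈ e then f (Pi.single ⟨p, hp⟩ 1) else 0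
    have hfφ : ∀ z : e → ℝ, f z = ∑ p : e, φ p.1 * z p := by
      intro z
      have h1 : z = ∑ p : e, z p • (Pi.single p (1 : ℝ) : e → ℝ) := by
        ext q
        simp [Finset.sum_apply, Pi.single_apply]
      conv_lhs => rw [h1]
      rw [map_sum]
      refine Finset.sum_congr rfl fun p _ => ?_
      rw [map_smul, smul_eq_mul]
      have h2 : φ p.1 = f (Pi.single p 1) := by
        simp [φ]
      rw [h2]
      ring
    have h0 : ∀ p ∈ e, φ p = 0 := by
      apply he.2 u hu φ
      intro y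
      have h3 : f (T y) = 0 := hf (LinearMap.mem_range_self T y)
      rw [hfφ] at h3
      rw [← Finset.sum_coe_sort e]
      exact h3
    apply hf0
    apply LinearMap.ext
    intro z
    rw [hfφ, LinearMap.zero_apply]
    exact Finset.sum_eq_zero fun p _ => by rw [h0 p.1 p.2, zero_mul]
  rintro ⟨a, b⟩
  obtain ⟨y, hy⟩ := hT a
  refine ⟨(y, Function.extend k (fun i => inner ℝ (ν (k i)) (y i) - b i) 0), ?_⟩
  ext i
  · exact congrFun hy i
  · change inner ℝ (ν (k i)) (y i) - Function.extend k (fun i => inner ℝ (ν (k i)) (y i) - b i) 0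
      (k i) = b i
    rw [hk.extend_apply]
    ring

/-- the equations -/
noncomputable def um5_G {r N M : ℕ} (e : Finset (Fin N × Fin N × Fin r)) (ν : Fin M → Plane)
    (k : Fin N → Fin M) (x : (Fin r → ℝ) × ((Fin N → Plane) × (Fin M → ℝ))) :
    (e → ℝ) × (Fin N → ℝ) := um5_L e ν k (um5_u x.1) x.2

lemma um5_contDiff {r N M : ℕ} (e : Finset (Fin N × Fin N × Fin r)) (ν : Fin M → Plane)
    (k : Fin N → Fin M) : ContDiff ℝ 1 (um5_G e ν k) := by
  unfold um5_G
  apply ContDiff.prodMk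
  · rw [contDiff_pi]
    intro p
    have : (fun x : (Fin r → ℝ) × ((Fin N → Plane) × (Fin M → ℝ)) =>
        cross (um5_u x.1 p.1.2.2) (x.2.1 p.1.1 - x.2.1 p.1.2.1)) =
        fun x => Real.cos (x.1 p.1.2.2) * (x.2.1 p.1.1 1 - x.2.1 p.1.2.1 1) -
          Real.sin (x.1 p.1.2.2) * (x.2.1 p.1.1 0 - x.2.1 p.1.2.1 0) := by
      funext x
      simp [cross, um5_u]
    have h2 : ContDiff ℝ 1 (fun x : (Fin r → ℝ) × ((Fin N → Plane) × (Fin M → ℝ)) =>
        cross (um5_u x.1 p.1.2.2) (x.2.1 p.1.1 - x.2.1 p.1.2.1)) := by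
      rw [this]
      have hx : ContDiff ℝ 1 (fun x : (Fin r → ℝ) × ((Fin N → Plane) × (Fin M → ℝ)) =>
          x.1 p.1.2.2) := by fun_prop
      have hy : ∀ (i : Fin N) (j : Fin 2), ContDiff ℝ 1
          (fun x : (Fin r → ℝ) × ((Fin N → Plane) × (Fin M → ℝ)) => x.2.1 i j) := by
        intro i j
        fun_prop
      exact ((Real.contDiff_cos.comp hx).mul ((hy _ _).sub (hy _ _))).sub
        ((Real.contDiff_sin.comp hx).mul ((hy _ _).sub (hy _ _)))
    exact h2
  · rw [contDiff_pi]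
    intro i
    have h2 : ContDiff ℝ 1 (fun x : (Fin r → ℝ) × ((Fin N → Plane) × (Fin M → ℝ)) =>
        (inner ℝ (ν (k i)) (x.2.1 i) - x.2.2 (k i) : ℝ)) := by
      have h3 : ContDiff ℝ 1 (fun x : (Fin r → ℝ) × ((Fin N → Plane) × (Fin M → ℝ)) =>
          (inner ℝ (ν (k i)) (x.2.1 i) : ℝ)) :=
        (innerSL ℝ (ν (k i))).contDiff.comp (by fun_prop)
      have h4 : ContDiff ℝ 1 (fun x : (Fin r → ℝ) × ((Fin N → Plane) × (Fin M → ℝ)) =>
          x.2.2 (k i)) := by fun_prop
      exact h3.sub h4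
    exact h2

lemma um5_fderiv_surj {r N M : ℕ} (e : Finset (Fin N × Fin N × Fin r)) (he : GoodU e)
    (ν : Fin M → Plane) (k : Fin N → Fin M) (hk : Function.Injective k)
    (x : (Fin r → ℝ) × ((Fin N → Plane) × (Fin M → ℝ))) (hu : PNP (um5_u x.1)) :
    Function.Surjective (fderiv ℝ (um5_G e ν k) x) := by
  intro w
  obtain ⟨v, hv⟩ := um5_surj e he ν k hk (um5_u x.1) hu w
  refine ⟨((0 : Fin r → ℝ), v), ?_⟩
  have hd : HasFDerivAt (um5_G e ν k) (fderiv ℝ (um5_G e ν k) x) x :=
    (((um5_contDiff e ν k).differentiable (by norm_num)) x).hasFDerivAt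
  have h1 : HasDerivAt (fun t : ℝ => um5_G e ν k (x + t • ((0 : Fin r → ℝ), v)))
      (fderiv ℝ (um5_G e ν k) x ((0 : Fin r → ℝ), v)) 0 := by
    have hline : HasDerivAt (fun t : ℝ => x + t • ((0 : Fin r → ℝ), v))
        ((0 : Fin r → ℝ), v) 0 := by
      have := ((hasDerivAt_id (0 : ℝ)).smul_const ((0 : Fin r → ℝ), v)).const_add x
      simpa using this
    have hd' : HasFDerivAt (um5_G e ν k) (fderiv ℝ (um5_G e ν k) x)
        (x + (0 : ℝ) • ((0 : Fin r → ℝ), v)) := by
      simpa using hd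
    exact hd'.comp_hasDerivAt (0 : ℝ) hline
  have h2 : (fun t : ℝ => um5_G e ν k (x + t • ((0 : Fin r → ℝ), v))) =
      fun t : ℝ => um5_G e ν k x + t • w := by
    funext t
    unfold um5_G
    have e1 : (x + t • ((0 : Fin r → ℝ), v)).1 = x.1 := by simp
    have e2 : (x + t • ((0 : Fin r → ℝ), v)).2 = x.2 + t • v := by simp
    rw [e1, e2, map_add, map_smul, hv]
  rw [h2] at h1
  have h3 : HasDerivAt (fun t : ℝ => um5_G e ν k x + t • w) w 0 := by
    have := ((hasDerivAt_id (0 : ℝ)).smul_const w).const_add (um5_G e ν k x)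
    simpa using this
  exact h1.unique h3

theorem dimH_bad_lt {r N M : ℕ} (e : Finset (Fin N × Fin N × Fin r)) (he : GoodU e)
    (ν : Fin M → Plane) (k : Fin N → Fin M) (hk : Function.Injective k) :
    dimH {c : Fin M → ℝ | ∃ (u : Fin r → Plane) (y : Fin N → Plane), (∀ i, ‖u i‖ = 1) ∧ PNP u ∧
      (∀ i, inner ℝ (ν (k i)) (y i) = c (k i)) ∧
      ∀ p ∈ e, cross (u p.2.2) (y p.1 - y p.2.1) = 0} < (M : ENNReal) := by
  classical
  set Z : Set ((Fin r → ℝ) × ((Fin N → Plane) × (Fin M → ℝ))) :=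
    {x | um5_G e ν k x = 0 ∧ PNP (um5_u x.1)} with hZ
  have hdim := dimH_zero_le (um5_contDiff e ν k) (Z := Z) (fun z hz => hz.1)
    (fun z hz => um5_fderiv_surj e he ν k hk z hz.2)
  have hN : 1 ≤ N := by
    rcases Nat.eq_zero_or_pos N with h0 | h0
    · subst h0
      have h1 := he.1
      have h2 : e.card = 0 := by
        rw [Finset.card_eq_zero]
        ext p
        exact p.1.elim0
      omega
    · exact h0
  have hM : N ≤ M := by
    have := Fintype.card_le_of_injective k hk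
    simpa using this
  have hfin : (Module.finrank ℝ ((Fin r → ℝ) × ((Fin N → Plane) × (Fin M → ℝ))) -
      Module.finrank ℝ ((e → ℝ) × (Fin N → ℝ)) : ℕ) < M := by
    have e1 : Module.finrank ℝ ((Fin r → ℝ) × ((Fin N → Plane) × (Fin M → ℝ))) =
        r + (2 * N + M) := by
      rw [Module.finrank_prod, Module.finrank_prod]
      simp [Module.finrank_pi_fintype]
      ring
    have e2 : Module.finrank ℝ ((e → ℝ) × (Fin N → ℝ)) = e.card + N := by
      rw [Module.finrank_prod]
      simp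
    rw [e1, e2]
    have := he.1
    omega
  have hsub : {c : Fin M → ℝ | ∃ (u : Fin r → Plane) (y : Fin N → Plane), (∀ i, ‖u i‖ = 1) ∧
      PNP u ∧ (∀ i, inner ℝ (ν (k i)) (y i) = c (k i)) ∧
      ∀ p ∈ e, cross (u p.2.2) (y p.1 - y p.2.1) = 0} ⊆
      (fun x : (Fin r → ℝ) × ((Fin N → Plane) × (Fin M → ℝ)) => x.2.2) '' Z := by
    rintro c ⟨u, y, hu1, hu, hc, hy⟩
    have hθ : ∀ i, ∃ t : ℝ, u i = !₂[Real.cos t, Real.sin t] := fun i =>
      um5_exists_angle (u i) (hu1 i)
    choose θ hθ using hθ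
    have hu' : um5_u θ = u := by
      funext i
      exact (hθ i).symm
    refine ⟨(θ, (y, c)), ⟨?_, ?_⟩, rfl⟩
    · unfold um5_G
      simp only [hu']
      ext p
      · exact hy p.1 p.2
      · change inner ℝ (ν (k p)) (y p) - c (k p) = 0
        rw [hc p, sub_self]
    · simp only [hu']
      exact hu
  have hlip : LipschitzWith 1 (fun x : (Fin r → ℝ) × ((Fin N → Plane) × (Fin M → ℝ)) =>
      x.2.2) := by
    have := (LipschitzWith.prod_snd (α := Fin N → Plane) (β := Fin M → ℝ)).comp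
      (LipschitzWith.prod_snd (α := Fin r → ℝ) (β := (Fin N → Plane) × (Fin M → ℝ)))
    rw [one_mul] at this
    exact this
  calc dimH {c : Fin M → ℝ | ∃ (u : Fin r → Plane) (y : Fin N → Plane), (∀ i, ‖u i‖ = 1) ∧
      PNP u ∧ (∀ i, inner ℝ (ν (k i)) (y i) = c (k i)) ∧
      ∀ p ∈ e, cross (u p.2.2) (y p.1 - y p.2.1) = 0}
      ≤ dimH ((fun x : (Fin r → ℝ) × ((Fin N → Plane) × (Fin M → ℝ)) => x.2.2) '' Z) :=
        dimH_mono hsub
    _ ≤ dimH Z := hlip.dimH_image_le Z
    _ ≤ _ := hdim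
    _ < (M : ENNReal) := by
        exact_mod_cast hfin

end ChordMaps
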