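import Pool.Agent.Helper3.Chord.UDefs

set_option autoImplicit false

/-!
# UM-9: cyclic enumeration of a finite set of boundary points
-/

namespace ChordMaps

variable {K V : Set Plane} {p : Plane}

/-- ordering of `V` as seen from the point `p` -/
lemma um9_key (hcl : IsClosed K) (hs : StrictConvex ℝ K) (hVf : V.Finite)
    (hV : V ⊆ frontier K) (hp : p ∈ frontier K) (hne : ∃ q ∈ V, q ≠ p) :
    ∃ a ∈ V, a ≠ p ∧ ∃ b ∈ V, b ≠ p ∧
      (∀ x ∈ V, x ≠ p → 0 ≤ cross (a - p) (x - p)) ∧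
      (∀ x ∈ V, x ≠ p → 0 ≤ cross (x - p) (b - p)) := by
  obtain ⟨ν, hν⟩ := exists_strict_support hcl hs hp
  have hden : ∀ x ∈ V \ {p}, 0 < -(inner ℝ ν (x - p)) := by
    rintro x ⟨hx, hxp⟩
    have := hν x (hcl.frontier_subset (hV hx)) hxp
    rw [inner_sub_right]
    linarith
  obtain ⟨q, hq, hqp⟩ := hne
  have hν0 : 0 < ν 0 ^ 2 + ν 1 ^ 2 := by
    by_contra hcon
    push Not at hcon
    have h0 : ν 0 = 0 := by nlinarith [sq_nonneg (ν 0), sq_nonneg (ν 1)]
    have h1 : ν 1 = 0 := by nlinarith [sq_nonneg (ν 0), sq_nonneg (ν 1)]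
    have := hden q ⟨hq, hqp⟩
    rw [inner_eq, h0, h1] at this
    linarith
  have hfin : (V \ {p}).Finite := hVf.subset Set.sdiff_subset
  obtain ⟨a, ha, hamin⟩ := Set.exists_min_image (V \ {p})
    (fun x : Plane => -(cross ν (x - p)) / -(inner ℝ ν (x - p))) hfin ⟨q, hq, hqp⟩
  obtain ⟨b, hb, hbmax⟩ := Set.exists_max_image (V \ {p})
    (fun x : Plane => -(cross ν (x - p)) / -(inner ℝ ν (x - p))) hfin ⟨q, hq, hqp⟩
  have key : ∀ x ∈ V \ {p}, ∀ y ∈ V \ {p},
      -(cross ν (x - p)) / -(inner ℝ ν (x - p)) ≤ -(cross ν (y - p)) / -(inner ℝ ν (y - p)) →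
      0 ≤ cross (x - p) (y - p) := by
    intro x hx y hy h
    rw [div_le_div_iff₀ (hden x hx) (hden y hy)] at h
    rw [inner_eq, inner_eq] at h
    have h2 : (ν 0 ^ 2 + ν 1 ^ 2) * cross (x - p) (y - p) =
        -(cross ν (y - p)) * -(ν 0 * (x - p) 0 + ν 1 * (x - p) 1) -
        -(cross ν (x - p)) * -(ν 0 * (y - p) 0 + ν 1 * (y - p) 1) := by
      unfold cross; ring
    by_contra hcon
    push Not at hcon
    have := mul_neg_of_pos_of_neg hν0 hcon
    linarith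
  exact ⟨a, ha.1, ha.2, b, hb.1, hb.2, fun x hx hxp => key a ha x ⟨hx, hxp⟩ (hamin x ⟨hx, hxp⟩),
    fun x hx hxp => key x ⟨hx, hxp⟩ b hb (hbmax x ⟨hx, hxp⟩)⟩

lemma um9_out (hcl : IsClosed K) (hs : StrictConvex ℝ K) (hVf : V.Finite)
    (hV : V ⊆ frontier K) (hp : p ∈ V) (hne : ∃ q ∈ V, q ≠ p) : ∃ b, Edge V p b := by
  obtain ⟨a, ha, hap, -, -, -, h, -⟩ := um9_key hcl hs hVf hV (hV hp) hne
  refine ⟨a, hp, ha, Ne.symm hap, fun x hx => ?_⟩
  by_cases hxp : x = p
  · rw [hxp, sub_self]; simp [cross]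
  · exact h x hx hxp

lemma um9_in (hcl : IsClosed K) (hs : StrictConvex ℝ K) (hVf : V.Finite)
    (hV : V ⊆ frontier K) (hp : p ∈ V) (hne : ∃ q ∈ V, q ≠ p) : ∃ a, Edge V a p := by
  obtain ⟨-, -, -, b, hb, hbp, -, h⟩ := um9_key hcl hs hVf hV (hV hp) hne
  refine ⟨b, hb, hp, hbp, fun x hx => ?_⟩
  have h0 : cross (p - b) (x - b) = cross (x - p) (b - p) := by
    simp only [cross, PiLp.sub_apply]; ring
  rw [h0]
  by_cases hxp : x = p
  · rw [hxp, sub_self]; simp [cross]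
  · exact h x hx hxp

/-- three edges-type inequalities force a point below the supporting line -/
lemma um9_wedge {A B X ν : Plane} (h1 : 0 < cross A X) (h2 : 0 < cross X B)
    (h3 : 0 < cross A B) (hA : inner ℝ ν A ≤ 0) (hB : inner ℝ ν B ≤ 0) :
    inner ℝ ν X ≤ 0 := by
  have h : cross A B * inner ℝ ν X = cross X B * inner ℝ ν A + cross A X * inner ℝ ν B := by
    rw [inner_eq, inner_eq, inner_eq]; unfold cross; ring
  have h4 : cross A B * inner ℝ ν X ≤ 0 := by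
    rw [h]
    have := mul_nonpos_of_nonneg_of_nonpos h2.le hA
    have := mul_nonpos_of_nonneg_of_nonpos h1.le hB
    linarith
  by_contra hcon
  push Not at hcon
  have := mul_pos h3 hcon
  linarith

/-- a finite nonempty subset closed under out- and in-edges is everything -/
lemma um9_one_cycle (hcl : IsClosed K) (hs : StrictConvex ℝ K) (hVf : V.Finite)
    (hV : V ⊆ frontier K) {O : Set Plane} (hO : O ⊆ V) (hne : O.Nonempty)
    (hout : ∀ v ∈ O, ∃ w ∈ O, Edge V v w) (hin : ∀ v ∈ O, ∃ w ∈ O, Edge V w v) : O = V := by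
  refine Set.Subset.antisymm hO fun x hx => ?_
  by_contra hxO
  obtain ⟨ν, hν⟩ := exists_strict_support hcl hs (hV hx)
  obtain ⟨v, hvO, hvmax⟩ := Set.exists_max_image O (fun y : Plane => inner ℝ ν y)
    (hVf.subset hO) hne
  obtain ⟨w, hwO, hw⟩ := hout v hvO
  obtain ⟨z, hzO, hz⟩ := hin v hvO
  have hxv : x ≠ v := fun h => hxO (h ▸ hvO)
  have hxw : x ≠ w := fun h => hxO (h ▸ hwO)
  have hxz : x ≠ z := fun h => hxO (h ▸ hzO)
  have h1 : 0 < cross (w - v) (x - v) := hw.pos hcl hs hV hx hxv hxw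
  have h2 : 0 < cross (x - v) (z - v) := by
    have := hz.pos hcl hs hV hx hxz hxv
    have h0 : cross (v - z) (x - z) = cross (x - v) (z - v) := by
      simp only [cross, PiLp.sub_apply]; ring
    rwa [h0] at this
  have hzw : z ≠ w := by
    intro h
    have h0 : cross (w - v) (x - v) = - cross (x - v) (w - v) := by
      simp only [cross, PiLp.sub_apply]; ring
    rw [h] at h2
    linarith
  have h3 : 0 < cross (w - v) (z - v) := hw.pos hcl hs hV (hO hzO) hz.2.2.1 hzw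
  have h4 := um9_wedge (ν := ν) h1 h2 h3 (by
    rw [inner_sub_right]
    have : inner ℝ ν w ≤ inner ℝ ν v := hvmax w hwO
    linarith) (by
    rw [inner_sub_right]
    have : inner ℝ ν z ≤ inner ℝ ν v := hvmax z hzO
    linarith)
  rw [inner_sub_right] at h4
  have := hν v (hcl.frontier_subset (hV (hO hvO))) (Ne.symm hxv)
  linarith

/-- UM-9 -/
theorem exists_enum {K : Set Plane} (hcp : IsCompact K) (hs : StrictConvex ℝ K) {V : Set Plane}
    (hVf : V.Finite) (hV : V ⊆ frontier K) (h3 : 3 ≤ V.ncard) :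
    ∃ v : ℤ → Plane, (∀ i j, v i = v j ↔ (V.ncard : ℤ) ∣ i - j) ∧ Set.range v = V ∧
      ∀ i, Edge V (v i) (v (i + 1)) := by
  classical
  have hcl := hcp.isClosed
  have hoth : ∀ p ∈ V, ∃ q ∈ V, q ≠ p := fun p _ =>
    Set.exists_ne_of_one_lt_ncard (by omega) p
  have hout : ∀ p : V, ∃ b : V, Edge V p b := fun p => by
    obtain ⟨b, hb⟩ := um9_out hcl hs hVf hV p.2 (hoth p p.2)
    exact ⟨⟨b, hb.2.1⟩, hb⟩
  have hin : ∀ p : V, ∃ b : V, Edge V b p := fun p => by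
    obtain ⟨b, hb⟩ := um9_in hcl hs hVf hV p.2 (hoth p p.2)
    exact ⟨⟨b, hb.1⟩, hb⟩
  choose f hf using hout
  choose g hg using hin
  let σ : Equiv.Perm V :=
    { toFun := f
      invFun := g
      left_inv := fun x => Subtype.ext (Edge.in_unique hcl hs hV (hg (f x)) (hf x))
      right_inv := fun x => Subtype.ext (Edge.out_unique hcl hs hV (hf (g x)) (hg x)) }
  have hσ : ∀ x : V, Edge V x (σ x) := hf
  obtain ⟨v₀, hv₀⟩ : V.Nonempty := by
    rw [← Set.ncard_pos hVf]; omega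
  let o : V := ⟨v₀, hv₀⟩
  have : Fintype V := hVf.fintype
  -- the orbit is everything
  have horb : Subtype.val '' (MulAction.orbit (Subgroup.zpowers σ) o) = V := by
    refine um9_one_cycle hcl hs hVf hV (by rintro _ ⟨y, -, rfl⟩; exact y.2)
      ⟨v₀, o, MulAction.mem_orbit_self _, rfl⟩ ?_ ?_
    · rintro _ ⟨y, ⟨⟨t, n, rfl⟩, rfl⟩, rfl⟩
      refine ⟨_, ⟨σ ((σ ^ n) o), ⟨⟨σ ^ (1 + n), 1 + n, rfl⟩, ?_⟩, rfl⟩, hσ _⟩
      change (σ ^ (1 + n)) o = σ ((σ ^ n) o)
      rw [zpow_add, zpow_one, Equiv.Perm.mul_apply]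
    · rintro _ ⟨y, ⟨⟨t, n, rfl⟩, rfl⟩, rfl⟩
      refine ⟨_, ⟨(σ ^ (-1 + n)) o, ⟨⟨σ ^ (-1 + n), -1 + n, rfl⟩, rfl⟩, rfl⟩, ?_⟩
      have := hσ ((σ ^ (-1 + n)) o)
      have h1 : σ ((σ ^ (-1 + n)) o) = (σ ^ n) o := by
        rw [← Equiv.Perm.mul_apply, ← zpow_one_add]
        congr 2
        ring
      rw [h1] at this
      exact this
  have huniv : MulAction.orbit (Subgroup.zpowers σ) o = Set.univ := by
    ext y
    simp only [Set.mem_univ, iff_true]
    have : (y : Plane) ∈ Subtype.val '' (MulAction.orbit (Subgroup.zpowers σ) o) := by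
      rw [horb]; exact y.2
    obtain ⟨z, hz, hzy⟩ := this
    rwa [← Subtype.ext hzy]
  have hcard : Function.minimalPeriod (σ • ·) o = V.ncard := by
    rw [MulAction.minimalPeriod_eq_card]
    have h1 : Nat.card (MulAction.orbit (Subgroup.zpowers σ) o) = Nat.card V := by
      rw [huniv]
      simp
    rw [← Nat.card_eq_fintype_card, h1]
    rfl
  refine ⟨fun i => ((σ ^ i) o : V), fun i j => ?_, ?_, fun i => ?_⟩
  · rw [← hcard, ← MulAction.zpow_smul_eq_iff_minimalPeriod_dvd]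
    rw [zpow_sub, Equiv.Perm.smul_def, Equiv.Perm.mul_apply]
    constructor
    · intro h
      have h1 := Subtype.ext h
      rw [← Equiv.Perm.mul_apply, ← zpow_neg, ← zpow_add, add_comm, zpow_add,
        Equiv.Perm.mul_apply, h1, ← Equiv.Perm.mul_apply, ← zpow_add]
      simp
    · intro h
      have h1 := congrArg (σ ^ j) h
      rw [← Equiv.Perm.mul_apply, ← Equiv.Perm.mul_apply, ← zpow_neg, ← zpow_add, ← zpow_add] at h1
      rw [show j + i + -j = i by ring] at h1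
      exact congrArg Subtype.val h1
  · refine Eq.trans ?_ horb
    ext y
    constructor
    · rintro ⟨i, rfl⟩
      exact ⟨_, ⟨⟨σ ^ i, i, rfl⟩, rfl⟩, rfl⟩
    · rintro ⟨y, ⟨⟨t, n, rfl⟩, rfl⟩, rfl⟩
      exact ⟨n, rfl⟩
  · have := hσ ((σ ^ i) o)
    have h1 : σ ((σ ^ i) o) = (σ ^ (i + 1)) o := by
      rw [add_comm, zpow_add, zpow_one, Equiv.Perm.mul_apply]
    rw [h1] at this
    exact this

end ChordMaps
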